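import Pool.Agent.HLP.Main
import Pool.Agent.HLL.M_PAD1
import Pool.Agent.HLL.M_PAD2
import Pool.Agent.HDL.M_ALPHA
import Pool.Agent.HDL.M_BETA

/-!
# The theorem
-/

open MeasureTheory

namespace Pool.Agent.HLP

open Pool.Agent.HDL (SeekCost LMachine DetectsTriangles HasDegrees)

/-- the final theorem -/
theorem main :
    ∃ c : ℝ, 0 < c ∧ ∃ n0 : ℕ, ∀ n ≥ n0, ∀ m : ℕ, n ≤ m → m ≤ n ^ 2 → ∀ k S : ℕ, 1 ≤ k →
      ∀ ra : Bool, ∃ e : ℕ, e ≤ m ∧
        c * m * Real.exp (-20 * √(Real.log (if ra then (m : ℝ) else m / n))) ≤ e ∧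
        ∀ v ≥ n, ∃ d : Fin v → ℕ, ∑ i, d i = 2 * e ∧
          (∃ G H : SimpleGraph (Fin v), HasDegrees G d ∧ HasDegrees H d ∧ ¬ G.CliqueFree 3 ∧
            H.CliqueFree 3) ∧
          ∀ f : ℕ → ℝ, SeekCost f → ∀ D : ℕ, (k : ℝ) * D ^ 2 ≤ n * (S + k * Real.log n) →
          (ra = true → (k : ℝ) * D ^ 3 ≤ m * (S + k * Real.log n)) →
          ∀ (T : ℝ) (Q Ω : Type) [Fintype Q] [MeasurableSpace Ω] (μ : Measure Ω)
            [IsProbabilityMeasure μ], Fintype.card Q ≤ 2 ^ S → ∀ M : LMachine d k Q Ω,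
            DetectsTriangles M μ → ExpectedCostLE M μ ra f T →
            c * m * f D * Real.exp (-20 * √(Real.log (if ra then (m : ℝ) else m / n))) ≤
              (S + k * Real.log n) * (T + k) := by
  refine ⟨1 / 2 ^ 210, by positivity, 2 ^ 20, fun n hn m hnm hmn k S hk ra => ?_⟩
  have hb : Bound ra (Real.exp (-20 * √(Real.log (if ra then (m : ℝ) else m / n)))) n m k S := by
    cases ra
    · simpa using main_ofF HDL.m_BETA HDL.m_ALPHA HDL.m_GAD2 n hn m hnm hmn k S hk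
    · simpa using main_ofT HDL.m_BETA HDL.m_ALPHA (HLL.m_PAD2 HLL.m_PAD1) n hn m hnm hmn k S hk
  obtain ⟨e, he, hlow, hall⟩ := hb
  refine ⟨e, he, hlow, fun v hv => ?_⟩
  obtain ⟨d, hd, hGH, hmain⟩ := hall v hv
  refine ⟨d, hd, hGH, fun f hf D hD hD' T Q Ω _ _ μ _ hQ M hdt hT => ?_⟩
  rcases Nat.eq_zero_or_pos D with h0 | h0
  · -- the distance 0
    have hn1 : (1 : ℝ) ≤ n := by
      have : 1 ≤ n := by omega
      exact_mod_cast this
    have hm1 : (1 : ℝ) ≤ m := by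
      have : 1 ≤ m := by omega
      exact_mod_cast this
    have hl1 : 1 ≤ Real.log n := by
      rw [Real.le_log_iff_exp_le (by linarith)]
      have h1 := Real.exp_one_lt_d9
      have h2 : ((2 ^ 20 : ℕ) : ℝ) ≤ n := by exact_mod_cast hn
      have h3 : (3 : ℝ) ≤ ((2 ^ 20 : ℕ) : ℝ) := by norm_num
      linarith
    have hkσ : (k : ℝ) ≤ S + k * Real.log n := by
      have h1 : (k : ℝ) ≤ k * Real.log n := le_mul_of_one_le_right (Nat.cast_nonneg k) hl1
      have h2 : (0 : ℝ) ≤ S := Nat.cast_nonneg S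
      linarith
    have hk0 : (0 : ℝ) ≤ k := Nat.cast_nonneg k
    have hσ0 : (0 : ℝ) ≤ S + k * Real.log n := by linarith
    have h1 := hmain f hf 1 le_rfl (by
      have h7 : (1 : ℝ) * (k : ℝ) ≤ n * (S + k * Real.log n) :=
        mul_le_mul hn1 hkσ hk0 (by linarith)
      push_cast
      linarith) (fun _ => by
      have h7 : (1 : ℝ) * (k : ℝ) ≤ m * (S + k * Real.log n) :=
        mul_le_mul hm1 hkσ hk0 (by linarith)
      push_cast
      linarith) T Q Ω μ hQ M hdt hT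
    refine le_trans ?_ h1
    rw [h0]
    exact mul_le_mul_of_nonneg_right (mul_le_mul_of_nonneg_left (hf.2.1 (Nat.zero_le 1))
      (by positivity)) (Real.exp_pos _).le
  · exact hmain f hf D h0 hD hD' T Q Ω μ hQ M hdt hT

end Pool.Agent.HLP
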