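import Mathlib
import Pool.Agent.HDL.Defs

/-!
# Randomised machines with several heads on linked adjacency lists

The machines of `Pool.Agent.HDL.Defs` with the following cost of the steps. A head goes for free to the
old place of any head (heads can be copied) and, with random access to the lists (`ra = true`), to the
start of any list (and so to its end, the cell before the start of the next list, up to one move).
Moving a head by `D ≥ 1` cells from such a place costs `f D`; the cost of a step is the sum of the
costs of the moves of all heads, and at least `1`.
-/

open MeasureTheory Pool.Agent.HDL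

namespace Pool.Agent.HLP

/-- The places to which the heads may always go for free: none if `ra = false`; the starts of the lists
if `ra = true` (random access to the lists). The list of `w` begins with cell number `∑ u < w, d u`. -/
def places {n : ℕ} (ra : Bool) (d : Fin n → ℕ) : Set ℕ :=
  {a | ra = true ∧ ∃ w : Fin n, a = ∑ u ∈ Finset.univ.filter (fun u => u < w), d u}

/-- The distance (number of cells) of cell number `p` from the free places in the configuration `c`:
the places of the heads and the places in `A`. -/
noncomputable def dist {L k : ℕ} {Q : Type} (A : Set ℕ) (c : Conf L k Q) (p : ℕ) : ℕ :=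
  sInf {D | (∃ h, p ≤ c.2 h + D ∧ (c.2 h : ℕ) ≤ p + D) ∨ ∃ a ∈ A, p ≤ a + D ∧ a ≤ p + D}

/-- The cost of moving a head by `D` cells from a free place. -/
noncomputable def moveCost (f : ℕ → ℝ) (D : ℕ) : ℝ := if D = 0 then 0 else f D

/-- The cost of step `t`: the sum of the costs of the moves of all heads, and at least `1`; nothing if
the machine has answered before. -/
noncomputable def cost {L k : ℕ} {W Q Ω : Type} (M : Machine L k W Q Ω) (A : Set ℕ) (f : ℕ → ℝ)
    (ω : Ω) (tape : Fin L → W) (t : ℕ) : ℝ :=
  if (M.answer (M.run ω tape t)).isSome then 0
  else max 1 (∑ h, moveCost f (dist A (M.run ω tape t) ((M.run ω tape (t + 1)).2 h)))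

/-- The expected cost of `M` is at most `T` on every graph with degrees `d`: the expected cost of the
steps before time `m` is at most `T` for every `m`. -/
def ExpectedCostLE {n : ℕ} {d : Fin n → ℕ} {k : ℕ} {Q Ω : Type} [MeasurableSpace Ω]
    (M : LMachine d k Q Ω) (μ : Measure Ω) (ra : Bool) (f : ℕ → ℝ) (T : ℝ) : Prop :=
  ∀ G : SimpleGraph (Fin n), HasDegrees G d → ∀ m : ℕ,
    ∑ t ∈ Finset.range m, ∫ ω, cost M (places ra d) f ω (tape d G) t ∂μ ≤ T

end Pool.Agent.HLP
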