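import Mathlib
import Pool.Agent.HDL.Avg
import Pool.Agent.HLP.Defs

/-!
# Blocks and the protocol of the two players
-/

set_option linter.unusedSectionVars false

namespace Pool.Agent.HLP

open Finset
open Pool.Agent.HDL (Machine Conf Lay Dat dat dat_eq dat_ne)

section Block

/-- first place of the block of the place `p`; `l` is the length of the blocks, `θ` the shift -/
def cen (l θ p : ℕ) : ℕ := (p + θ) / l * l - θ

lemma cen_le (l θ p : ℕ) : cen l θ p ≤ p := by
  unfold cen
  have := Nat.div_mul_le_self (p + θ) l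
  omega

lemma lt_cen_add {l : ℕ} (hl : 0 < l) (θ p : ℕ) : p < cen l θ p + l := by
  unfold cen
  have := Nat.lt_div_mul_add (a := p + θ) hl
  omega

/-- first cell of the block of the cell `p` -/
def ctr {Lt : ℕ} (l θ : ℕ) (p : Fin Lt) : Fin Lt := ⟨cen l θ p, (cen_le l θ p).trans_lt p.2⟩

lemma cen_close {l : ℕ} (hl : 0 < l) {θ p q : ℕ} (h : cen l θ p = cen l θ q) :
    p < q + l ∧ q < p + l := by
  have h1 := cen_le l θ p
  have h2 := cen_le l θ q
  have h3 := lt_cen_add hl θ p
  have h4 := lt_cen_add hl θ q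
  omega

lemma ctr_close {Lt l : ℕ} (hl : 0 < l) {θ : ℕ} {p c : Fin Lt} (h : ctr l θ p = c) :
    (p : ℕ) ≤ c + l ∧ (c : ℕ) ≤ p + l := by
  have h1 := cen_le l θ p
  have h3 := lt_cen_add hl θ p
  have h5 : cen l θ p = c := by
    rw [← h]
    rfl
  omega

end Block

section Proto

variable {Lt k : ℕ} {W K E C Q Ω : Type} [DecidableEq K] (M : Machine Lt k W Q Ω) (ω : Ω)
  (L : Lay Lt W K E C) (θ : ℕ)

/-- the block `c` contains a bit of the second player for the core `κ` -/
def nearb (κ : K) (c : Fin Lt) : Prop := ∃ p e, L.adr p = some (κ, e, true) ∧ ctr L.len θ p = c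

/-- some head is in a block with a bit of the second player for the core `κ` -/
def mode (κ : K) (c : Conf Lt k Q) : Prop := ∃ h, nearb L θ κ (ctr L.len θ (c.2 h))

/-- the head `h` of `c'` is in a block with data in which there is no head of `c` -/
def newb (c c' : Conf Lt k Q) (h : Fin k) : Prop :=
  (∀ h', ctr L.len θ (c'.2 h) ≠ ctr L.len θ (c.2 h')) ∧
    ∃ p, L.adr p ≠ none ∧ ctr L.len θ p = ctr L.len θ (c'.2 h)

open Classical in
/-- the bits of the first player for the core `κ` near the cell `c` -/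
noncomputable def bitsAt (κ : K) (x : E → Bool) (c : Fin Lt) : Fin (3 * L.b0) → Bool :=
  fun i => decide (∃ p e, p ∈ L.bset κ c ∧ L.adr p = some (κ, e, false) ∧ L.en κ c p = i ∧
    x e = true)

variable {L θ}

lemma bitsAt_spec (κ : K) (x : E → Bool) (c p : Fin Lt) (e : E) (h1 : (p : ℕ) ≤ c + L.len)
    (h2 : (c : ℕ) ≤ p + L.len) (h3 : L.adr p = some (κ, e, false)) :
    bitsAt L κ x c (L.en κ c p) = x e := by
  have hp : p ∈ L.bset κ c := by
    classical
    unfold Lay.bset
    exact Finset.mem_filter.2 ⟨Finset.mem_univ _, ⟨h1, h2⟩, e, h3⟩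
  have key : bitsAt L κ x c (L.en κ c p) = true ↔ x e = true := by
    unfold bitsAt
    simp only [decide_eq_true_eq]
    constructor
    · rintro ⟨p', e', hp', ha', hen, hx⟩
      have h4 : p' = p := L.en_inj κ c hp' hp hen
      rw [h4, h3] at ha'
      simp only [Option.some.injEq, Prod.mk.injEq, true_and, and_true] at ha'
      rw [ha']
      exact hx
    · intro hx
      exact ⟨p, e, hp, h3, rfl, hx⟩
  cases hx : x e
  · cases hb : bitsAt L κ x c (L.en κ c p)
    · rfl
    · rw [hb, hx] at key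
      exact absurd (key.1 rfl) (by decide)
  · rw [hx] at key
    exact key.2 rfl

lemma bitsAt_agree {κ : K} {x x' : E → Bool} {c : Fin Lt} (h : bitsAt L κ x c = bitsAt L κ x' c)
    {p : Fin Lt} {e : E} (hp : L.adr p = some (κ, e, false)) (hc : ctr L.len θ p = c) :
    x e = x' e := by
  obtain ⟨h1, h2⟩ := ctr_close L.hlen hc
  rw [← bitsAt_spec κ x c p e h1 h2 hp, ← bitsAt_spec κ x' c p e h1 h2 hp, h]

variable (L θ)

/-- full messages: the configuration and the bits of the first player near the heads -/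
abbrev Full (k : ℕ) (Q : Type) : Type := Conf Lt k Q × (Fin k → Fin (3 * L.b0) → Bool)

/-- small messages: a new block and the bits of the first player there -/
abbrev Small : Type := Fin Lt × (Fin (3 * L.b0) → Bool)

/-- the second player acts before time `t` -/
def md (κ : K) (cs : ℕ → Conf Lt k Q) : ℕ → Prop
  | 0 => False
  | t + 1 => mode L θ κ (cs t)

open Classical in
/-- the full message at time `t` -/
noncomputable def PF (κ : K) (x : E → Bool) (cs : ℕ → Conf Lt k Q) (t : ℕ) :
    Option (Full L k Q) :=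
  if (md L θ κ cs (t + 1) ↔ md L θ κ cs t) then none
  else some (cs t, fun h => bitsAt L κ x (ctr L.len θ ((cs t).2 h)))

open Classical in
/-- the small message at time `t` about the head `h` -/
noncomputable def PS (κ : K) (x : E → Bool) (cs : ℕ → Conf Lt k Q) : ℕ → Fin k →
    Option (Small L)
  | 0, _ => none
  | t + 1, h => if mode L θ κ (cs t) ∧ mode L θ κ (cs (t + 1)) ∧ newb L θ (cs t) (cs (t + 1)) h then
      some (ctr L.len θ ((cs (t + 1)).2 h), bitsAt L κ x (ctr L.len θ ((cs (t + 1)).2 h)))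
    else none

lemma PF_none {κ : K} {x : E → Bool} {cs : ℕ → Conf Lt k Q} {t : ℕ}
    (h : mode L θ κ (cs (t + 1)) ↔ mode L θ κ (cs t)) : PF L θ κ x cs (t + 1) = none := by
  unfold PF
  exact if_pos h

lemma PF_some {κ : K} {x : E → Bool} {cs : ℕ → Conf Lt k Q} {t : ℕ}
    (h : ¬ (mode L θ κ (cs (t + 1)) ↔ mode L θ κ (cs t))) : PF L θ κ x cs (t + 1) =
      some (cs (t + 1), fun h => bitsAt L κ x (ctr L.len θ ((cs (t + 1)).2 h))) := by
  unfold PF
  exact if_neg h

lemma PF_zero_some {κ : K} {x : E → Bool} {cs : ℕ → Conf Lt k Q} (h : mode L θ κ (cs 0)) :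
    PF L θ κ x cs 0 = some (cs 0, fun h => bitsAt L κ x (ctr L.len θ ((cs 0).2 h))) := by
  unfold PF
  exact if_neg (fun h' => h'.1 h)

lemma PS_some {κ : K} {x : E → Bool} {cs : ℕ → Conf Lt k Q} {t : ℕ} {h : Fin k}
    (h1 : mode L θ κ (cs t)) (h2 : mode L θ κ (cs (t + 1)))
    (h3 : newb L θ (cs t) (cs (t + 1)) h) : PS L θ κ x cs (t + 1) h =
      some (ctr L.len θ ((cs (t + 1)).2 h), bitsAt L κ x (ctr L.len θ ((cs (t + 1)).2 h))) :=
  if_pos ⟨h1, h2, h3⟩

lemma PS_none {κ : K} {x : E → Bool} {cs : ℕ → Conf Lt k Q} {t : ℕ} {h : Fin k}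
    (h1 : ¬ (mode L θ κ (cs t) ∧ mode L θ κ (cs (t + 1)) ∧ newb L θ (cs t) (cs (t + 1)) h)) :
    PS L θ κ x cs (t + 1) h = none := if_neg h1

lemma PF_eq_some {κ : K} {x : E → Bool} {cs : ℕ → Conf Lt k Q} {t : ℕ} {v : Full L k Q}
    (h : PF L θ κ x cs (t + 1) = some v) :
    ¬ (mode L θ κ (cs (t + 1)) ↔ mode L θ κ (cs t)) ∧
      v = (cs (t + 1), fun h => bitsAt L κ x (ctr L.len θ ((cs (t + 1)).2 h))) := by
  by_cases h1 : mode L θ κ (cs (t + 1)) ↔ mode L θ κ (cs t)
  · rw [PF_none L θ h1] at h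
    exact absurd h (by simp)
  · rw [PF_some L θ h1] at h
    exact ⟨h1, (Option.some.inj h).symm⟩

lemma PS_eq_some {κ : K} {x : E → Bool} {cs : ℕ → Conf Lt k Q} {t : ℕ} {h : Fin k} {v : Small L}
    (h1 : PS L θ κ x cs (t + 1) h = some v) :
    (mode L θ κ (cs t) ∧ mode L θ κ (cs (t + 1)) ∧ newb L θ (cs t) (cs (t + 1)) h) ∧
      v = (ctr L.len θ ((cs (t + 1)).2 h), bitsAt L κ x (ctr L.len θ ((cs (t + 1)).2 h))) := by
  by_cases h2 : mode L θ κ (cs t) ∧ mode L θ κ (cs (t + 1)) ∧ newb L θ (cs t) (cs (t + 1)) h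
  · rw [PS_some L θ h2.1 h2.2.1 h2.2.2] at h1
    exact ⟨h2, (Option.some.inj h1).symm⟩
  · rw [PS_none L θ h2] at h1
    exact absurd h1 (by simp)

/-- the run of the machine -/
def rr (F : Dat K E) (κ : K) (x y : E → Bool) (t : ℕ) : Conf Lt k Q :=
  M.run ω (L.cont (dat F κ x y)) t

/-- the runs on `(x, y)`, `(x', y')` and `(x, y')` fit together at time `t` -/
structure Agr (F : Dat K E) (κ : K) (x y x' y' : E → Bool) (t : ℕ) : Prop where
  same : mode L θ κ (rr M ω L F κ x y t) ↔ mode L θ κ (rr M ω L F κ x' y' t)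
  alice : ¬ mode L θ κ (rr M ω L F κ x y t) → rr M ω L F κ x y' t = rr M ω L F κ x y t
  bob : mode L θ κ (rr M ω L F κ x y t) → rr M ω L F κ x y' t = rr M ω L F κ x' y' t
  bits : mode L θ κ (rr M ω L F κ x y t) → ∀ h p e, L.adr p = some (κ, e, false) →
    ctr L.len θ p = ctr L.len θ ((rr M ω L F κ x' y' t).2 h) → x e = x' e

variable {M ω L θ}

lemma run_congr {G G' : Fin Lt → W} {t : ℕ} (h : M.run ω G' t = M.run ω G t)
    (hG : ∀ i, G' ((M.run ω G t).2 i) = G ((M.run ω G t).2 i)) :
    M.run ω G' (t + 1) = M.run ω G (t + 1) := by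
  show (if (M.answer (M.run ω G' t)).isSome then M.run ω G' t
    else M.step ω t (M.run ω G' t) (fun i => G' ((M.run ω G' t).2 i))) =
    (if (M.answer (M.run ω G t)).isSome then M.run ω G t
    else M.step ω t (M.run ω G t) (fun i => G ((M.run ω G t).2 i)))
  rw [h]
  have : (fun i => G' ((M.run ω G t).2 i)) = fun i => G ((M.run ω G t).2 i) := funext hG
  rw [this]

lemma agr_zero {F : Dat K E} {κ : K} {x y x' y' : E → Bool}
    (hF : PF L θ κ x (rr M ω L F κ x y) 0 = PF L θ κ x' (rr M ω L F κ x' y') 0) :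
    Agr M ω L θ F κ x y x' y' 0 := by
  refine ⟨Iff.rfl, fun _ => rfl, fun _ => rfl, ?_⟩
  intro hm h p e hp hc
  have hm' : mode L θ κ (rr M ω L F κ x' y' 0) := hm
  rw [PF_zero_some L θ hm, PF_zero_some L θ hm'] at hF
  have h3 := congrArg Prod.snd (Option.some.inj hF)
  have h4 := congrFun h3 h
  exact bitsAt_agree h4 hp hc

lemma agr_succ {F : Dat K E} {κ : K} {x y x' y' : E → Bool} {t : ℕ}
    (ha : Agr M ω L θ F κ x y x' y' t)
    (hF : PF L θ κ x (rr M ω L F κ x y) (t + 1) = PF L θ κ x' (rr M ω L F κ x' y') (t + 1))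
    (hS : ∀ h, PS L θ κ x (rr M ω L F κ x y) (t + 1) h =
      PS L θ κ x' (rr M ω L F κ x' y') (t + 1) h) :
    Agr M ω L θ F κ x y x' y' (t + 1) := by
  obtain ⟨same, alice, bob, bits⟩ := ha
  by_cases hm : mode L θ κ (rr M ω L F κ x y t)
  · -- the second player acts
    have hm' := same.1 hm
    have hnext : rr M ω L F κ x y' (t + 1) = rr M ω L F κ x' y' (t + 1) := by
      refine run_congr (bob hm) fun i => ?_
      apply L.congr
      · intro κ' e he
        by_cases hne : κ' = κ
        · subst hne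
          rw [dat_eq, dat_eq]
          exact bits hm i _ e he rfl
        · rw [dat_ne F _ _ hne, dat_ne F _ _ hne]
      · intro κ' e _
        by_cases hne : κ' = κ
        · subst hne
          rw [dat_eq, dat_eq]
        · rw [dat_ne F _ _ hne, dat_ne F _ _ hne]
    by_cases hn : mode L θ κ (rr M ω L F κ x y (t + 1))
    · -- and goes on
      have e1 : PF L θ κ x (rr M ω L F κ x y) (t + 1) = none :=
        PF_none L θ ⟨fun _ => hm, fun _ => hn⟩
      have hn' : mode L θ κ (rr M ω L F κ x' y' (t + 1)) := by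
        by_contra hcon
        rw [e1, PF_some L θ (fun h => hcon (h.2 hm'))] at hF
        exact absurd hF (by simp)
      refine ⟨⟨fun _ => hn', fun _ => hn⟩, fun h => absurd hn h, fun _ => hnext, ?_⟩
      intro _ h p e hp hc
      have hSh := hS h
      by_cases hnew : newb L θ (rr M ω L F κ x' y' t) (rr M ω L F κ x' y' (t + 1)) h
      · rw [PS_some L θ hm' hn' hnew] at hSh
        have h3 := (PS_eq_some L θ hSh).2
        have h4 := congrArg Prod.fst h3
        have h5 := congrArg Prod.snd h3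
        simp only at h4 h5
        rw [← h4] at h5
        exact (bitsAt_agree h5 hp hc).symm
      · -- the block is not new
        unfold newb at hnew
        rw [not_and_or] at hnew
        rcases hnew with hnew | hnew
        · push Not at hnew
          obtain ⟨h', hh'⟩ := hnew
          exact bits hm h' p e hp (hc.trans hh')
        · exact absurd ⟨p, by rw [hp]; simp, hc⟩ hnew
    · -- and stops
      rw [PF_some L θ (fun h => hn (h.2 hm))] at hF
      obtain ⟨h1, h3⟩ := PF_eq_some L θ hF.symm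
      have h2 : ¬ mode L θ κ (rr M ω L F κ x' y' (t + 1)) := fun h => h1 ⟨fun _ => hm', fun _ => h⟩
      have h3 := congrArg Prod.fst h3
      simp only at h3
      refine ⟨⟨fun h => absurd h hn, fun h => absurd h h2⟩, fun _ => hnext.trans h3.symm,
        fun h => absurd h hn, fun h => absurd h hn⟩
  · -- the first player acts
    have hm' : ¬ mode L θ κ (rr M ω L F κ x' y' t) := fun h => hm (same.2 h)
    have hnext : rr M ω L F κ x y' (t + 1) = rr M ω L F κ x y (t + 1) := by
      refine run_congr (alice hm) fun i => ?_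
      apply L.congr
      · intro κ' e _
        by_cases hne : κ' = κ
        · subst hne
          rw [dat_eq, dat_eq]
        · rw [dat_ne F _ _ hne, dat_ne F _ _ hne]
      · intro κ' e he
        by_cases hne : κ' = κ
        · exfalso
          subst hne
          exact hm ⟨i, _, e, he, rfl⟩
        · rw [dat_ne F _ _ hne, dat_ne F _ _ hne]
    by_cases hn : mode L θ κ (rr M ω L F κ x y (t + 1))
    · rw [PF_some L θ (fun h => hm (h.1 hn))] at hF
      obtain ⟨h1, h3⟩ := PF_eq_some L θ hF.symm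
      have h2 : mode L θ κ (rr M ω L F κ x' y' (t + 1)) := by
        by_contra hcon
        exact h1 ⟨fun h => absurd h hcon, fun h => absurd h hm'⟩
      have h4 := congrArg Prod.fst h3
      have h5 := congrArg Prod.snd h3
      simp only at h4 h5
      refine ⟨⟨fun _ => h2, fun _ => hn⟩, fun h => absurd hn h, fun _ => hnext.trans h4, ?_⟩
      intro _ h p e hp hc
      have h6 := congrFun h5 h
      rw [h4] at h6
      exact bitsAt_agree h6 hp hc
    · have e1 : PF L θ κ x (rr M ω L F κ x y) (t + 1) = none :=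
        PF_none L θ ⟨fun h => absurd h hn, fun h => absurd h hm⟩
      have h2 : ¬ mode L θ κ (rr M ω L F κ x' y' (t + 1)) := by
        intro hcon
        rw [e1, PF_some L θ (fun h => hm' (h.1 hcon))] at hF
        exact absurd hF (by simp)
      exact ⟨⟨fun h => absurd h hn, fun h => absurd h h2⟩, fun _ => hnext, fun h => absurd h hn,
        fun h => absurd h hn⟩

end Proto

end Pool.Agent.HLP
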