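import Mathlib
import Pool.Agent.HLP.Proto

/-!
# Transcripts
-/

set_option linter.unusedSectionVars false

namespace Pool.Agent.HLP

open Finset
open Pool.Agent.HDL (Machine Conf Lay Dat dat dat_eq dat_ne)

/-- functions with few values different from `none` -/
lemma card_few {α β : Type} [Fintype α] [DecidableEq α] [Fintype β] [DecidableEq β] (R : ℕ) :
    Fintype.card {P : α → Option β // (univ.filter fun a => P a ≠ none).card ≤ R} ≤
      (Fintype.card α * Fintype.card β + 1) ^ R := by
  classical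
  have key : ∀ P : {P : α → Option β // (univ.filter fun a => P a ≠ none).card ≤ R},
      ∃ g : Fin R → Option (α × β), ∀ a b, P.1 a = some b ↔ ∃ i, g i = some (a, b) := by
    rintro ⟨P, hP⟩
    have h1 : Fintype.card (univ.filter fun a => P a ≠ none) ≤ Fintype.card (Fin R) := by
      rw [Fintype.card_coe, Fintype.card_fin]
      exact hP
    obtain ⟨e⟩ := Function.Embedding.nonempty_of_card_le h1
    refine ⟨fun i => if h : ∃ a : (univ.filter fun a => P a ≠ none), e a = i then
      (P h.choose.1).map fun b => (h.choose.1, b) else none, ?_⟩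
    intro a b
    constructor
    · intro hab
      have hab' : P a = some b := hab
      have ha : a ∈ univ.filter fun a => P a ≠ none := by
        rw [mem_filter]
        exact ⟨mem_univ _, by rw [hab']; simp⟩
      refine ⟨e ⟨a, ha⟩, ?_⟩
      have hex : ∃ a' : (univ.filter fun a => P a ≠ none), e a' = e ⟨a, ha⟩ := ⟨⟨a, ha⟩, rfl⟩
      have h2 : hex.choose = ⟨a, ha⟩ := e.injective hex.choose_spec
      simp only [dif_pos hex, h2]
      rw [hab']
      rfl
    · rintro ⟨i, hi⟩
      simp only at hi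
      split_ifs at hi with hex
      rw [Option.map_eq_some_iff] at hi
      obtain ⟨b', hb', hab⟩ := hi
      rw [Prod.mk.injEq] at hab
      rw [← hab.1, ← hab.2]
      exact hb'
  choose g hg using key
  have hinj : Function.Injective g := by
    intro P P' h
    apply Subtype.ext
    funext a
    apply Option.ext
    intro b
    rw [hg P a b, hg P' a b, h]
  refine (Fintype.card_le_of_injective g hinj).trans (le_of_eq ?_)
  rw [Fintype.card_fun, Fintype.card_option, Fintype.card_prod, Fintype.card_fin]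

section Trans

variable {Lt k : ℕ} {W K E C Q Ω : Type} [DecidableEq K] {M : Machine Lt k W Q Ω} {ω : Ω}
  {L : Lay Lt W K E C} {θ : ℕ}

variable (L θ) in
/-- the messages before time `t` are the same -/
def Eqm (κ : K) (x x' : E → Bool) (cs cs' : ℕ → Conf Lt k Q) (t : ℕ) : Prop :=
  ∀ i < t, PF L θ κ x cs i = PF L θ κ x' cs' i ∧ ∀ h, PS L θ κ x cs i h = PS L θ κ x' cs' i h

lemma msg_succ {F : Dat K E} {κ : K} {x y x' y' : E → Bool} {t : ℕ}
    (ha : Agr M ω L θ F κ x y x' y' t) (hb : Agr M ω L θ F κ x y x' y' (t + 1))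
    (hF : PF L θ κ x (rr M ω L F κ x y) (t + 1) = PF L θ κ x' (rr M ω L F κ x' y') (t + 1))
    (hS : ∀ h, PS L θ κ x (rr M ω L F κ x y) (t + 1) h =
      PS L θ κ x' (rr M ω L F κ x' y') (t + 1) h) :
    PF L θ κ x (rr M ω L F κ x y') (t + 1) = PF L θ κ x (rr M ω L F κ x y) (t + 1) ∧
      ∀ h, PS L θ κ x (rr M ω L F κ x y') (t + 1) h = PS L θ κ x (rr M ω L F κ x y) (t + 1) h := by
  have sm : ∀ s, Agr M ω L θ F κ x y x' y' s →
      (mode L θ κ (rr M ω L F κ x y' s) ↔ mode L θ κ (rr M ω L F κ x y s)) := by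
    intro s hs
    by_cases h : mode L θ κ (rr M ω L F κ x y s)
    · rw [hs.bob h]
      exact hs.same.symm
    · rw [hs.alice h]
  have s1 := sm t ha
  have s2 := sm (t + 1) hb
  constructor
  · by_cases h1 : mode L θ κ (rr M ω L F κ x y (t + 1)) ↔ mode L θ κ (rr M ω L F κ x y t)
    · rw [PF_none L θ h1, PF_none L θ (by rw [s1, s2]; exact h1)]
    · have h2 : rr M ω L F κ x y' (t + 1) = rr M ω L F κ x y (t + 1) := by
        rw [PF_some L θ h1] at hF
        have h3 := congrArg Prod.fst (PF_eq_some L θ hF.symm).2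
        simp only at h3
        by_cases h4 : mode L θ κ (rr M ω L F κ x y (t + 1))
        · rw [hb.bob h4, h3]
        · exact hb.alice h4
      rw [PF_some L θ h1, PF_some L θ (by rw [s1, s2]; exact h1), h2]
  · intro h
    have hSh := hS h
    by_cases h1 : mode L θ κ (rr M ω L F κ x y t) ∧ mode L θ κ (rr M ω L F κ x y (t + 1))
    · have e1 := ha.bob h1.1
      have e2 := hb.bob h1.2
      by_cases h3 : newb L θ (rr M ω L F κ x' y' t) (rr M ω L F κ x' y' (t + 1)) h
      · rw [PS_some L θ (ha.same.1 h1.1) (hb.same.1 h1.2) h3] at hSh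
        obtain ⟨h4, h5⟩ := PS_eq_some L θ hSh
        have h6 := congrArg Prod.fst h5
        simp only at h6
        rw [PS_some L θ h4.1 h4.2.1 h4.2.2,
          PS_some L θ (s1.2 h1.1) (s2.2 h1.2) (by rw [e1, e2]; exact h3), e2, h6]
      · rw [PS_none L θ (fun h4 => h3 h4.2.2)] at hSh
        rw [hSh]
        apply PS_none L θ
        rw [e1, e2]
        exact fun h4 => h3 h4.2.2
    · rw [PS_none L θ (fun h4 => h1 ⟨h4.1, h4.2.1⟩), PS_none L θ]
      rw [s1, s2]
      exact fun h4 => h1 ⟨h4.1, h4.2.1⟩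

lemma cut {F : Dat K E} {κ : K} {x y x' y' : E → Bool} (t : ℕ)
    (h : Eqm L θ κ x x' (rr M ω L F κ x y) (rr M ω L F κ x' y') (t + 1)) :
    Agr M ω L θ F κ x y x' y' t ∧
      Eqm L θ κ x x (rr M ω L F κ x y') (rr M ω L F κ x y) (t + 1) := by
  induction t with
  | zero =>
    refine ⟨agr_zero (h 0 (by omega)).1, ?_⟩
    intro i hi
    have : i = 0 := by omega
    subst this
    exact ⟨rfl, fun _ => rfl⟩
  | succ t ih =>
    obtain ⟨h1, h2⟩ := ih (fun i hi => h i (by omega))
    obtain ⟨hF, hS⟩ := h (t + 1) (by omega)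
    have h3 := agr_succ h1 hF hS
    refine ⟨h3, ?_⟩
    intro i hi
    rcases Nat.lt_or_ge i (t + 1) with h4 | h4
    · exact h2 i h4
    · have : i = t + 1 := by omega
      subst this
      exact msg_succ h1 h3 hF hS

open Classical in
variable (L θ) in
/-- number of full messages before time `t` -/
noncomputable def cF (κ : K) (x : E → Bool) (cs : ℕ → Conf Lt k Q) (t : ℕ) : ℕ :=
  ((range t).filter fun i => PF L θ κ x cs i ≠ none).card

open Classical in
variable (L θ) in
/-- number of small messages before time `t` -/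
noncomputable def cS (κ : K) (x : E → Bool) (cs : ℕ → Conf Lt k Q) (t : ℕ) : ℕ :=
  ((range t ×ˢ (univ : Finset (Fin k))).filter fun p => PS L θ κ x cs p.1 p.2 ≠ none).card

variable (L θ) in
/-- there are not too many messages before time `t` -/
def keep (R1 R2 : ℕ) (κ : K) (x : E → Bool) (cs : ℕ → Conf Lt k Q) (t : ℕ) : Prop :=
  cF L θ κ x cs t ≤ R1 ∧ cS L θ κ x cs t ≤ R2

lemma keep_zero (R1 R2 : ℕ) (κ : K) (x : E → Bool) (cs : ℕ → Conf Lt k Q) :
    keep L θ R1 R2 κ x cs 0 := by
  unfold keep cF cS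
  simp

lemma keep_mono {R1 R2 : ℕ} {κ : K} {x : E → Bool} {cs : ℕ → Conf Lt k Q} {s t : ℕ} (hst : s ≤ t)
    (h : keep L θ R1 R2 κ x cs t) : keep L θ R1 R2 κ x cs s := by
  classical
  constructor
  · refine le_trans (Finset.card_le_card ?_) h.1
    exact Finset.filter_subset_filter _ (Finset.range_subset_range.2 hst)
  · refine le_trans (Finset.card_le_card ?_) h.2
    exact Finset.filter_subset_filter _
      (Finset.product_subset_product_left (Finset.range_subset_range.2 hst))

lemma keep_congr {R1 R2 : ℕ} {κ : K} {x x' : E → Bool} {cs cs' : ℕ → Conf Lt k Q} {t : ℕ}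
    (h : Eqm L θ κ x x' cs cs' t) :
    keep L θ R1 R2 κ x cs t ↔ keep L θ R1 R2 κ x' cs' t := by
  classical
  have h1 : cF L θ κ x cs t = cF L θ κ x' cs' t := by
    unfold cF
    congr 1
    apply Finset.filter_congr
    intro i hi
    rw [(h i (mem_range.1 hi)).1]
  have h2 : cS L θ κ x cs t = cS L θ κ x' cs' t := by
    unfold cS
    congr 1
    apply Finset.filter_congr
    intro p hp
    rw [(h p.1 (mem_range.1 (mem_product.1 hp).1)).2]
  unfold keep
  rw [h1, h2]

open Classical in
variable (L θ) in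
/-- full messages that are kept -/
noncomputable def kF (R1 R2 H : ℕ) (κ : K) (x : E → Bool) (cs : ℕ → Conf Lt k Q) :
    Fin (H + 1) → Option (Full L k Q) :=
  fun t => if keep L θ R1 R2 κ x cs t then PF L θ κ x cs t else none

open Classical in
variable (L θ) in
/-- small messages that are kept -/
noncomputable def kS (R1 R2 H : ℕ) (κ : K) (x : E → Bool) (cs : ℕ → Conf Lt k Q) :
    Fin (H + 1) × Fin k → Option (Small L) :=
  fun p => if keep L θ R1 R2 κ x cs p.1 then PS L θ κ x cs p.1 p.2 else none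

lemma kF_few (R1 R2 H : ℕ) (κ : K) (x : E → Bool) (cs : ℕ → Conf Lt k Q) : open Classical in
    (univ.filter fun t => kF L θ R1 R2 H κ x cs t ≠ none).card ≤ R1 + 1 := by
  classical
  set S := univ.filter fun t => kF L θ R1 R2 H κ x cs t ≠ none with hS
  rcases S.eq_empty_or_nonempty with h0 | h0
  · rw [h0]
    simp
  set t0 := S.max' h0 with ht0
  have ht0S : t0 ∈ S := S.max'_mem h0
  have hmem : ∀ t ∈ S, keep L θ R1 R2 κ x cs t ∧ PF L θ κ x cs t ≠ none := by
    intro t ht
    rw [hS, mem_filter] at ht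
    have h1 := ht.2
    unfold kF at h1
    split_ifs at h1 with h2
    · exact ⟨h2, h1⟩
    · exact absurd rfl h1
  have h1 := (hmem t0 ht0S).1.1
  have h2 : (S.erase t0).card ≤ cF L θ κ x cs t0 := by
    unfold cF
    refine Finset.card_le_card_of_injOn (fun t => (t : ℕ)) ?_ ?_
    · intro t ht
      rw [Finset.mem_coe, Finset.mem_erase] at ht
      rw [Finset.mem_coe, mem_filter, mem_range]
      have h3 : t ≤ t0 := S.le_max' t ht.2
      exact ⟨Fin.lt_def.1 (lt_of_le_of_ne h3 ht.1), (hmem t ht.2).2⟩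
    · intro t _ t' _ htt
      exact Fin.ext htt
  rw [Finset.card_erase_of_mem ht0S] at h2
  omega

lemma kS_few (R1 R2 H : ℕ) (κ : K) (x : E → Bool) (cs : ℕ → Conf Lt k Q) : open Classical in
    (univ.filter fun p => kS L θ R1 R2 H κ x cs p ≠ none).card ≤ R2 + k := by
  classical
  set S := univ.filter fun p => kS L θ R1 R2 H κ x cs p ≠ none with hS
  rcases S.eq_empty_or_nonempty with h0 | h0
  · rw [h0]
    simp
  have h0' : (S.image Prod.fst).Nonempty := h0.image _
  set t0 := (S.image Prod.fst).max' h0' with ht0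
  have ht0S : t0 ∈ S.image Prod.fst := Finset.max'_mem _ _
  have hmem : ∀ p ∈ S, keep L θ R1 R2 κ x cs p.1 ∧ PS L θ κ x cs p.1 p.2 ≠ none := by
    intro p hp
    rw [hS, mem_filter] at hp
    have h1 := hp.2
    unfold kS at h1
    split_ifs at h1 with h2
    · exact ⟨h2, h1⟩
    · exact absurd rfl h1
  obtain ⟨p0, hp0, hp0'⟩ := Finset.mem_image.1 ht0S
  have h1 := (hmem p0 hp0).1.2
  rw [hp0'] at h1
  have h2 : S ⊆ S.filter (fun p => p.1 < t0) ∪ ({t0} ×ˢ (univ : Finset (Fin k))) := by
    intro p hp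
    rw [mem_union]
    have h3 : p.1 ≤ t0 := Finset.le_max' _ _ (Finset.mem_image_of_mem _ hp)
    rcases h3.lt_or_eq with h4 | h4
    · exact Or.inl (mem_filter.2 ⟨hp, h4⟩)
    · right
      rw [mem_product]
      exact ⟨by rw [h4]; simp, mem_univ _⟩
  have h3 : (S.filter (fun p => p.1 < t0)).card ≤ cS L θ κ x cs t0 := by
    unfold cS
    refine Finset.card_le_card_of_injOn (fun p => ((p.1 : ℕ), p.2)) ?_ ?_
    · intro p hp
      rw [Finset.mem_coe, mem_filter] at hp
      rw [Finset.mem_coe, mem_filter, mem_product, mem_range]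
      exact ⟨⟨hp.2, mem_univ _⟩, (hmem p hp.1).2⟩
    · intro p _ p' _ hpp
      rw [Prod.mk.injEq] at hpp
      exact Prod.ext (Fin.ext hpp.1) hpp.2
  have h4 := Finset.card_le_card h2
  have h5 := Finset.card_union_le (S.filter (fun p => p.1 < t0)) ({t0} ×ˢ (univ : Finset (Fin k)))
  rw [Finset.card_product, Finset.card_singleton, Finset.card_univ, Fintype.card_fin, one_mul] at h5
  omega

variable (L) in
/-- transcripts -/
abbrev TT (k : ℕ) (Q : Type) (R1 R2 H : ℕ) : Type :=
  open Classical in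
  {P : Fin (H + 1) → Option (Full L k Q) // (univ.filter fun t => P t ≠ none).card ≤ R1 + 1} ×
  {P : Fin (H + 1) × Fin k → Option (Small L) // (univ.filter fun p => P p ≠ none).card ≤ R2 + k} ×
  Option (Option Bool)

open Classical in
variable (M ω L θ) in
/-- the transcript -/
noncomputable def tr (R1 R2 H : ℕ) (F : Dat K E) (κ : K) (x y : E → Bool) : TT L k Q R1 R2 H :=
  (⟨kF L θ R1 R2 H κ x (rr M ω L F κ x y), kF_few _ _ _ _ _ _⟩,
    ⟨kS L θ R1 R2 H κ x (rr M ω L F κ x y), kS_few _ _ _ _ _ _⟩,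
    if keep L θ R1 R2 κ x (rr M ω L F κ x y) (H + 1) then
      some (M.answer (rr M ω L F κ x y H)) else none)

lemma keep_eqm {R1 R2 H : ℕ} {F : Dat K E} {κ : K} {x y x' y' : E → Bool}
    (h : tr M ω L θ R1 R2 H F κ x y = tr M ω L θ R1 R2 H F κ x' y') :
    ∀ t ≤ H + 1, keep L θ R1 R2 κ x (rr M ω L F κ x y) t →
      Eqm L θ κ x x' (rr M ω L F κ x y) (rr M ω L F κ x' y') t ∧
        keep L θ R1 R2 κ x' (rr M ω L F κ x' y') t := by
  have hF : ∀ t : Fin (H + 1), kF L θ R1 R2 H κ x (rr M ω L F κ x y) t =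
      kF L θ R1 R2 H κ x' (rr M ω L F κ x' y') t :=
    congrFun (congrArg (fun T => T.1.1) h)
  have hS : ∀ p : Fin (H + 1) × Fin k, kS L θ R1 R2 H κ x (rr M ω L F κ x y) p =
      kS L θ R1 R2 H κ x' (rr M ω L F κ x' y') p :=
    congrFun (congrArg (fun T => T.2.1.1) h)
  intro t
  induction t with
  | zero => exact fun _ _ => ⟨fun i hi => by omega, keep_zero _ _ _ _ _⟩
  | succ t ih =>
    intro ht hk
    have hkt := keep_mono (Nat.le_succ t) hk
    obtain ⟨h1, h2⟩ := ih (by omega) hkt
    have h3 : Eqm L θ κ x x' (rr M ω L F κ x y) (rr M ω L F κ x' y') (t + 1) := by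
      intro i hi
      rcases Nat.lt_or_ge i t with h4 | h4
      · exact h1 i h4
      · have : i = t := by omega
        subst this
        constructor
        · have h5 := hF ⟨i, by omega⟩
          unfold kF at h5
          simp only at h5
          rw [if_pos hkt, if_pos h2] at h5
          exact h5
        · intro a
          have h5 := hS (⟨i, by omega⟩, a)
          unfold kS at h5
          simp only at h5
          rw [if_pos hkt, if_pos h2] at h5
          exact h5
    exact ⟨h3, (keep_congr h3).1 hk⟩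

/-- the messages at the time at which the transcript ends are the same, too -/
lemma keep_eqm_succ {R1 R2 H : ℕ} {F : Dat K E} {κ : K} {x y x' y' : E → Bool}
    (h : tr M ω L θ R1 R2 H F κ x y = tr M ω L θ R1 R2 H F κ x' y') (t : ℕ) (ht : t ≤ H)
    (hk : keep L θ R1 R2 κ x (rr M ω L F κ x y) t) :
      Eqm L θ κ x x' (rr M ω L F κ x y) (rr M ω L F κ x' y') (t + 1) := by
  have hF : ∀ t : Fin (H + 1), kF L θ R1 R2 H κ x (rr M ω L F κ x y) t =
      kF L θ R1 R2 H κ x' (rr M ω L F κ x' y') t :=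
    congrFun (congrArg (fun T => T.1.1) h)
  have hS : ∀ p : Fin (H + 1) × Fin k, kS L θ R1 R2 H κ x (rr M ω L F κ x y) p =
      kS L θ R1 R2 H κ x' (rr M ω L F κ x' y') p :=
    congrFun (congrArg (fun T => T.2.1.1) h)
  obtain ⟨h1, h2⟩ := keep_eqm h t (by omega) hk
  intro i hi
  rcases Nat.lt_or_ge i t with h4 | h4
  · exact h1 i h4
  · have : i = t := by omega
    subst this
    constructor
    · have h5 := hF ⟨i, by omega⟩
      unfold kF at h5
      simp only at h5
      rw [if_pos hk, if_pos h2] at h5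
      exact h5
    · intro a
      have h5 := hS (⟨i, by omega⟩, a)
      unfold kS at h5
      simp only at h5
      rw [if_pos hk, if_pos h2] at h5
      exact h5

theorem tr_cut {R1 R2 H : ℕ} {F : Dat K E} {κ : K} {x y x' y' : E → Bool}
    (h : tr M ω L θ R1 R2 H F κ x y = tr M ω L θ R1 R2 H F κ x' y') :
    tr M ω L θ R1 R2 H F κ x y' = tr M ω L θ R1 R2 H F κ x y := by
  -- the transcripts of `(x, y')` and `(x, y)` are of the same length
  have hkk : ∀ t ≤ H + 1, (keep L θ R1 R2 κ x (rr M ω L F κ x y') t ↔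
      keep L θ R1 R2 κ x (rr M ω L F κ x y) t) := by
    intro t
    induction t with
    | zero => exact fun _ => ⟨fun _ => keep_zero _ _ _ _ _, fun _ => keep_zero _ _ _ _ _⟩
    | succ t ih =>
      intro ht
      by_cases hk : keep L θ R1 R2 κ x (rr M ω L F κ x y) t
      · exact keep_congr (cut t (keep_eqm_succ h t (by omega) hk)).2
      · have hk' : ¬ keep L θ R1 R2 κ x (rr M ω L F κ x y') t := fun h' =>
          hk ((ih (by omega)).1 h')
        exact ⟨fun h' => absurd (keep_mono (Nat.le_succ t) h') hk',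
          fun h' => absurd (keep_mono (Nat.le_succ t) h') hk⟩
  have hmsg : ∀ t ≤ H, keep L θ R1 R2 κ x (rr M ω L F κ x y) t →
      PF L θ κ x (rr M ω L F κ x y') t = PF L θ κ x (rr M ω L F κ x y) t ∧
        ∀ a, PS L θ κ x (rr M ω L F κ x y') t a = PS L θ κ x (rr M ω L F κ x y) t a :=
    fun t ht hk => (cut t (keep_eqm_succ h t ht hk)).2 t (Nat.lt_succ_self t)
  have eF : kF L θ R1 R2 H κ x (rr M ω L F κ x y') = kF L θ R1 R2 H κ x (rr M ω L F κ x y) := by
    funext t
    have ht : (t : ℕ) ≤ H := by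
      have := t.2
      omega
    have h1 := hkk t (by omega)
    unfold kF
    by_cases hk : keep L θ R1 R2 κ x (rr M ω L F κ x y) t
    · rw [if_pos hk, if_pos (h1.2 hk), (hmsg t ht hk).1]
    · rw [if_neg hk, if_neg (fun h' => hk (h1.1 h'))]
  have eS : kS L θ R1 R2 H κ x (rr M ω L F κ x y') = kS L θ R1 R2 H κ x (rr M ω L F κ x y) := by
    funext p
    have ht : (p.1 : ℕ) ≤ H := by
      have := p.1.2
      omega
    have h1 := hkk p.1 (by omega)
    unfold kS
    by_cases hk : keep L θ R1 R2 κ x (rr M ω L F κ x y) p.1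
    · rw [if_pos hk, if_pos (h1.2 hk), (hmsg p.1 ht hk).2]
    · rw [if_neg hk, if_neg (fun h' => hk (h1.1 h'))]
  unfold tr
  refine Prod.ext (Subtype.ext eF) (Prod.ext (Subtype.ext eS) ?_)
  · have h1 := hkk (H + 1) le_rfl
    by_cases hk : keep L θ R1 R2 κ x (rr M ω L F κ x y) (H + 1)
    · have h2 := keep_eqm h (H + 1) le_rfl hk
      have h3 := cut H h2.1
      have h4 := congrArg (fun T => T.2.2) h
      unfold tr at h4
      simp only at h4
      rw [if_pos hk, if_pos h2.2] at h4
      simp only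
      rw [if_pos hk, if_pos (h1.2 hk)]
      by_cases hm : mode L θ κ (rr M ω L F κ x y H)
      · rw [h3.1.bob hm]
        exact h4.symm
      · rw [h3.1.alice hm]
    · simp only
      rw [if_neg hk, if_neg (fun h' => hk (h1.1 h'))]

theorem tr_rect (R1 R2 H : ℕ) (F : Dat K E) (κ : K) :
    ∃ A' B' : TT L k Q R1 R2 H → (E → Bool) → Prop,
      ∀ x y t, tr M ω L θ R1 R2 H F κ x y = t ↔ A' t x ∧ B' t y := by
  refine ⟨fun t x => ∃ y, tr M ω L θ R1 R2 H F κ x y = t,
    fun t y => ∃ x, tr M ω L θ R1 R2 H F κ x y = t, ?_⟩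
  intro x y t
  constructor
  · intro h
    exact ⟨⟨y, h⟩, ⟨x, h⟩⟩
  · rintro ⟨⟨y1, h1⟩, ⟨x1, h2⟩⟩
    rw [tr_cut (h1.trans h2.symm)]
    exact h1

/-- the answer according to a transcript is: no triangle -/
def noT {R1 R2 H : ℕ} (t : TT L k Q R1 R2 H) : Prop := t.2.2 = some (some false)

lemma no_sound {R1 R2 H : ℕ} {F : Dat K E} {κ : K} {x y : E → Bool}
    (h : noT (tr M ω L θ R1 R2 H F κ x y)) :
    M.answer (M.run ω (L.cont (dat F κ x y)) H) = some false := by
  unfold noT tr at h
  simp only at h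
  split_ifs at h
  exact Option.some.inj h

lemma no_complete {R1 R2 H : ℕ} {F : Dat K E} {κ : K} {x y : E → Bool}
    (h : M.answer (M.run ω (L.cont (dat F κ x y)) H) = some false)
    (hF : cF L θ κ x (rr M ω L F κ x y) (H + 1) ≤ R1)
    (hS : cS L θ κ x (rr M ω L F κ x y) (H + 1) ≤ R2) : noT (tr M ω L θ R1 R2 H F κ x y) := by
  unfold noT tr
  simp only
  rw [if_pos ⟨hF, hS⟩]
  exact congrArg some h

end Trans

end Pool.Agent.HLP
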