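import Mathlib
import Pool.Agent.HLP.Trans

/-!
# The number of messages
-/

set_option linter.unusedSectionVars false

namespace Pool.Agent.HLP

open Finset
open Pool.Agent.HDL (Machine Conf Lay Dat dat tp run_stable min_eq_sum)

lemma cross_card {l : ℕ} (hl : 0 < l) (p d : ℕ) :
    ((range l).filter fun θ => (p + θ) / l ≠ (p + d + θ) / l).card ≤ d := by
  classical
  induction d with
  | zero => simp
  | succ d ih =>
    have h1 : ((range l).filter fun θ => (p + θ) / l ≠ (p + (d + 1) + θ) / l) ⊆
        ((range l).filter fun θ => (p + θ) / l ≠ (p + d + θ) / l) ∪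
          ((range l).filter fun θ => (p + d + θ) / l ≠ (p + (d + 1) + θ) / l) := by
      intro θ hθ
      rw [mem_filter] at hθ
      rw [mem_union, mem_filter, mem_filter]
      by_cases h : (p + θ) / l = (p + d + θ) / l
      · right
        exact ⟨hθ.1, by rw [← h]; exact hθ.2⟩
      · left
        exact ⟨hθ.1, h⟩
    have h2 : ((range l).filter fun θ => (p + d + θ) / l ≠ (p + (d + 1) + θ) / l).card ≤ 1 := by
      rw [card_le_one]
      intro a ha b hb
      rw [mem_filter, mem_range] at ha hb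
      have key : ∀ θ, (p + d + θ) / l ≠ (p + (d + 1) + θ) / l → l ∣ p + d + θ + 1 := by
        intro θ h
        by_contra hcon
        apply h
        have e : p + (d + 1) + θ = p + d + θ + 1 := by ring
        rw [e, Nat.succ_div, if_neg hcon, add_zero]
      have ha' := key a ha.2
      have hb' := key b hb.2
      rcases le_total a b with hab | hab
      · have h3 : l ∣ (p + d + b + 1) - (p + d + a + 1) := Nat.dvd_sub hb' ha'
        have h4 : (p + d + b + 1) - (p + d + a + 1) = b - a := by omega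
        rw [h4] at h3
        rcases Nat.eq_zero_or_pos (b - a) with h5 | h5
        · omega
        · have := Nat.le_of_dvd h5 h3
          omega
      · have h3 : l ∣ (p + d + a + 1) - (p + d + b + 1) := Nat.dvd_sub ha' hb'
        have h4 : (p + d + a + 1) - (p + d + b + 1) = a - b := by omega
        rw [h4] at h3
        rcases Nat.eq_zero_or_pos (a - b) with h5 | h5
        · omega
        · have := Nat.le_of_dvd h5 h3
          omega
    have h3 := card_le_card h1
    have h4 := card_union_le ((range l).filter fun θ => (p + θ) / l ≠ (p + d + θ) / l)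
      ((range l).filter fun θ => (p + d + θ) / l ≠ (p + (d + 1) + θ) / l)
    omega

/-- two places at distance at most `D` are in different blocks for at most `D` shifts -/
lemma cen_card {l : ℕ} (hl : 0 < l) {p q D : ℕ} (h1 : p ≤ q + D) (h2 : q ≤ p + D) :
    ((range l).filter fun θ => cen l θ p ≠ cen l θ q).card ≤ D := by
  classical
  rcases le_total p q with h | h
  · obtain ⟨d, rfl⟩ := Nat.exists_eq_add_of_le h
    refine le_trans (card_le_card ?_) ((cross_card hl p d).trans (by omega))
    intro θ hθ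
    rw [mem_filter] at hθ ⊢
    refine ⟨hθ.1, fun h => hθ.2 ?_⟩
    unfold cen
    rw [h]
  · obtain ⟨d, rfl⟩ := Nat.exists_eq_add_of_le h
    refine le_trans (card_le_card ?_) ((cross_card hl q d).trans (by omega))
    intro θ hθ
    rw [mem_filter] at hθ ⊢
    refine ⟨hθ.1, fun h => hθ.2 ?_⟩
    unfold cen
    rw [h]

lemma dist_spec {L k : ℕ} {Q : Type} (A : Set ℕ) (c : Conf L k Q) (p : ℕ) (hk : 0 < k) :
    (∃ h, p ≤ c.2 h + dist A c p ∧ (c.2 h : ℕ) ≤ p + dist A c p) ∨
      ∃ a ∈ A, p ≤ a + dist A c p ∧ a ≤ p + dist A c p := by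
  have hne : {D | (∃ h, p ≤ c.2 h + D ∧ (c.2 h : ℕ) ≤ p + D) ∨
      ∃ a ∈ A, p ≤ a + D ∧ a ≤ p + D}.Nonempty :=
    ⟨p + c.2 ⟨0, hk⟩, Or.inl ⟨⟨0, hk⟩, by omega, by omega⟩⟩
  exact Nat.sInf_mem hne

variable {Lt k : ℕ} {W K E C Q Ω : Type} [DecidableEq K] {M : Machine Lt k W Q Ω} {ω : Ω}
  {L : Lay Lt W K E C} {θ : ℕ}

/-- no data near the places in `A` -/
def Padded (A : Set ℕ) (L : Lay Lt W K E C) : Prop :=
  ∀ a ∈ A, ∀ p : Fin Lt, (p : ℕ) ≤ a + L.len → a ≤ p + L.len → L.adr p = none

lemma newb_card {A : Set ℕ} (hP : Padded A L) (hk : 0 < k) (c c' : Conf Lt k Q) (h : Fin k) :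
    open Classical in
    ((range L.len).filter fun θ => newb L θ c c' h).card ≤ min (dist A c (c'.2 h)) L.len := by
  classical
  refine le_min ?_ ?_
  · rcases dist_spec A c (c'.2 h) hk with ⟨h', h1, h2⟩ | ⟨a, ha, h1, h2⟩
    · refine le_trans (card_le_card ?_) (cen_card L.hlen h1 h2)
      intro θ hθ
      rw [mem_filter] at hθ ⊢
      refine ⟨hθ.1, fun h3 => hθ.2.1 h' ?_⟩
      exact Fin.ext h3
    · refine le_trans (card_le_card ?_) (cen_card L.hlen h1 h2)
      intro θ hθ
      rw [mem_filter] at hθ ⊢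
      refine ⟨hθ.1, fun h3 => ?_⟩
      obtain ⟨p, hp1, hp2⟩ := hθ.2.2
      have h4 : cen L.len θ p = cen L.len θ a := by
        rw [← h3]
        exact congrArg Fin.val hp2
      have h5 := cen_close L.hlen h4
      exact hp1 (hP a ha p (by omega) (by omega))
  · refine (card_le_card (filter_subset _ _)).trans ?_
    rw [card_range]

variable (L θ) in
lemma nearb_card [Fintype K] (c : Fin Lt) : open Classical in
    ((univ : Finset K).filter fun κ => nearb L θ κ c).card ≤ 3 := by
  classical
  have h1 : ((univ : Finset K).filter fun κ => nearb L θ κ c) ⊆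
      (univ : Finset (Fin 3)).biUnion fun a =>
        (univ : Finset K).filter fun κ => ∃ t p e, tp L.len c a = some t ∧
          L.adr p = some (κ, e, true) ∧ L.sc t = L.sc p := by
    intro κ hκ
    obtain ⟨p, e, ha, hp⟩ := (mem_filter.1 hκ).2
    obtain ⟨hp1, hp2⟩ := ctr_close L.hlen hp
    obtain ⟨i, t, ht, hsc⟩ := L.test p c (by rw [ha]; simp) hp1 hp2
    exact mem_biUnion.2 ⟨i, mem_univ _, mem_filter.2 ⟨mem_univ _, t, p, e, ht, ha, hsc⟩⟩
  refine (card_le_card h1).trans (card_biUnion_le.trans ?_)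
  have h2 : ∀ a ∈ (univ : Finset (Fin 3)),
      ((univ : Finset K).filter fun κ => ∃ t p e, tp L.len c a = some t ∧
          L.adr p = some (κ, e, true) ∧ L.sc t = L.sc p).card ≤ 1 := by
    intro a _
    rw [card_le_one]
    intro κ hκ κ' hκ'
    obtain ⟨t, p, e, ht, hp, hsc⟩ := (mem_filter.1 hκ).2
    obtain ⟨t', p', e', ht', hp', hsc'⟩ := (mem_filter.1 hκ').2
    have : t = t' := by rw [ht] at ht'; simpa using ht'
    subst this
    exact L.one p p' κ κ' e e' hp hp' (hsc.symm.trans hsc')
  refine (sum_le_sum h2).trans ?_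
  simp

variable (L θ) in
lemma mode_card [Fintype K] (c : Conf Lt k Q) : open Classical in
    ((univ : Finset K).filter fun κ => mode L θ κ c).card ≤ 3 * k := by
  classical
  have h1 : ((univ : Finset K).filter fun κ => mode L θ κ c) ⊆
      (univ : Finset (Fin k)).biUnion fun h =>
        (univ : Finset K).filter fun κ => nearb L θ κ (ctr L.len θ (c.2 h)) := by
    intro κ hκ
    obtain ⟨h, hh⟩ := (mem_filter.1 hκ).2
    exact mem_biUnion.2 ⟨h, mem_univ _, mem_filter.2 ⟨mem_univ _, hh⟩⟩
  refine (card_le_card h1).trans (card_biUnion_le.trans ?_)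
  refine (sum_le_sum fun h _ => nearb_card L θ (ctr L.len θ (c.2 h))).trans ?_
  simp
  omega

open Classical in
/-- the changes of a predicate -/
lemma changes (P : ℕ → Prop) (h0 : ¬ P 0) (N : ℕ) :
    ((range N).filter fun i => ¬ (P (i + 1) ↔ P i)).card ≤
      2 * ((range N).filter fun i => P (i + 1) ∧ ¬ P i).card := by
  have key : ∀ N, ∑ i ∈ range N, (if ¬ (P (i + 1) ↔ P i) then 1 else 0) + (if P N then 1 else 0) ≤
      2 * ∑ i ∈ range N, (if P (i + 1) ∧ ¬ P i then 1 else 0) := by
    intro N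
    induction N with
    | zero => simp [h0]
    | succ N ih =>
      rw [sum_range_succ, sum_range_succ, mul_add]
      by_cases h1 : P N <;> by_cases h2 : P (N + 1) <;> simp only [h1, h2] at ih ⊢ <;>
        simp at ih ⊢ <;> omega
  have := key N
  rw [card_filter, card_filter]
  omega

section Sums

variable (M ω L θ)

open Classical in
/-- number of pairs of a time and a head that comes into a new block with data -/
noncomputable def ND (H : ℕ) (F : Dat K E) : ℕ :=
  ∑ t ∈ range H, ∑ h : Fin k,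
    (if newb L θ (M.run ω (L.cont F) t) (M.run ω (L.cont F) (t + 1)) h then 1 else 0)

open Classical in
/-- the same, counting only blocks with a bit of the second player for the core `κ` -/
noncomputable def NF (H : ℕ) (F : Dat K E) (κ : K) : ℕ :=
  (if mode L θ κ (M.run ω (L.cont F) 0) then 1 else 0) + ∑ t ∈ range H, ∑ h : Fin k,
    (if newb L θ (M.run ω (L.cont F) t) (M.run ω (L.cont F) (t + 1)) h ∧
      nearb L θ κ (ctr L.len θ ((M.run ω (L.cont F) (t + 1)).2 h)) then 1 else 0)

open Classical in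
/-- the same, counting only times at which the second player acts -/
noncomputable def NS (H : ℕ) (F : Dat K E) (κ : K) : ℕ :=
  ∑ t ∈ range H, ∑ h : Fin k,
    (if newb L θ (M.run ω (L.cont F) t) (M.run ω (L.cont F) (t + 1)) h ∧
      mode L θ κ (M.run ω (L.cont F) (t + 1)) then 1 else 0)

variable {M ω L θ}

lemma cF_le (H : ℕ) (F : Dat K E) (κ : K) (x y : E → Bool) :
    cF L θ κ x (rr M ω L F κ x y) (H + 1) ≤ 2 * NF M ω L θ H (dat F κ x y) κ := by
  classical
  set cs := rr M ω L F κ x y with hcs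
  have h1 : cF L θ κ x cs (H + 1) = ((range (H + 1)).filter fun i =>
      ¬ (md L θ κ cs (i + 1) ↔ md L θ κ cs i)).card := by
    unfold cF
    congr 1
    apply filter_congr
    intro i _
    unfold PF
    split_ifs with h
    · simp [h]
    · simp [h]
  rw [h1]
  refine (changes (md L θ κ cs) (fun h => h) (H + 1)).trans ?_
  apply Nat.mul_le_mul_left
  -- the entries
  have h2 : ((range (H + 1)).filter fun i => md L θ κ cs (i + 1) ∧ ¬ md L θ κ cs i).card =
      (if mode L θ κ (cs 0) then 1 else 0) +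
        ∑ t ∈ range H, (if mode L θ κ (cs (t + 1)) ∧ ¬ mode L θ κ (cs t) then 1 else 0) := by
    rw [card_filter, sum_range_succ']
    rw [add_comm]
    congr 1
    exact if_congr ⟨fun h => h.1, fun h => ⟨h, fun h' => h'⟩⟩ rfl rfl
  rw [h2]
  unfold NF
  refine Nat.add_le_add le_rfl (sum_le_sum fun t _ => ?_)
  split_ifs with h3
  · obtain ⟨⟨h, p, e, hp1, hp2⟩, h4⟩ := h3
    have h5 : newb L θ (cs t) (cs (t + 1)) h ∧ nearb L θ κ (ctr L.len θ ((cs (t + 1)).2 h)) := by
      refine ⟨⟨fun h' hh' => h4 ⟨h', p, e, hp1, hp2.trans hh'⟩, p, by rw [hp1]; simp, hp2⟩,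
        p, e, hp1, hp2⟩
    have h6 : (1 : ℕ) = (if newb L θ (cs t) (cs (t + 1)) h ∧
        nearb L θ κ (ctr L.len θ ((cs (t + 1)).2 h)) then 1 else 0) := (if_pos h5).symm
    refine le_trans (le_of_eq h6) ?_
    exact Finset.single_le_sum (f := fun h => if newb L θ (cs t) (cs (t + 1)) h ∧
        nearb L θ κ (ctr L.len θ ((cs (t + 1)).2 h)) then 1 else 0)
        (fun _ _ => Nat.zero_le _) (mem_univ h)
  · exact Nat.zero_le _

lemma cS_le (H : ℕ) (F : Dat K E) (κ : K) (x y : E → Bool) :
    cS L θ κ x (rr M ω L F κ x y) (H + 1) ≤ NS M ω L θ H (dat F κ x y) κ := by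
  classical
  set cs := rr M ω L F κ x y with hcs
  unfold cS
  rw [card_filter, sum_product, sum_range_succ']
  have h0 : ∑ h : Fin k, (if PS L θ κ x cs (0, h).1 (0, h).2 ≠ none then 1 else 0) = 0 := by
    apply sum_eq_zero
    intro h _
    exact if_neg (fun h' => h' rfl)
  rw [h0, add_zero]
  unfold NS
  refine sum_le_sum fun t _ => sum_le_sum fun h _ => ?_
  by_cases h1 : newb L θ (cs t) (cs (t + 1)) h ∧ mode L θ κ (cs (t + 1))
  · have h2 : (if newb L θ (M.run ω (L.cont (dat F κ x y)) t)
      (M.run ω (L.cont (dat F κ x y)) (t + 1)) h ∧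
      mode L θ κ (M.run ω (L.cont (dat F κ x y)) (t + 1)) then 1 else 0) = 1 := if_pos h1
    rw [h2]
    split_ifs <;> omega
  · have h2 : PS L θ κ x cs (t + 1) h = none := PS_none L θ (fun h3 => h1 ⟨h3.2.2, h3.2.1⟩)
    simp only [h2]
    simp

lemma sum_NF [Fintype K] (H : ℕ) (F : Dat K E) :
    ∑ κ, NF M ω L θ H F κ ≤ 3 * k + 3 * ND M ω L θ H F := by
  classical
  unfold NF ND
  rw [sum_add_distrib]
  refine Nat.add_le_add ?_ ?_
  · rw [← card_filter]
    exact mode_card L θ _
  · rw [sum_comm, mul_sum]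
    refine sum_le_sum fun t _ => ?_
    rw [sum_comm, mul_sum]
    refine sum_le_sum fun h _ => ?_
    by_cases h1 : newb L θ (M.run ω (L.cont F) t) (M.run ω (L.cont F) (t + 1)) h
    · simp only [h1, true_and, if_true, mul_one]
      rw [← card_filter]
      exact nearb_card L θ _
    · simp [h1]

lemma sum_NS [Fintype K] (H : ℕ) (F : Dat K E) :
    ∑ κ, NS M ω L θ H F κ ≤ 3 * k * ND M ω L θ H F := by
  classical
  unfold NS ND
  rw [sum_comm, mul_sum]
  refine sum_le_sum fun t _ => ?_
  rw [sum_comm, mul_sum]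
  refine sum_le_sum fun h _ => ?_
  by_cases h1 : newb L θ (M.run ω (L.cont F) t) (M.run ω (L.cont F) (t + 1)) h
  · simp only [h1, true_and, if_true, mul_one]
    rw [← card_filter]
    exact mode_card L θ _
  · simp [h1]

/-- the average over the shifts -/
lemma sum_ND {A : Set ℕ} (hP : Padded A L) (hk : 0 < k) (H : ℕ) (F : Dat K E) :
    open Classical in
    ∑ θ ∈ range L.len, ND M ω L θ H F ≤ ∑ t ∈ range H, ∑ h : Fin k, ∑ j ∈ range L.len,
      (if M.answer (M.run ω (L.cont F) t) = none ∧
        j < dist A (M.run ω (L.cont F) t) ((M.run ω (L.cont F) (t + 1)).2 h) then 1 else 0) := by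
  classical
  unfold ND
  rw [sum_comm]
  refine sum_le_sum fun t _ => ?_
  rw [sum_comm]
  refine sum_le_sum fun h _ => ?_
  by_cases ha : M.answer (M.run ω (L.cont F) t) = none
  · simp only [ha, true_and]
    rw [← min_eq_sum, ← card_filter]
    exact newb_card hP hk _ _ h
  · have h1 : M.run ω (L.cont F) (t + 1) = M.run ω (L.cont F) t :=
      run_stable M ω _ (Nat.le_succ t) (Option.ne_none_iff_isSome.1 ha)
    rw [h1]
    refine le_trans (le_of_eq ?_) (Nat.zero_le _)
    apply sum_eq_zero
    intro θ _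
    exact if_neg (fun h2 => h2.1 h rfl)

end Sums

end Pool.Agent.HLP
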