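import Mathlib
import Pool.Agent.HLP.Count

/-!
# The inequality for a fixed random seed and a fixed shift
-/

set_option linter.unusedSectionVars false

namespace Pool.Agent.HLP

open Finset
open Pool.Agent.HDL (Machine Conf Lay Dat dat Q3 base inst base_update card_Q3 pNo sum_resample
  sum_zero_le)
open Pool.Agent.UT (msk ng al alb corrupt_sum)

variable {Lt k : ℕ} {W K E C Q Ω : Type} [Fintype K] [DecidableEq K] [Fintype E] [DecidableEq E]
  [Fintype Q] {M : Machine Lt k W Q Ω} {ω : Ω} {L : Lay Lt W K E C} {θ H : ℕ}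

/-- the inequality for one core -/
lemma core_ineq (R1 R2 : ℕ) (hR1 : 0 < R1) (hR2 : 0 < R2) (r0 : ℝ) (hr0 : 0 ≤ r0) (F : Dat K E)
    (κ : K) :
    9 / 16 * ((∑ e : E, ∑ q : Q3 E, pNo M ω L H (dat F κ (Function.update (msk q.1 q.2.1) e false)
        (Function.update (msk (ng q.1) q.2.2) e false))) -
      2 * (∑ e : E, ∑ q : Q3 E, (NF M ω L θ H (dat F κ (Function.update (msk q.1 q.2.1) e false)
        (Function.update (msk (ng q.1) q.2.2) e false)) κ : ℝ)) / R1 -
      (∑ e : E, ∑ q : Q3 E, (NS M ω L θ H (dat F κ (Function.update (msk q.1 q.2.1) e false)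
        (Function.update (msk (ng q.1) q.2.2) e false)) κ : ℝ)) / R2 -
      8 * r0 * 8 ^ Fintype.card E -
        Fintype.card (TT L k Q R1 R2 H) *
          (8 * (Fintype.card E * 8 ^ Fintype.card E * Real.exp (-r0 / 98)))) ≤
      ∑ e : E, ∑ q : Q3 E, pNo M ω L H (dat F κ (Function.update (msk q.1 q.2.1) e true)
        (Function.update (msk (ng q.1) q.2.2) e true)) := by
  classical
  obtain ⟨A', B', hAB⟩ := tr_rect (M := M) (ω := ω) (L := L) (θ := θ) R1 R2 H F κ
  have h := corrupt_sum (T := TT L k Q R1 R2 H) (tr M ω L θ R1 R2 H F κ) A' B' hAB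
    noT r0 hr0
  have hR1' : (0 : ℝ) < R1 := by exact_mod_cast hR1
  have hR2' : (0 : ℝ) < R2 := by exact_mod_cast hR2
  -- lower bound
  have h1 : ∀ x y, pNo M ω L H (dat F κ x y) - 2 * (NF M ω L θ H (dat F κ x y) κ : ℝ) / R1 -
      (NS M ω L θ H (dat F κ x y) κ : ℝ) / R2 ≤
      (if noT (tr M ω L θ R1 R2 H F κ x y) then (1 : ℝ) else 0) := by
    intro x y
    unfold pNo
    have hc1 : (0 : ℝ) ≤ 2 * (NF M ω L θ H (dat F κ x y) κ : ℝ) / R1 := by positivity
    have hc2 : (0 : ℝ) ≤ (NS M ω L θ H (dat F κ x y) κ : ℝ) / R2 := by positivity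
    split_ifs with h2 h3 h3
    · linarith
    · by_cases h4 : cF L θ κ x (rr M ω L F κ x y) (H + 1) ≤ R1
      · have h5 : ¬ cS L θ κ x (rr M ω L F κ x y) (H + 1) ≤ R2 := fun h5 =>
          h3 (no_complete h2 h4 h5)
        have h6 := cS_le (M := M) (ω := ω) (L := L) (θ := θ) H F κ x y
        have h7 : (R2 : ℝ) ≤ NS M ω L θ H (dat F κ x y) κ := by
          exact_mod_cast (le_of_lt (not_le.1 h5)).trans h6
        have h8 : (1 : ℝ) ≤ (NS M ω L θ H (dat F κ x y) κ : ℝ) / R2 := by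
          rw [le_div_iff₀ hR2']
          linarith
        linarith
      · have h6 := cF_le (M := M) (ω := ω) (L := L) (θ := θ) H F κ x y
        have h7 : (R1 : ℝ) ≤ 2 * NF M ω L θ H (dat F κ x y) κ := by
          exact_mod_cast (le_of_lt (not_le.1 h4)).trans h6
        have h8 : (1 : ℝ) ≤ 2 * (NF M ω L θ H (dat F κ x y) κ : ℝ) / R1 := by
          rw [le_div_iff₀ hR1']
          linarith
        linarith
    · linarith
    · linarith
  have h2 : ∀ x y, (if noT (tr M ω L θ R1 R2 H F κ x y) then (1 : ℝ) else 0) ≤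
      pNo M ω L H (dat F κ x y) := by
    intro x y
    unfold pNo
    split_ifs with h3 h4 h4
    · exact le_rfl
    · exact absurd (no_sound h3) h4
    · norm_num
    · exact le_rfl
  have e1 : ∀ Φ : (E → Bool) → (E → Bool) → (E → Bool) → ℝ,
      ∑ q : Q3 E, Φ q.1 q.2.1 q.2.2 = ∑ D, ∑ u, ∑ v, Φ D u v := by
    intro Φ
    rw [Fintype.sum_prod_type]
    refine Finset.sum_congr rfl fun D _ => ?_
    rw [Fintype.sum_prod_type]
  have h3 : ∑ e : E, ∑ D, ∑ u, ∑ v, (if noT (tr M ω L θ R1 R2 H F κ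
        (Function.update (msk D u) e true) (Function.update (msk (ng D) v) e true)) then (1 : ℝ)
        else 0) ≤
      ∑ e : E, ∑ q : Q3 E, pNo M ω L H (dat F κ (Function.update (msk q.1 q.2.1) e true)
        (Function.update (msk (ng q.1) q.2.2) e true)) := by
    refine Finset.sum_le_sum fun e _ => ?_
    rw [e1 (fun D u v => pNo M ω L H (dat F κ (Function.update (msk D u) e true)
        (Function.update (msk (ng D) v) e true)))]
    exact Finset.sum_le_sum fun D _ => Finset.sum_le_sum fun u _ => Finset.sum_le_sum fun v _ =>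
      h2 _ _
  have h4 : (∑ e : E, ∑ q : Q3 E, pNo M ω L H (dat F κ (Function.update (msk q.1 q.2.1) e false)
        (Function.update (msk (ng q.1) q.2.2) e false))) -
      2 * (∑ e : E, ∑ q : Q3 E, (NF M ω L θ H (dat F κ (Function.update (msk q.1 q.2.1) e false)
        (Function.update (msk (ng q.1) q.2.2) e false)) κ : ℝ)) / R1 -
      (∑ e : E, ∑ q : Q3 E, (NS M ω L θ H (dat F κ (Function.update (msk q.1 q.2.1) e false)
        (Function.update (msk (ng q.1) q.2.2) e false)) κ : ℝ)) / R2 ≤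
      ∑ e : E, ∑ D, ∑ u, ∑ v, (if noT (tr M ω L θ R1 R2 H F κ
        (Function.update (msk D u) e false) (Function.update (msk (ng D) v) e false)) then (1 : ℝ)
        else 0) := by
    rw [Finset.mul_sum, Finset.sum_div, Finset.sum_div, ← Finset.sum_sub_distrib,
      ← Finset.sum_sub_distrib]
    refine Finset.sum_le_sum fun e _ => ?_
    rw [Finset.mul_sum, Finset.sum_div, Finset.sum_div, ← Finset.sum_sub_distrib,
      ← Finset.sum_sub_distrib]
    rw [e1 (fun D u v => pNo M ω L H (dat F κ (Function.update (msk D u) e false)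
        (Function.update (msk (ng D) v) e false)) -
        2 * (NF M ω L θ H (dat F κ (Function.update (msk D u) e false)
        (Function.update (msk (ng D) v) e false)) κ : ℝ) / R1 -
        (NS M ω L θ H (dat F κ (Function.update (msk D u) e false)
        (Function.update (msk (ng D) v) e false)) κ : ℝ) / R2)]
    exact Finset.sum_le_sum fun D _ => Finset.sum_le_sum fun u _ => Finset.sum_le_sum fun v _ =>
      h1 _ _
  refine le_trans ?_ (h.trans h3)
  refine mul_le_mul_of_nonneg_left ?_ (by norm_num)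
  linarith

/-- the average over a random core -/
lemma cnt_avg (Φ : Dat K E → K → ℕ) : ∑ z : K → Q3 E, ∑ κ : K, ∑ e : E, ∑ q : Q3 E,
      (Φ (inst z κ q e false) κ : ℝ) ≤
    2 * Fintype.card E * 8 ^ Fintype.card E * ∑ z : K → Q3 E, ∑ κ : K, (Φ (base z) κ : ℝ) := by
  classical
  have e1 : ∀ Φ : (E → Bool) → (E → Bool) → (E → Bool) → ℝ,
      ∑ q : Q3 E, Φ q.1 q.2.1 q.2.2 = ∑ D, ∑ u, ∑ v, Φ D u v := by
    intro Φ
    rw [Fintype.sum_prod_type]
    refine Finset.sum_congr rfl fun D _ => ?_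
    rw [Fintype.sum_prod_type]
  have h1 : ∀ (z : K → Q3 E) (κ : K) (e : E), ∑ q : Q3 E,
      (Φ (inst z κ q e false) κ : ℝ) ≤
      2 * ∑ q : Q3 E, (Φ (base (Function.update z κ q)) κ : ℝ) := by
    intro z κ e
    have h2 := sum_zero_le e (fun x y => (Φ (dat (base z) κ x y) κ : ℝ))
      (fun x y => Nat.cast_nonneg _)
    have h3 : ∑ q : Q3 E, (Φ (base (Function.update z κ q)) κ : ℝ) =
        ∑ q : Q3 E, (Φ (dat (base z) κ (msk q.1 q.2.1) (msk (ng q.1) q.2.2)) κ : ℝ) := by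
      refine Finset.sum_congr rfl fun q _ => ?_
      rw [base_update]
    rw [h3, e1 (fun D u v => (Φ (dat (base z) κ (msk D u) (msk (ng D) v)) κ : ℝ))]
    refine le_trans (le_of_eq ?_) h2
    exact e1 (fun D u v => (Φ (dat (base z) κ (Function.update (msk D u) e false)
      (Function.update (msk (ng D) v) e false)) κ : ℝ))
  have h2 : ∀ κ : K, ∑ z : K → Q3 E, ∑ e : E, ∑ q : Q3 E,
      (Φ (inst z κ q e false) κ : ℝ) ≤
      2 * Fintype.card E * 8 ^ Fintype.card E *
        ∑ z : K → Q3 E, (Φ (base z) κ : ℝ) := by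
    intro κ
    have h3 : ∑ z : K → Q3 E, ∑ e : E, ∑ q : Q3 E,
      (Φ (inst z κ q e false) κ : ℝ) ≤
        ∑ z : K → Q3 E, ∑ e : E,
          2 * ∑ q : Q3 E, (Φ (base (Function.update z κ q)) κ : ℝ) :=
      Finset.sum_le_sum fun z _ => Finset.sum_le_sum fun e _ => h1 z κ e
    refine h3.trans (le_of_eq ?_)
    have h4 : ∀ z : K → Q3 E, ∑ e : E,
          2 * ∑ q : Q3 E, (Φ (base (Function.update z κ q)) κ : ℝ) =
        (Fintype.card E : ℝ) * 2 *
          ∑ q : Q3 E, (Φ (base (Function.update z κ q)) κ : ℝ) := by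
      intro z
      rw [Finset.sum_const, Finset.card_univ, nsmul_eq_mul]
      ring
    rw [Finset.sum_congr rfl fun z _ => h4 z, ← Finset.mul_sum,
      sum_resample κ (fun z => (Φ (base z) κ : ℝ)), card_Q3]
    push_cast
    ring
  have h3 : ∑ z : K → Q3 E, ∑ κ : K, ∑ e : E, ∑ q : Q3 E,
      (Φ (inst z κ q e false) κ : ℝ) ≤ ∑ κ : K,
      2 * Fintype.card E * 8 ^ Fintype.card E *
        ∑ z : K → Q3 E, (Φ (base z) κ : ℝ) := by
    rw [Finset.sum_comm]
    exact Finset.sum_le_sum fun κ _ => h2 κ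
  refine h3.trans ?_
  rw [← Finset.mul_sum, Finset.sum_comm]

/-- The inequality for a fixed random seed and a fixed shift. -/
theorem seed_ineq (R1 R2 : ℕ) (hR1 : 0 < R1) (hR2 : 0 < R2) (r0 : ℝ) (hr0 : 0 ≤ r0) :
    9 / 16 * ((∑ z : K → Q3 E, ∑ κ : K, ∑ e : E, ∑ q : Q3 E,
        pNo M ω L H (inst z κ q e false)) -
      12 * Fintype.card E * 8 ^ Fintype.card E / R1 *
        ∑ z : K → Q3 E, (k + ND M ω L θ H (base z) : ℝ) -
      6 * k * Fintype.card E * 8 ^ Fintype.card E / R2 *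
        ∑ z : K → Q3 E, (ND M ω L θ H (base z) : ℝ) -
      Fintype.card (K → Q3 E) * Fintype.card K * (8 * r0 * 8 ^ Fintype.card E +
        Fintype.card (TT L k Q R1 R2 H) *
          (8 * (Fintype.card E * 8 ^ Fintype.card E * Real.exp (-r0 / 98))))) ≤
      ∑ z : K → Q3 E, ∑ κ : K, ∑ e : E, ∑ q : Q3 E,
        pNo M ω L H (inst z κ q e true) := by
  have h1 := Finset.sum_le_sum fun z (_ : z ∈ (Finset.univ : Finset (K → Q3 E))) =>
    Finset.sum_le_sum fun κ (_ : κ ∈ (Finset.univ : Finset (K))) =>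
      core_ineq (M := M) (ω := ω) (L := L) (θ := θ) (H := H) R1 R2 hR1 hR2 r0 hr0 (base z) κ
  refine le_trans ?_ h1
  have hR1' : (0 : ℝ) < R1 := by exact_mod_cast hR1
  have hR2' : (0 : ℝ) < R2 := by exact_mod_cast hR2
  have h2 : ∑ z : K → Q3 E, ∑ κ : K, ∑ e : E, ∑ q : Q3 E,
      (NF M ω L θ H (inst z κ q e false) κ : ℝ) ≤
      2 * Fintype.card E * 8 ^ Fintype.card E *
        ∑ z : K → Q3 E, (3 * (k + ND M ω L θ H (base z)) : ℝ) := by
    refine (cnt_avg (NF M ω L θ H)).trans ?_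
    refine mul_le_mul_of_nonneg_left (Finset.sum_le_sum fun z _ => ?_) (by positivity)
    have := sum_NF (M := M) (ω := ω) (L := L) (θ := θ) H (base z)
    have h3 : ((∑ κ, NF M ω L θ H (base z) κ : ℕ) : ℝ) ≤
      ((3 * k + 3 * ND M ω L θ H (base z) : ℕ) : ℝ) := by exact_mod_cast this
    push_cast at h3
    linarith
  have h2' : ∑ z : K → Q3 E, ∑ κ : K, ∑ e : E, ∑ q : Q3 E,
      (NS M ω L θ H (inst z κ q e false) κ : ℝ) ≤
      2 * Fintype.card E * 8 ^ Fintype.card E *
        ∑ z : K → Q3 E, (3 * k * ND M ω L θ H (base z) : ℝ) := by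
    refine (cnt_avg (NS M ω L θ H)).trans ?_
    refine mul_le_mul_of_nonneg_left (Finset.sum_le_sum fun z _ => ?_) (by positivity)
    have := sum_NS (M := M) (ω := ω) (L := L) (θ := θ) H (base z)
    exact_mod_cast this
  set X : ℝ := 8 * r0 * 8 ^ Fintype.card E +
        Fintype.card (TT L k Q R1 R2 H) *
          (8 * (Fintype.card E * 8 ^ Fintype.card E * Real.exp (-r0 / 98))) with hX
  have h3 : ∀ (z : K → Q3 E) (κ : K),
      9 / 16 * ((∑ e : E, ∑ q : Q3 E, pNo M ω L H (dat (base z) κ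
        (Function.update (msk q.1 q.2.1) e false) (Function.update (msk (ng q.1) q.2.2) e false))) -
      2 * (∑ e : E, ∑ q : Q3 E, (NF M ω L θ H (dat (base z) κ
        (Function.update (msk q.1 q.2.1) e false)
        (Function.update (msk (ng q.1) q.2.2) e false)) κ : ℝ)) / R1 -
      (∑ e : E, ∑ q : Q3 E, (NS M ω L θ H (dat (base z) κ
        (Function.update (msk q.1 q.2.1) e false)
        (Function.update (msk (ng q.1) q.2.2) e false)) κ : ℝ)) / R2 -
      8 * r0 * 8 ^ Fintype.card E -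
        Fintype.card (TT L k Q R1 R2 H) *
          (8 * (Fintype.card E * 8 ^ Fintype.card E * Real.exp (-r0 / 98)))) =
      9 / 16 * (∑ e : E, ∑ q : Q3 E, pNo M ω L H (inst z κ q e false)) -
      9 / 16 * (2 / R1) * (∑ e : E, ∑ q : Q3 E, (NF M ω L θ H (inst z κ q e false) κ : ℝ)) -
      9 / 16 / R2 * (∑ e : E, ∑ q : Q3 E, (NS M ω L θ H (inst z κ q e false) κ : ℝ)) -
        9 / 16 * X := by
    intro z κ
    unfold inst
    rw [hX]
    ring
  rw [Finset.sum_congr rfl fun z _ => Finset.sum_congr rfl fun κ _ => h3 z κ]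
  have h4 : ∑ z : K → Q3 E, ∑ κ : K,
      (9 / 16 * (∑ e : E, ∑ q : Q3 E, pNo M ω L H (inst z κ q e false)) -
      9 / 16 * (2 / R1) * (∑ e : E, ∑ q : Q3 E, (NF M ω L θ H (inst z κ q e false) κ : ℝ)) -
      9 / 16 / R2 * (∑ e : E, ∑ q : Q3 E, (NS M ω L θ H (inst z κ q e false) κ : ℝ)) -
        9 / 16 * X) =
      9 / 16 * (∑ z : K → Q3 E, ∑ κ : K, ∑ e : E, ∑ q : Q3 E,
        pNo M ω L H (inst z κ q e false)) -
      9 / 16 * (2 / R1) * (∑ z : K → Q3 E, ∑ κ : K, ∑ e : E, ∑ q : Q3 E,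
        (NF M ω L θ H (inst z κ q e false) κ : ℝ)) -
      9 / 16 / R2 * (∑ z : K → Q3 E, ∑ κ : K, ∑ e : E, ∑ q : Q3 E,
        (NS M ω L θ H (inst z κ q e false) κ : ℝ)) -
      Fintype.card (K → Q3 E) * (Fintype.card K * (9 / 16 * X)) := by
    simp only [Finset.sum_sub_distrib, ← Finset.mul_sum, Finset.sum_const, Finset.card_univ,
      nsmul_eq_mul]
    ring
  rw [h4]
  have h5 := mul_le_mul_of_nonneg_left h2 (by positivity : (0 : ℝ) ≤ 9 / 16 * (2 / R1))
  have h5' := mul_le_mul_of_nonneg_left h2' (by positivity : (0 : ℝ) ≤ 9 / 16 / R2)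
  have h6 : 9 / 16 * (2 / (R1 : ℝ)) * (2 * Fintype.card E * 8 ^ Fintype.card E *
      ∑ z : K → Q3 E, (3 * (k + ND M ω L θ H (base z)) : ℝ)) =
      9 / 16 * (12 * Fintype.card E * 8 ^ Fintype.card E / R1 *
        ∑ z : K → Q3 E, (k + ND M ω L θ H (base z) : ℝ)) := by
    rw [← Finset.mul_sum]
    ring
  have h6' : 9 / 16 / (R2 : ℝ) * (2 * Fintype.card E * 8 ^ Fintype.card E *
      ∑ z : K → Q3 E, (3 * k * ND M ω L θ H (base z) : ℝ)) =
      9 / 16 * (6 * k * Fintype.card E * 8 ^ Fintype.card E / R2 *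
        ∑ z : K → Q3 E, (ND M ω L θ H (base z) : ℝ)) := by
    rw [← Finset.mul_sum]
    ring
  rw [h6] at h5
  rw [h6'] at h5'
  linarith

end Pool.Agent.HLP
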