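import Mathlib
import Pool.Agent.HDL.Rand
import Pool.Agent.HLP.Avg

/-!
# Averaging over the random seed and the shift
-/

set_option linter.unusedSectionVars false

open MeasureTheory

namespace Pool.Agent.HLP

open Finset
open Pool.Agent.HDL (Machine Conf Lay Dat dat Q3 base inst pNo ans_none ans_some int_sum setNo
  sum_pNo card_I inst_free inst_tri ZZ II)
open Pool.Agent.UT (msk ng)

/-- `M` decides with error probability at most `1 / 3` whether some core has a common bit, in
expected time at most `T`, the expected value of the sum of `min D L.len` over all moves of heads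
by `D` cells is at most `L.len * V`, and the expected number of moves is at most `T`. -/
structure Good {Lt k : ℕ} {W K E C Q Ω : Type} [MeasurableSpace Ω] (M : Machine Lt k W Q Ω)
    (μ : Measure Ω) (A : Set ℕ) (L : Lay Lt W K E C) (T V : ℝ) : Prop where
  pad : Padded A L
  meas : ∀ (F : Dat K E) (t : ℕ) (c : Conf Lt k Q), MeasurableSet {ω | M.run ω (L.cont F) t = c}
  free : ∀ F : Dat K E, (∀ κ e, (F κ).1 e = true → (F κ).2 e = false) →
    2 / 3 ≤ μ.real {ω | ∃ t, M.answer (M.run ω (L.cont F) t) = some false}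
  tri : ∀ F : Dat K E, (∃ κ e, (F κ).1 e = true ∧ (F κ).2 e = true) →
    2 / 3 ≤ μ.real {ω | ∃ t, M.answer (M.run ω (L.cont F) t) = some true}
  time : ∀ (F : Dat K E) (m : ℕ),
    ∑ t ∈ Finset.range m, μ.real {ω | M.answer (M.run ω (L.cont F) t) = none} ≤ T
  moves : ∀ (F : Dat K E) (m : ℕ),
    ∑ t ∈ Finset.range m, ∑ h : Fin k, ∑ j ∈ Finset.range L.len,
      μ.real {ω | M.answer (M.run ω (L.cont F) t) = none ∧
        j < dist A (M.run ω (L.cont F) t) ((M.run ω (L.cont F) (t + 1)).2 h)} ≤ L.len * V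
  steps : ∀ (F : Dat K E) (m : ℕ),
    ∑ t ∈ Finset.range m, ∑ h : Fin k, μ.real {ω | M.answer (M.run ω (L.cont F) t) = none ∧
      0 < dist A (M.run ω (L.cont F) t) ((M.run ω (L.cont F) (t + 1)).2 h)} ≤ T

section Prob

variable {Lt k : ℕ} {W K E C Q Ω : Type} [Fintype Q] [MeasurableSpace Ω]
  (M : Machine Lt k W Q Ω) (μ : Measure Ω) [IsProbabilityMeasure μ] {A : Set ℕ}
  {L : Lay Lt W K E C} {T V : ℝ}

lemma meas_pair (hg : Good M μ A L T V) (F : Dat K E) (t t' : ℕ)
    (P : Conf Lt k Q → Conf Lt k Q → Prop) :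
    MeasurableSet {ω | P (M.run ω (L.cont F) t) (M.run ω (L.cont F) t')} := by
  have e : {ω | P (M.run ω (L.cont F) t) (M.run ω (L.cont F) t')} =
      ⋃ c ∈ {c : Conf Lt k Q × Conf Lt k Q | P c.1 c.2},
        ({ω | M.run ω (L.cont F) t = c.1} ∩ {ω | M.run ω (L.cont F) t' = c.2}) := by
    ext ω
    simp
  rw [e]
  exact MeasurableSet.biUnion (Set.to_countable _)
    (fun c _ => (hg.meas F t c.1).inter (hg.meas F t' c.2))

lemma prob_none (hg : Good M μ A L T V) (F : Dat K E) (m : ℕ) :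
    m * μ.real {ω | M.answer (M.run ω (L.cont F) m) = none} ≤ T := by
  refine le_trans ?_ (hg.time F m)
  rw [← nsmul_eq_mul, ← Finset.card_range m, ← Finset.sum_const, Finset.card_range]
  refine Finset.sum_le_sum fun t ht => ?_
  apply measureReal_mono
  · intro ω hω
    exact ans_none M ω _ (Finset.mem_range.1 ht).le hω
  · exact measure_ne_top _ _

lemma prob_free (hg : Good M μ A L T V) (F : Dat K E)
    (hF : ∀ κ e, (F κ).1 e = true → (F κ).2 e = false) (m : ℕ) (hm : 0 < m) :
    2 / 3 - T / m ≤ μ.real {ω | M.answer (M.run ω (L.cont F) m) = some false} := by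
  have h1 := prob_none M μ hg F m
  have hm0' : (0 : ℝ) < m := by exact_mod_cast hm
  have h2 : μ.real {ω | M.answer (M.run ω (L.cont F) m) = none} ≤ T / m := by
    rw [le_div_iff₀ hm0']
    linarith
  have h3 : μ.real {ω | ∃ t, M.answer (M.run ω (L.cont F) t) = some false} ≤
      μ.real ({ω | M.answer (M.run ω (L.cont F) m) = some false} ∪
        {ω | M.answer (M.run ω (L.cont F) m) = none}) := by
    apply measureReal_mono
    · rintro ω ⟨t, hb⟩
      rcases ho : M.answer (M.run ω (L.cont F) m) with _ | b'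
      · exact Or.inr ho
      · left
        have := ans_some M ω _ hb ho
        rw [← this] at ho
        exact ho
    · exact measure_ne_top _ _
  have h4 := measureReal_union_le (μ := μ) {ω | M.answer (M.run ω (L.cont F) m) = some false}
        {ω | M.answer (M.run ω (L.cont F) m) = none}
  have h5 := hg.free F hF
  linarith

lemma prob_tri (hg : Good M μ A L T V) (F : Dat K E)
    (hF : ∃ κ e, (F κ).1 e = true ∧ (F κ).2 e = true) (m : ℕ) :
    μ.real {ω | M.answer (M.run ω (L.cont F) m) = some false} ≤ 1 / 3 := by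
  have h1 : μ.real {ω | ∃ t, M.answer (M.run ω (L.cont F) t) = some true} ≤
      μ.real ({ω | M.answer (M.run ω (L.cont F) m) = some false}ᶜ) := by
    apply measureReal_mono
    · rintro ω ⟨t, hb⟩ hω
      have := ans_some M ω _ hb hω
      exact absurd this (by decide)
    · exact measure_ne_top _ _
  rw [measureReal_compl (meas_pair M μ hg F m m (fun c _ => M.answer c = some false)),
    probReal_univ] at h1
  have h5 := hg.tri F hF
  linarith

end Prob

section Main

variable {Lt k : ℕ} {W K E C Q Ω : Type} [Fintype K] [DecidableEq K] [Fintype E] [DecidableEq E]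
  [Fintype Q] [MeasurableSpace Ω] (M : Machine Lt k W Q Ω) (μ : Measure Ω) [IsProbabilityMeasure μ]
  (A : Set ℕ)

/-- at time `p.1` the head `p.2.1` moves by more than `p.2.2` cells -/
def setV (L : Lay Lt W K E C) (z : ZZ K E) (p : ℕ × Fin k × ℕ) : Set Ω :=
  {ω | M.answer (M.run ω (L.cont (base z)) p.1) = none ∧
    p.2.2 < dist A (M.run ω (L.cont (base z)) p.1)
      ((M.run ω (L.cont (base z)) (p.1 + 1)).2 p.2.1)}

/-- all moves before time `H` -/
abbrev mvs (k H l : ℕ) : Finset (ℕ × Fin k × ℕ) :=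
  Finset.range H ×ˢ ((Finset.univ : Finset (Fin k)) ×ˢ Finset.range l)

lemma sum_shift {L : Lay Lt W K E C} (hP : Padded A L) (hk : 0 < k) (H : ℕ) (ω : Ω)
    (z : ZZ K E) : (∑ θ ∈ Finset.range L.len, (ND M ω L θ H (base z) : ℝ)) ≤
      ∑ p ∈ mvs k H L.len, (setV M A L z p).indicator (fun _ => (1 : ℝ)) ω := by
  classical
  have h := sum_ND (M := M) (ω := ω) hP hk H (base z)
  have h1 : ((∑ θ ∈ Finset.range L.len, ND M ω L θ H (base z) : ℕ) : ℝ) ≤
      ((∑ t ∈ range H, ∑ h : Fin k, ∑ j ∈ range L.len,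
      (if M.answer (M.run ω (L.cont (base z)) t) = none ∧
        j < dist A (M.run ω (L.cont (base z)) t)
          ((M.run ω (L.cont (base z)) (t + 1)).2 h) then 1 else 0) : ℕ) : ℝ) := by
    exact_mod_cast h
  push_cast at h1
  refine h1.trans (le_of_eq ?_)
  rw [Finset.sum_product]
  refine Finset.sum_congr rfl fun t _ => ?_
  rw [Finset.sum_product]
  refine Finset.sum_congr rfl fun a _ => Finset.sum_congr rfl fun j _ => ?_
  rw [Set.indicator_apply]
  exact if_congr Iff.rfl rfl rfl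

lemma pointwise {A : Set ℕ} {L : Lay Lt W K E C} (hP : Padded A L) (hk : 0 < k) (H R1 R2 : ℕ)
    (hR1 : 0 < R1) (hR2 : 0 < R2) (r0 : ℝ) (hr0 : 0 ≤ r0) (ω : Ω) :
    9 / 16 * ((∑ i : II K E, (setNo M L H false i).indicator (fun _ => (1 : ℝ)) ω) -
      12 * Fintype.card E * 8 ^ Fintype.card E / R1 * (Fintype.card (ZZ K E) * k +
      (∑ z : ZZ K E, ∑ p ∈ mvs k H L.len,
        (setV M A L z p).indicator (fun _ => (1 : ℝ)) ω) / L.len) -
      6 * k * Fintype.card E * 8 ^ Fintype.card E / R2 *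
      ((∑ z : ZZ K E, ∑ p ∈ mvs k H L.len,
        (setV M A L z p).indicator (fun _ => (1 : ℝ)) ω) / L.len) -
      Fintype.card (ZZ K E) * Fintype.card K * (8 * r0 * 8 ^ Fintype.card E +
        Fintype.card (TT L k Q R1 R2 H) *
          (8 * (Fintype.card E * 8 ^ Fintype.card E * Real.exp (-r0 / 98))))) ≤
      ∑ i : II K E, (setNo M L H true i).indicator (fun _ => (1 : ℝ)) ω := by
  have hlen : (0 : ℝ) < L.len := by exact_mod_cast L.hlen
  have hR1' : (0 : ℝ) < R1 := by exact_mod_cast hR1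
  have hR2' : (0 : ℝ) < R2 := by exact_mod_cast hR2
  have h := Finset.sum_le_sum fun θ (_ : θ ∈ Finset.range L.len) =>
    seed_ineq (M := M) (ω := ω) (L := L) (θ := θ) (H := H) R1 R2 hR1 hR2 r0 hr0
  set X := (Fintype.card (ZZ K E) : ℝ) * Fintype.card K * (8 * r0 * 8 ^ Fintype.card E +
        Fintype.card (TT L k Q R1 R2 H) *
          (8 * (Fintype.card E * 8 ^ Fintype.card E * Real.exp (-r0 / 98)))) with hX
  set U : ℝ := ∑ z : ZZ K E, ∑ p ∈ mvs k H L.len,
        (setV M A L z p).indicator (fun _ => (1 : ℝ)) ω with hU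
  set c1 : ℝ := 12 * Fintype.card E * 8 ^ Fintype.card E / R1 with hc1
  set c2 : ℝ := 6 * k * Fintype.card E * 8 ^ Fintype.card E / R2 with hc2
  have hc1' : 0 ≤ c1 := by positivity
  have hc2' : 0 ≤ c2 := by positivity
  rw [Finset.sum_const, Finset.card_range, nsmul_eq_mul, sum_pNo, sum_pNo] at h
  have h1 : ∑ θ ∈ Finset.range L.len, ∑ z : ZZ K E, (ND M ω L θ H (base z) : ℝ) ≤ U := by
    rw [Finset.sum_comm]
    exact Finset.sum_le_sum fun z _ => sum_shift M A hP hk H ω z
  have h2 : ∑ θ ∈ Finset.range L.len, (9 / 16 *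
      ((∑ i : II K E, (setNo M L H false i).indicator (fun _ => (1 : ℝ)) ω) -
      c1 * ∑ z : K → Q3 E, (k + ND M ω L θ H (base z) : ℝ) -
      c2 * ∑ z : K → Q3 E, (ND M ω L θ H (base z) : ℝ) - X)) =
      9 / 16 * (L.len * (∑ i : II K E, (setNo M L H false i).indicator (fun _ => (1 : ℝ)) ω) -
        c1 * (L.len * (Fintype.card (ZZ K E) * k) +
          ∑ θ ∈ Finset.range L.len, ∑ z : ZZ K E, (ND M ω L θ H (base z) : ℝ)) -
        c2 * (∑ θ ∈ Finset.range L.len, ∑ z : ZZ K E, (ND M ω L θ H (base z) : ℝ)) -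
        L.len * X) := by
    rw [← Finset.mul_sum]
    congr 1
    have e1 : ∀ θ, ∑ z : K → Q3 E, (k + ND M ω L θ H (base z) : ℝ) =
        Fintype.card (ZZ K E) * k + ∑ z : ZZ K E, (ND M ω L θ H (base z) : ℝ) := by
      intro θ
      rw [Finset.sum_add_distrib, Finset.sum_const, Finset.card_univ, nsmul_eq_mul]
    simp only [e1, Finset.sum_sub_distrib, ← Finset.mul_sum, Finset.sum_add_distrib,
      Finset.sum_const, Finset.card_range, nsmul_eq_mul]
    ring
  rw [h2] at h
  have h3 := mul_le_mul_of_nonneg_left h1 hc1'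
  have h4 := mul_le_mul_of_nonneg_left h1 hc2'
  have h5 : L.len * (9 / 16 * ((∑ i : II K E, (setNo M L H false i).indicator (fun _ => (1 : ℝ)) ω) -
      c1 * (Fintype.card (ZZ K E) * k + U / L.len) - c2 * (U / L.len) - X)) =
      9 / 16 * (L.len * (∑ i : II K E, (setNo M L H false i).indicator (fun _ => (1 : ℝ)) ω) -
        c1 * (L.len * (Fintype.card (ZZ K E) * k) + U) - c2 * U - L.len * X) := by
    field_simp
  refine le_of_mul_le_mul_left ?_ hlen
  rw [h5]
  refine le_trans ?_ h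
  linarith

lemma integrated {A : Set ℕ} {L : Lay Lt W K E C} {T V : ℝ} (hg : Good M μ A L T V) (H : ℕ)
    (c1 c2 c3 c4 : ℝ)
    (hpt : ∀ ω, 9 / 16 * ((∑ i : II K E, (setNo M L H false i).indicator (fun _ => (1 : ℝ)) ω) -
      c1 * (c4 + (∑ z : ZZ K E, ∑ p ∈ mvs k H L.len,
        (setV M A L z p).indicator (fun _ => (1 : ℝ)) ω) / L.len) -
      c2 * ((∑ z : ZZ K E, ∑ p ∈ mvs k H L.len,
        (setV M A L z p).indicator (fun _ => (1 : ℝ)) ω) / L.len) - c3) ≤
      ∑ i : II K E, (setNo M L H true i).indicator (fun _ => (1 : ℝ)) ω) :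
    9 / 16 * ((∑ i : II K E, μ.real (setNo M L H false i)) -
      c1 * (c4 + (∑ z : ZZ K E, ∑ p ∈ mvs k H L.len, μ.real (setV M A L z p)) / L.len) -
      c2 * ((∑ z : ZZ K E, ∑ p ∈ mvs k H L.len, μ.real (setV M A L z p)) / L.len) - c3) ≤
      ∑ i : II K E, μ.real (setNo M L H true i) := by
  have m0 : ∀ b i, MeasurableSet (setNo M L H b i) := fun b i =>
    meas_pair M μ hg _ H H (fun c _ => M.answer c = some false)
  have mV : ∀ z p, MeasurableSet (setV M A L z p) := fun z p =>
    meas_pair M μ hg _ p.1 (p.1 + 1) (fun c c' => M.answer c = none ∧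
      p.2.2 < dist A c (c'.2 p.2.1))
  obtain ⟨i0, v0⟩ := int_sum μ (Finset.univ : Finset (II K E)) (setNo M L H false) (m0 false)
  obtain ⟨i1, v1⟩ := int_sum μ (Finset.univ : Finset (II K E)) (setNo M L H true) (m0 true)
  have hU := fun z => int_sum μ (mvs k H L.len) (setV M A L z) (mV z)
  have iU : Integrable (fun ω => ∑ z : ZZ K E, ∑ p ∈ mvs k H L.len,
      (setV M A L z p).indicator (fun _ => (1 : ℝ)) ω) μ :=
    integrable_finsetSum _ fun z _ => (hU z).1
  have vU : ∫ ω, ∑ z : ZZ K E, ∑ p ∈ mvs k H L.len,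
      (setV M A L z p).indicator (fun _ => (1 : ℝ)) ω ∂μ =
      ∑ z : ZZ K E, ∑ p ∈ mvs k H L.len, μ.real (setV M A L z p) := by
    rw [integral_finsetSum _ (fun z _ => (hU z).1)]
    exact Finset.sum_congr rfl fun z _ => (hU z).2
  rw [← v0, ← v1, ← vU]
  set f0 : Ω → ℝ := fun ω => ∑ i : II K E, (setNo M L H false i).indicator (fun _ => (1 : ℝ)) ω
  set f1 : Ω → ℝ := fun ω => ∑ i : II K E, (setNo M L H true i).indicator (fun _ => (1 : ℝ)) ω
  set fU : Ω → ℝ := fun ω => ∑ z : ZZ K E, ∑ p ∈ mvs k H L.len,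
      (setV M A L z p).indicator (fun _ => (1 : ℝ)) ω
  have a1 : Integrable (fun ω => c4 + fU ω / L.len) μ :=
    (integrable_const _).add (iU.div_const _)
  have a2 : Integrable (fun ω => c1 * (c4 + fU ω / L.len)) μ := a1.const_mul c1
  have a2' : Integrable (fun ω => c2 * (fU ω / L.len)) μ := (iU.div_const _).const_mul c2
  have a3 : Integrable (fun ω => f0 ω - c1 * (c4 + fU ω / L.len)) μ := i0.sub a2
  have a3' : Integrable (fun ω => f0 ω - c1 * (c4 + fU ω / L.len) - c2 * (fU ω / L.len)) μ :=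
    a3.sub a2'
  have a4 : Integrable (fun ω => f0 ω - c1 * (c4 + fU ω / L.len) - c2 * (fU ω / L.len) - c3) μ :=
    a3'.sub (integrable_const _)
  have a5 : Integrable (fun ω => 9 / 16 * (f0 ω - c1 * (c4 + fU ω / L.len) -
      c2 * (fU ω / L.len) - c3)) μ :=
    a4.const_mul _
  have hI := integral_mono a5 i1 hpt
  have b1 : ∫ ω, (c4 + fU ω / L.len) ∂μ = c4 + (∫ ω, fU ω ∂μ) / L.len := by
    rw [integral_add (integrable_const _) (iU.div_const _), integral_div]
    simp
  have b2 : ∫ ω, 9 / 16 * (f0 ω - c1 * (c4 + fU ω / L.len) - c2 * (fU ω / L.len) - c3) ∂μ =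
      9 / 16 * (∫ ω, f0 ω ∂μ - c1 * (c4 + (∫ ω, fU ω ∂μ) / L.len) -
        c2 * ((∫ ω, fU ω ∂μ) / L.len) - c3) := by
    rw [integral_const_mul, integral_sub a3' (integrable_const _), integral_sub a3 a2',
      integral_sub i0 a2, integral_const_mul, integral_const_mul, b1, integral_div]
    simp
  rw [b2] at hI
  exact hI

theorem main_ineq {T V : ℝ} {A : Set ℕ} {L : Lay Lt W K E C} (hg : Good M μ A L T V)
    (hk : 0 < k) (H R1 R2 : ℕ) (hH : 0 < H) (hR1 : 0 < R1) (hR2 : 0 < R2)
    (hG : 0 < Fintype.card K) (hE : 0 < Fintype.card E) (r0 : ℝ) (hr0 : 0 ≤ r0) :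
    9 / 16 * (2 / 3 - T / H - 12 / (R1 * Fintype.card K) * (k + V) -
      6 * k / (R2 * Fintype.card K) * V - 8 * r0 / Fintype.card E -
      8 * Fintype.card (TT L k Q R1 R2 H) * Real.exp (-r0 / 98)) ≤ 1 / 3 := by
  have h1 := integrated M μ hg H _ _ _ _ (pointwise M hg.pad hk H R1 R2 hR1 hR2 r0 hr0)
  have hR1' : (0 : ℝ) < R1 := by exact_mod_cast hR1
  have hR2' : (0 : ℝ) < R2 := by exact_mod_cast hR2
  have hG' : (0 : ℝ) < Fintype.card K := by exact_mod_cast hG
  have hE' : (0 : ℝ) < Fintype.card E := by exact_mod_cast hE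
  have hlen : (0 : ℝ) < L.len := by exact_mod_cast L.hlen
  have hZ : (0 : ℝ) < Fintype.card (ZZ K E) := by
    have : Nonempty (ZZ K E) := ⟨fun _ => (fun _ => false, fun _ => false, fun _ => false)⟩
    exact_mod_cast Fintype.card_pos
  have s0 : Fintype.card (II K E) * (2 / 3 - T / H) ≤ ∑ i : II K E, μ.real (setNo M L H false i) := by
    rw [← nsmul_eq_mul, ← Finset.card_univ, ← Finset.sum_const]
    exact Finset.sum_le_sum fun i _ => prob_free M μ hg _ (inst_free i) H hH
  have s1 : ∑ i : II K E, μ.real (setNo M L H true i) ≤ Fintype.card (II K E) * (1 / 3) := by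
    rw [← nsmul_eq_mul, ← Finset.card_univ, ← Finset.sum_const]
    exact Finset.sum_le_sum fun i _ => prob_tri M μ hg _ (inst_tri i) H
  have sV : ∑ z : ZZ K E, ∑ p ∈ mvs k H L.len, μ.real (setV M A L z p) ≤
      Fintype.card (ZZ K E) * (L.len * V) := by
    rw [← nsmul_eq_mul, ← Finset.card_univ, ← Finset.sum_const]
    refine Finset.sum_le_sum fun z _ => ?_
    rw [Finset.sum_product]
    have h := hg.moves (base z) H
    refine le_trans (le_of_eq ?_) h
    refine Finset.sum_congr rfl fun t _ => ?_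
    rw [Finset.sum_product]
    rfl
  generalize (∑ i : II K E, μ.real (setNo M L H false i)) = S0 at *
  generalize (∑ i : II K E, μ.real (setNo M L H true i)) = S1 at *
  generalize (∑ z : ZZ K E, ∑ p ∈ mvs k H L.len, μ.real (setV M A L z p)) = SU at *
  rw [card_I] at s0 s1
  generalize (Fintype.card (TT L k Q R1 R2 H) : ℝ) = X at *
  generalize Real.exp (-r0 / 98) = Y at *
  generalize (Fintype.card (ZZ K E) : ℝ) = z at *
  have hP : (0 : ℝ) < 8 ^ Fintype.card E := by positivity
  generalize (8 : ℝ) ^ Fintype.card E = P at *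
  generalize (Fintype.card E : ℝ) = N at *
  generalize (L.len : ℝ) = l at *
  generalize (Fintype.card K : ℝ) = g at *
  have hc1 : 0 ≤ 12 * N * P / R1 := by positivity
  have hc2 : 0 ≤ 6 * (k : ℝ) * N * P / R2 := by positivity
  have hK : 0 < z * (g * (N * P)) := by positivity
  have h0 : SU / l ≤ z * V := by
    rw [div_le_iff₀ hlen]
    linarith
  have h2 : z * k + SU / l ≤ z * (k + V) := by linarith
  have h3 := mul_le_mul_of_nonneg_left h2 hc1
  have h3' := mul_le_mul_of_nonneg_left h0 hc2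
  have e1 : 12 * N * P / R1 * (z * (k + V)) =
      z * (g * (N * P)) * (12 / (R1 * g) * (k + V)) := by
    field_simp
  have e1' : 6 * (k : ℝ) * N * P / R2 * (z * V) =
      z * (g * (N * P)) * (6 * k / (R2 * g) * V) := by
    field_simp
  have e2 : z * g * (8 * r0 * P + X * (8 * (N * P * Y))) =
      z * (g * (N * P)) * (8 * r0 / N + 8 * X * Y) := by
    field_simp
  rw [e1] at h3
  rw [e1'] at h3'
  rw [e2] at h1
  have h4 : z * (g * (N * P)) * (9 / 16 * (2 / 3 - T / H - 12 / (R1 * g) * (k + V) -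
      6 * k / (R2 * g) * V - 8 * r0 / N - 8 * X * Y)) ≤ z * (g * (N * P)) * (1 / 3) := by
    linarith
  exact le_of_mul_le_mul_left h4 hK

end Main

end Pool.Agent.HLP
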