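import Mathlib
import Pool.Agent.HDL.Read
import Pool.Agent.HLP.Rand

/-!
# The machine has to read the tape
-/

set_option linter.unusedSectionVars false

open MeasureTheory

namespace Pool.Agent.HLP

open Finset
open Pool.Agent.HDL (Machine Conf Lay Dat dat dat_eq dat_ne f0 f1 f1_cont run_same ans_none)

variable {Lt k : ℕ} {W K E C Q Ω : Type} [Fintype K] [DecidableEq K] [Fintype E] [DecidableEq E]
  (M : Machine Lt k W Q Ω)

/-- a bit that is seen is seen at the beginning or after a move of a head -/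
lemma first_seen {A : Set ℕ} {L : Lay Lt W K E C} (hP : Padded A L) (hk : 0 < k) (ω : Ω)
    (G : Fin Lt → W) (a : K × E × Bool) (t : ℕ) (i : Fin k)
    (hans : M.answer (M.run ω G t) = none) (hi : L.adr ((M.run ω G t).2 i) = some a) :
    (∃ i, L.adr ((M.run ω G 0).2 i) = some a) ∨ ∃ s < t, ∃ i,
      (M.answer (M.run ω G s) = none ∧ 0 < dist A (M.run ω G s) ((M.run ω G (s + 1)).2 i)) ∧
        L.adr ((M.run ω G (s + 1)).2 i) = some a := by
  classical
  have hex : ∃ t, ∃ i, L.adr ((M.run ω G t).2 i) = some a := ⟨t, i, hi⟩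
  obtain ⟨i0, hi0⟩ := Nat.find_spec hex
  have hle : Nat.find hex ≤ t := Nat.find_min' hex ⟨i, hi⟩
  have hmin := fun m (hm : m < Nat.find hex) => Nat.find_min hex hm
  generalize Nat.find hex = t0 at *
  rcases t0 with _ | s
  · exact Or.inl ⟨i0, hi0⟩
  · right
    refine ⟨s, by omega, i0, ⟨ans_none M ω G (by omega) hans, ?_⟩, hi0⟩
    by_contra hcon
    have h0 : dist A (M.run ω G s) ((M.run ω G (s + 1)).2 i0) = 0 := by omega
    have hs := dist_spec A (M.run ω G s) ((M.run ω G (s + 1)).2 i0) hk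
    rw [h0] at hs
    rcases hs with ⟨h', h1, h2⟩ | ⟨b, hb, h1, h2⟩
    · have h3 : (M.run ω G (s + 1)).2 i0 = (M.run ω G s).2 h' := Fin.ext (by omega)
      rw [h3] at hi0
      exact hmin s (by omega) ⟨h', hi0⟩
    · have h3 := hP b hb ((M.run ω G (s + 1)).2 i0) (by omega) (by omega)
      rw [h3] at hi0
      exact absurd hi0 (by simp)

variable [Fintype Q] [MeasurableSpace Ω] (μ : Measure Ω) [IsProbabilityMeasure μ]

lemma read_cell {A : Set ℕ} {L : Lay Lt W K E C} {T V : ℝ} (hg : Good M μ A L T V) (hk : 0 < k)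
    (κ : K) (e : E) (m : ℕ) (hm : 0 < m) :
    1 / 3 - T / m ≤ ∑ i : Fin k,
      μ.real {ω | L.adr ((M.run ω (L.cont (f0 K E)) 0).2 i) = some (κ, e, true)} +
      ∑ t ∈ Finset.range m, ∑ i : Fin k,
      μ.real ({ω | M.answer (M.run ω (L.cont (f0 K E)) t) = none ∧ 0 < dist A
        (M.run ω (L.cont (f0 K E)) t) ((M.run ω (L.cont (f0 K E)) (t + 1)).2 i)} ∩
        {ω | L.adr ((M.run ω (L.cont (f0 K E)) (t + 1)).2 i) = some (κ, e, true)}) := by
  have h1 := prob_free M μ hg (f0 K E) (fun _ _ _ => rfl) m hm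
  have h2 := prob_tri M μ hg (f1 κ e) ⟨κ, e, by unfold f1; rw [dat_eq], by
    unfold f1
    rw [dat_eq]
    simp⟩ m
  set B : Set Ω := ⋃ i ∈ (Finset.univ : Finset (Fin k)),
    {ω | L.adr ((M.run ω (L.cont (f0 K E)) 0).2 i) = some (κ, e, true)} with hB
  set B' : Set Ω := ⋃ t ∈ Finset.range m, ⋃ i ∈ (Finset.univ : Finset (Fin k)),
      ({ω | M.answer (M.run ω (L.cont (f0 K E)) t) = none ∧ 0 < dist A
        (M.run ω (L.cont (f0 K E)) t) ((M.run ω (L.cont (f0 K E)) (t + 1)).2 i)} ∩
        {ω | L.adr ((M.run ω (L.cont (f0 K E)) (t + 1)).2 i) = some (κ, e, true)}) with hB'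
  have h3 : μ.real {ω | M.answer (M.run ω (L.cont (f0 K E)) m) = some false} ≤
      μ.real ({ω | M.answer (M.run ω (L.cont (f1 κ e)) m) = some false} ∪ (B ∪ B')) := by
    apply measureReal_mono
    · intro ω hω
      by_cases hno : ∀ t < m, M.answer (M.run ω (L.cont (f0 K E)) t) = none →
        ∀ i, L.adr ((M.run ω (L.cont (f0 K E)) t).2 i) ≠ some (κ, e, true)
      · left
        rw [Set.mem_ofPred_eq, run_same M L ω κ e m hno]
        exact hω
      · right
        push Not at hno
        obtain ⟨t, ht, hans, i, hi⟩ := hno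
        rcases first_seen M hg.pad hk ω _ _ t i hans hi with ⟨j, hj⟩ | ⟨s, hs, j, hj1, hj2⟩
        · left
          rw [hB]
          simp only [Set.mem_iUnion]
          exact ⟨j, Finset.mem_univ _, hj⟩
        · right
          rw [hB']
          simp only [Set.mem_iUnion]
          exact ⟨s, Finset.mem_range.2 (hs.trans ht), j, Finset.mem_univ _, hj1, hj2⟩
    · exact measure_ne_top _ _
  have h4 := measureReal_union_le (μ := μ)
    {ω | M.answer (M.run ω (L.cont (f1 κ e)) m) = some false} (B ∪ B')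
  have h4' := measureReal_union_le (μ := μ) B B'
  have h5 : μ.real B ≤ ∑ i : Fin k,
      μ.real {ω | L.adr ((M.run ω (L.cont (f0 K E)) 0).2 i) = some (κ, e, true)} :=
    measureReal_biUnion_finset_le _ _
  have h6 : μ.real B' ≤ ∑ t ∈ Finset.range m, ∑ i : Fin k,
      μ.real ({ω | M.answer (M.run ω (L.cont (f0 K E)) t) = none ∧ 0 < dist A
        (M.run ω (L.cont (f0 K E)) t) ((M.run ω (L.cont (f0 K E)) (t + 1)).2 i)} ∩
        {ω | L.adr ((M.run ω (L.cont (f0 K E)) (t + 1)).2 i) = some (κ, e, true)}) := by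
    refine (measureReal_biUnion_finset_le _ _).trans ?_
    exact Finset.sum_le_sum fun t _ => measureReal_biUnion_finset_le _ _
  linarith

/-- The machine has to read most of the bits. -/
theorem read_bound {A : Set ℕ} {L : Lay Lt W K E C} {T V : ℝ} (hg : Good M μ A L T V) (hk : 0 < k)
    (m : ℕ) (hm : 0 < m) :
    (1 / 3 - T / m) * (Fintype.card K * Fintype.card E) ≤ k + T := by
  classical
  have h2 := Finset.sum_le_sum fun p (_ : p ∈ (Finset.univ : Finset (K × E))) =>
    read_cell M μ hg hk p.1 p.2 m hm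
  rw [Finset.sum_const, Finset.card_univ, Fintype.card_prod, nsmul_eq_mul] at h2
  have hdis : ∀ (X : Set Ω) (t : ℕ) (i : Fin k), MeasurableSet X → ∑ p : K × E,
      μ.real (X ∩ {ω | L.adr ((M.run ω (L.cont (f0 K E)) t).2 i) = some (p.1, p.2, true)}) ≤
      μ.real X := by
    intro X t i hX
    rw [← measureReal_biUnion_finset]
    · apply measureReal_mono
      · intro ω hω
        simp only [Set.mem_iUnion] at hω
        obtain ⟨p, _, hp, _⟩ := hω
        exact hp
      · exact measure_ne_top _ _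
    · intro p _ p' _ hpp
      rw [Function.onFun, Set.disjoint_left]
      rintro ω ⟨_, h4⟩ ⟨_, h5⟩
      apply hpp
      rw [Set.mem_ofPred_eq] at h4 h5
      rw [h4] at h5
      simp only [Option.some.injEq, Prod.mk.injEq, and_true] at h5
      exact Prod.ext h5.1 h5.2
    · intro p _
      exact hX.inter (meas_pair M μ hg _ t t (fun c _ => L.adr (c.2 i) = some (p.1, p.2, true)))
  have h3 : ∑ p : K × E, (∑ i : Fin k,
      μ.real {ω | L.adr ((M.run ω (L.cont (f0 K E)) 0).2 i) = some (p.1, p.2, true)} +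
      ∑ t ∈ Finset.range m, ∑ i : Fin k,
      μ.real ({ω | M.answer (M.run ω (L.cont (f0 K E)) t) = none ∧ 0 < dist A
        (M.run ω (L.cont (f0 K E)) t) ((M.run ω (L.cont (f0 K E)) (t + 1)).2 i)} ∩
        {ω | L.adr ((M.run ω (L.cont (f0 K E)) (t + 1)).2 i) = some (p.1, p.2, true)})) ≤
      k + T := by
    rw [Finset.sum_add_distrib]
    refine add_le_add ?_ ?_
    · rw [Finset.sum_comm]
      have h4 : ∀ i : Fin k, ∑ p : K × E,
          μ.real {ω | L.adr ((M.run ω (L.cont (f0 K E)) 0).2 i) = some (p.1, p.2, true)} ≤ 1 := by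
        intro i
        have h5 := hdis Set.univ 0 i MeasurableSet.univ
        simp only [Set.univ_inter] at h5
        refine h5.trans ?_
        simp
      refine (Finset.sum_le_sum fun i _ => h4 i).trans ?_
      simp
    · refine le_trans ?_ (hg.steps (f0 K E) m)
      rw [Finset.sum_comm]
      refine Finset.sum_le_sum fun t _ => ?_
      rw [Finset.sum_comm]
      refine Finset.sum_le_sum fun i _ => ?_
      exact hdis _ (t + 1) i (meas_pair M μ hg _ t (t + 1) (fun c c' => M.answer c = none ∧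
        0 < dist A c (c'.2 i)))
  have h5 := h2.trans h3
  push_cast at h5
  linarith

end Pool.Agent.HLP
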