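import Mathlib
import Pool.Agent.HDL.Cost
import Pool.Agent.HLP.Read

/-!
# Seek costs
-/

set_option linter.unusedSectionVars false

open MeasureTheory

namespace Pool.Agent.HLP

open Finset
open Pool.Agent.HDL (Machine Conf Lay Dat SeekCost meas_two int_two int_sum min_eq_sum)

lemma moveCost_nonneg {f : ℕ → ℝ} (hf : SeekCost f) (D : ℕ) : 0 ≤ moveCost f D := by
  unfold moveCost
  split_ifs with h
  · exact le_rfl
  · have := hf.one_le (Nat.one_le_iff_ne_zero.2 h)
    linarith

lemma moveCost_min {f : ℕ → ℝ} (hf : SeekCost f) (D l : ℕ) :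
    (min D l : ℕ) * f l ≤ l * moveCost f D := by
  unfold moveCost
  split_ifs with h
  · rw [h]
    simp
  · exact hf.min_le (Nat.one_le_iff_ne_zero.2 h)

variable {Lt k : ℕ} {W Q Ω : Type} [Fintype Q] [MeasurableSpace Ω]
  (M : Machine Lt k W Q Ω) (μ : Measure Ω) [IsProbabilityMeasure μ] (G : Fin Lt → W)

theorem cost_bounds (A : Set ℕ)
    (hm : ∀ (t : ℕ) (c : Conf Lt k Q), MeasurableSet {ω | M.run ω G t = c})
    (f : ℕ → ℝ) (hf : SeekCost f) (T : ℝ) (m : ℕ)
    (hT : ∑ t ∈ Finset.range m, ∫ ω, cost M A f ω G t ∂μ ≤ T) (l : ℕ) (hl : 0 < l) :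
    (∑ t ∈ Finset.range m, μ.real {ω | M.answer (M.run ω G t) = none} ≤ T) ∧
    (∑ t ∈ Finset.range m, ∑ h : Fin k, ∑ j ∈ Finset.range l,
      μ.real {ω | M.answer (M.run ω G t) = none ∧
        j < dist A (M.run ω G t) ((M.run ω G (t + 1)).2 h)} ≤ l * (T / f l)) := by
  classical
  have hl0 : (0 : ℝ) < l := by exact_mod_cast hl
  have hfl : 0 < f l := lt_of_lt_of_le one_pos (hf.one_le hl)
  have hint : ∀ t, Integrable (fun ω => cost M A f ω G t) μ := by
    intro t
    exact int_two M μ G hm t (t + 1) (fun c c' => if (M.answer c).isSome then 0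
      else max 1 (∑ h, moveCost f (dist A c (c'.2 h))))
  constructor
  · refine (Finset.sum_le_sum fun t _ => ?_).trans hT
    have hms := meas_two M G hm t t (fun c _ => M.answer c = none)
    have h1 : μ.real {ω | M.answer (M.run ω G t) = none} =
        ∫ ω, ({ω | M.answer (M.run ω G t) = none}).indicator (fun _ => (1 : ℝ)) ω ∂μ := by
      rw [integral_indicator_const _ hms]
      simp
    rw [h1]
    refine integral_mono ((integrable_const 1).indicator hms) (hint t) ?_
    intro ω
    simp only
    unfold cost
    rw [Set.indicator_apply]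
    by_cases h2 : M.answer (M.run ω G t) = none
    · have h3 : ω ∈ {ω | M.answer (M.run ω G t) = none} := h2
      rw [if_pos h3, if_neg (by rw [h2]; simp)]
      exact le_max_left _ _
    · have h3 : ω ∉ {ω | M.answer (M.run ω G t) = none} := h2
      rw [if_neg h3, if_pos (Option.ne_none_iff_isSome.1 h2)]
  · have key : ∀ t, ∑ h : Fin k, ∑ j ∈ Finset.range l,
      μ.real {ω | M.answer (M.run ω G t) = none ∧
        j < dist A (M.run ω G t) ((M.run ω G (t + 1)).2 h)} ≤
          l / f l * ∫ ω, cost M A f ω G t ∂μ := by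
      intro t
      have v0 : ∑ h : Fin k, ∑ j ∈ Finset.range l,
          μ.real {ω | M.answer (M.run ω G t) = none ∧
            j < dist A (M.run ω G t) ((M.run ω G (t + 1)).2 h)} =
          ∑ p ∈ (Finset.univ : Finset (Fin k)) ×ˢ Finset.range l,
          μ.real {ω | M.answer (M.run ω G t) = none ∧
          p.2 < dist A (M.run ω G t) ((M.run ω G (t + 1)).2 p.1)} := by
        rw [Finset.sum_product]
      rw [v0]
      obtain ⟨i1, v1⟩ := int_sum μ ((Finset.univ : Finset (Fin k)) ×ˢ Finset.range l)
        (fun p => {ω | M.answer (M.run ω G t) = none ∧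
          p.2 < dist A (M.run ω G t) ((M.run ω G (t + 1)).2 p.1)})
        (fun p => meas_two M G hm t (t + 1) (fun c c' => M.answer c = none ∧
          p.2 < dist A c (c'.2 p.1)))
      have v2 : ∑ p ∈ (Finset.univ : Finset (Fin k)) ×ˢ Finset.range l,
          μ.real {ω | M.answer (M.run ω G t) = none ∧
          p.2 < dist A (M.run ω G t) ((M.run ω G (t + 1)).2 p.1)} = _ := v1.symm
      rw [v2, ← integral_const_mul]
      refine integral_mono i1 ((hint t).const_mul _) ?_
      intro ω
      simp only
      unfold cost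
      rw [Finset.sum_product]
      by_cases h2 : M.answer (M.run ω G t) = none
      · rw [if_neg (by rw [h2]; simp)]
        have h3 : ∀ h : Fin k, ∑ j ∈ Finset.range l, ({ω | M.answer (M.run ω G t) = none ∧
          j < dist A (M.run ω G t) ((M.run ω G (t + 1)).2 h)}).indicator (fun _ => (1 : ℝ)) ω =
            (min (dist A (M.run ω G t) ((M.run ω G (t + 1)).2 h)) l : ℕ) := by
          intro h
          rw [min_eq_sum]
          push_cast
          refine Finset.sum_congr rfl fun j _ => ?_
          rw [Set.indicator_apply]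
          refine if_congr ?_ rfl rfl
          exact ⟨fun h => h.2, fun h => ⟨h2, h⟩⟩
        rw [Finset.sum_congr rfl fun h _ => h3 h]
        have h4 : ∀ h : Fin k, ((min (dist A (M.run ω G t) ((M.run ω G (t + 1)).2 h)) l : ℕ) : ℝ) ≤
            l / f l * moveCost f (dist A (M.run ω G t) ((M.run ω G (t + 1)).2 h)) := by
          intro h
          have h5 := moveCost_min hf (dist A (M.run ω G t) ((M.run ω G (t + 1)).2 h)) l
          have h6 : (l : ℝ) / f l * moveCost f (dist A (M.run ω G t) ((M.run ω G (t + 1)).2 h)) =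
            l * moveCost f (dist A (M.run ω G t) ((M.run ω G (t + 1)).2 h)) / f l := by ring
          rw [h6, le_div_iff₀ hfl]
          exact h5
        refine (Finset.sum_le_sum fun h _ => h4 h).trans ?_
        rw [← Finset.mul_sum]
        exact mul_le_mul_of_nonneg_left (le_max_right _ _) (by positivity)
      · rw [if_pos (Option.ne_none_iff_isSome.1 h2), mul_zero]
        apply le_of_eq
        apply Finset.sum_eq_zero
        intro h _
        apply Finset.sum_eq_zero
        intro j _
        rw [Set.indicator_of_notMem]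
        rintro ⟨h3, _⟩
        exact h2 h3
    refine (Finset.sum_le_sum fun t _ => key t).trans ?_
    rw [← Finset.mul_sum]
    have h1 := mul_le_mul_of_nonneg_left hT (by positivity : (0 : ℝ) ≤ l / f l)
    refine h1.trans (le_of_eq ?_)
    ring

end Pool.Agent.HLP
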