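import Mathlib
import Pool.Agent.HDL.Lay

/-!
# The tape determines the graph; the number of bits is at most the number of cells
-/

set_option linter.unusedSectionVars false

namespace Pool.Agent.HLP

open Pool.Agent.HDL (Lay Dat HasDegrees tape lists)

lemma flatMap_inj {α β : Type} (f g : α → List β) (l : List α)
    (hlen : ∀ a ∈ l, (f a).length = (g a).length) (h : l.flatMap f = l.flatMap g) :
    ∀ a ∈ l, f a = g a := by
  induction l with
  | nil => simp
  | cons x l ih =>
    rw [List.flatMap_cons, List.flatMap_cons] at h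
    have h1 := List.append_inj h (hlen x (by simp))
    intro a ha
    rcases List.mem_cons.1 ha with rfl | ha
    · exact h1.1
    · exact ih (fun a ha => hlen a (by simp [ha])) h1.2 a ha

open Classical in
lemma deg_eq {n : ℕ} {d : Fin n → ℕ} {G : SimpleGraph (Fin n)} (hG : HasDegrees G d) (v : Fin n) :
    (G.neighborFinset v).card = d v := by
  rw [← hG v, Set.ncard_eq_toFinset_card', SimpleGraph.neighborFinset]

/-- the tape determines the graph -/
theorem tape_inj {n : ℕ} {d : Fin n → ℕ} {G H : SimpleGraph (Fin n)} (hG : HasDegrees G d)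
    (hH : HasDegrees H d) (h : tape d G = tape d H) : G = H := by
  classical
  have key : ∀ G : SimpleGraph (Fin n), HasDegrees G d →
      ∃ F : Fin n → List (Fin n), lists G = (List.finRange n).flatMap F ∧
        (∀ v, (F v).length = d v) ∧ ∀ v w, w ∈ F v ↔ G.Adj v w := by
    intro G hG
    refine ⟨fun v => by classical exact (G.neighborFinset v).sort (· ≤ ·), rfl, ?_, ?_⟩
    · intro v
      rw [Finset.length_sort]
      convert deg_eq hG v
    · intro v w
      rw [Finset.mem_sort, SimpleGraph.mem_neighborFinset]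
  obtain ⟨F, hF1, hF2, hF3⟩ := key G hG
  obtain ⟨F', hF1', hF2', hF3'⟩ := key H hH
  have hl : ∀ (F : Fin n → List (Fin n)), (∀ v, (F v).length = d v) →
      ((List.finRange n).flatMap F).length = ∑ v, d v := by
    intro F hF
    rw [List.length_flatMap]
    have : (List.map (fun a => (F a).length) (List.finRange n)) = List.map d (List.finRange n) := by
      apply List.map_congr_left
      intro a _
      exact hF a
    rw [this, ← List.ofFn_eq_map, List.sum_ofFn]
  have h1 : (List.finRange n).flatMap F = (List.finRange n).flatMap F' := by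
    apply List.ext_getElem?
    intro i
    rcases lt_or_ge i (∑ v, d v) with hi | hi
    · have h2 := congrFun h ⟨i, hi⟩
      unfold tape at h2
      rw [hF1, hF1'] at h2
      exact h2
    · rw [List.getElem?_eq_none (by rw [hl F hF2]; exact hi),
        List.getElem?_eq_none (by rw [hl F' hF2']; exact hi)]
  have h2 := flatMap_inj F F' (List.finRange n) (fun a _ => by rw [hF2, hF2']) h1
  ext v w
  rw [← hF3, ← hF3', h2 v (List.mem_finRange v)]

/-- the number of bits is at most the number of cells -/
theorem bits_le {n : ℕ} {d : Fin n → ℕ} {K E C : Type} [Fintype K] [Fintype E]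
    (L : Lay (∑ i, d i) (Option (Fin n)) K E C) (Gr : Dat K E → SimpleGraph (Fin n))
    (h4 : ∀ F, HasDegrees (Gr F) d) (h5 : ∀ F, L.cont F = tape d (Gr F))
    (h6 : ∀ F, (Gr F).CliqueFree 3 ↔ ∀ κ e, (F κ).1 e = true → (F κ).2 e = false) :
    Fintype.card K * Fintype.card E ≤ ∑ i, d i := by
  classical
  have key : ∀ x : K × E, ∃ p, L.adr p = some (x.1, x.2, true) := by
    rintro ⟨κ, e⟩
    by_contra hcon
    push Not at hcon
    set F : Dat K E := fun _ => (fun _ => true, fun _ => false) with hF
    set F' : Dat K E := fun κ' => (fun _ => true, fun e' => decide (κ' = κ ∧ e' = e)) with hF'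
    have h1 : L.cont F = L.cont F' := by
      funext p
      apply L.congr
      · intro κ' e' _
        rfl
      · intro κ' e' hp
        have h2 : ¬ (κ' = κ ∧ e' = e) := by
          rintro ⟨rfl, rfl⟩
          exact hcon p hp
        simp only [hF, hF', h2, decide_false]
    rw [h5, h5] at h1
    have h2 := tape_inj (h4 F) (h4 F') h1
    have h3 : (Gr F).CliqueFree 3 := (h6 F).2 (fun _ _ _ => rfl)
    rw [h2] at h3
    have h7 := (h6 F').1 h3 κ e rfl
    simp [hF'] at h7
  choose φ hφ using key
  have hinj : Function.Injective φ := by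
    intro x y hxy
    have h1 := hφ x
    rw [hxy, hφ y] at h1
    simp only [Option.some.injEq, Prod.mk.injEq, and_true] at h1
    exact Prod.ext h1.1.symm h1.2.symm
  have := Fintype.card_le_of_injective φ hinj
  rwa [Fintype.card_prod, Fintype.card_fin] at this

/-- there are graphs with and without triangles -/
theorem both_kinds {n : ℕ} {d : Fin n → ℕ} {K E : Type} [Nonempty K] [Nonempty E]
    (Gr : Dat K E → SimpleGraph (Fin n)) (h4 : ∀ F, HasDegrees (Gr F) d)
    (h6 : ∀ F, (Gr F).CliqueFree 3 ↔ ∀ κ e, (F κ).1 e = true → (F κ).2 e = false) :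
    ∃ G H : SimpleGraph (Fin n), HasDegrees G d ∧ HasDegrees H d ∧ ¬ G.CliqueFree 3 ∧
      H.CliqueFree 3 := by
  obtain ⟨κ⟩ := ‹Nonempty K›
  obtain ⟨e⟩ := ‹Nonempty E›
  refine ⟨Gr fun _ => (fun _ => true, fun _ => true), Gr fun _ => (fun _ => false, fun _ => false),
    h4 _, h4 _, fun hfree => ?_, (h6 _).2 fun _ _ _ => rfl⟩
  exact Bool.noConfusion ((h6 _).1 hfree κ e rfl)

/-- the sum of the degrees is even -/
theorem even_sum {n : ℕ} {d : Fin n → ℕ} {G : SimpleGraph (Fin n)} (hG : HasDegrees G d) :
    ∑ i, d i = 2 * ((∑ i, d i) / 2) := by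
  classical
  have h1 : ∑ i, d i = ∑ i, G.degree i := by
    apply Finset.sum_congr rfl
    intro v _
    rw [← deg_eq hG v, SimpleGraph.card_neighborFinset_eq_degree]
  rw [h1, SimpleGraph.sum_degrees_eq_twice_card_edges]
  omega

end Pool.Agent.HLP
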