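import Mathlib
import Pool.Agent.HDL.Final
import Pool.Agent.HLL.Main
import Pool.Agent.HLP.Cost
import Pool.Agent.HLP.Tape

/-!
# The hard graphs and the number of transcripts
-/

set_option linter.unusedSectionVars false

open MeasureTheory

namespace Pool.Agent.HLP

open Pool.Agent.HDL (Machine Conf Lay Dat SeekCost LMachine DetectsTriangles HasDegrees tape EE
  S_BETA S_ALPHA S_GAD2 Frame frame_exists set_false set_true two_pow_le_exp)
open Pool.Agent.HLL (starts S_GADP)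

/-- the place of the lists -/
lemma places_true {n : ℕ} (d : Fin n → ℕ) : places true d = starts d := by
  ext a
  unfold places starts
  simp

lemma places_false {n : ℕ} (d : Fin n → ℕ) : places false d = ∅ := by
  ext a
  unfold places
  simp

/-- good machines from triangle detection -/
theorem good_of {v : ℕ} {d : Fin v → ℕ} {K E C : Type} (ra : Bool)
    (L : Lay (∑ i, d i) (Option (Fin v)) K E C) (Gr : Dat K E → SimpleGraph (Fin v))
    (h4 : ∀ F, HasDegrees (Gr F) d) (h5 : ∀ F, L.cont F = tape d (Gr F))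
    (h6 : ∀ F, (Gr F).CliqueFree 3 ↔ ∀ κ e, (F κ).1 e = true → (F κ).2 e = false)
    (h7 : Padded (places ra d) L) (f : ℕ → ℝ) (hf : SeekCost f) (k : ℕ) (T : ℝ) (Q Ω : Type)
    [Fintype Q] [MeasurableSpace Ω] (μ : Measure Ω) [IsProbabilityMeasure μ] (M : LMachine d k Q Ω)
    (hd : DetectsTriangles M μ) (hT : ExpectedCostLE M μ ra f T) :
    Good M μ (places ra d) L T (T / f L.len) := by
  have hcb := fun F m l hl => cost_bounds M μ (L.cont F) (places ra d) (fun t c => by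
    rw [h5 F]
    exact hd.1 (Gr F) (h4 F) t c) f hf T m (by
    rw [h5 F]
    exact hT (Gr F) (h4 F) m) l hl
  refine ⟨h7, ?_, ?_, ?_, fun F m => (hcb F m 1 one_pos).1, fun F m => (hcb F m L.len L.hlen).2, ?_⟩
  · intro F t c
    rw [h5 F]
    exact hd.1 (Gr F) (h4 F) t c
  · intro F hF
    rw [h5 F]
    exact (hd.2 (Gr F) (h4 F)).trans (set_false M μ (Gr F) ((h6 F).2 hF))
  · intro F hF
    rw [h5 F]
    refine (hd.2 (Gr F) (h4 F)).trans (set_true M μ (Gr F) ?_)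
    intro hfree
    obtain ⟨κ, e, hx, hy⟩ := hF
    have := (h6 F).1 hfree κ e hx
    rw [hy] at this
    exact absurd this (by decide)
  · intro F m
    have h := (hcb F m 1 one_pos).2
    rw [hf.1] at h
    simp only [Finset.range_one, Finset.sum_singleton, Nat.cast_one, div_one, one_mul] at h
    exact h

/-- hard graphs with at most `m` edges, for all numbers `v ≥ n` of vertices -/
def Inst (ra : Bool) (n m a b c : ℕ) : Prop :=
  ∃ (K E : Type) (_ : Fintype K) (_ : DecidableEq K) (_ : Fintype E) (_ : DecidableEq E) (e : ℕ),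
    e ≤ m ∧ Fintype.card K * Fintype.card E ≤ 2 * e ∧ Fintype.card K = 2 ^ a ∧
    (2 : ℝ) ^ a * 2 ^ b * 2 ^ c ≤ Fintype.card E * EE (2 ^ c) ^ 3 ∧
    ∀ v ≥ n, ∃ (d : Fin v → ℕ) (L : Lay (∑ i, d i) (Option (Fin v)) K E (Option (ℕ × ℕ))),
      ∑ i, d i = 2 * e ∧
      (∃ G H : SimpleGraph (Fin v), HasDegrees G d ∧ HasDegrees H d ∧ ¬ G.CliqueFree 3 ∧
        H.CliqueFree 3) ∧
      L.b0 = 3 * 2 ^ b ∧ (2 : ℝ) ^ a * 2 ^ b ≤ L.len * EE (2 ^ c) ^ 2 ∧
      ∀ (f : ℕ → ℝ), SeekCost f → ∀ (k : ℕ) (T : ℝ) (Q Ω : Type) [Fintype Q] [MeasurableSpace Ω]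
        (μ : Measure Ω) [IsProbabilityMeasure μ] (M : LMachine d k Q Ω),
        DetectsTriangles M μ → ExpectedCostLE M μ ra f T →
          Good M μ (places ra d) L T (T / f L.len)

/-- assembling the data of the hard graphs -/
lemma inst_of {ra : Bool} {n m a b c : ℕ} {K E : Type} [Fintype K] [DecidableEq K] [Fintype E]
    [DecidableEq E] {len b0 D0 : ℕ} (hD0 : D0 ≤ 2 * m) (hb0 : b0 = 3 * 2 ^ b)
    (hK : Fintype.card K = 2 ^ a) (hlen : (2 : ℝ) ^ a * 2 ^ b ≤ len * EE (2 ^ c) ^ 2)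
    (hE : (2 : ℝ) ^ a * 2 ^ b * 2 ^ c ≤ Fintype.card E * EE (2 ^ c) ^ 3)
    (hall : ∀ v ≥ n, ∃ (d : Fin v → ℕ) (L : Lay (∑ i, d i) (Option (Fin v)) K E (Option (ℕ × ℕ)))
      (Gr : Dat K E → SimpleGraph (Fin v)),
      L.len = len ∧ L.b0 = b0 ∧ ∑ i, d i = D0 ∧ (∀ F, HasDegrees (Gr F) d) ∧
      (∀ F, L.cont F = tape d (Gr F)) ∧
      (∀ F, (Gr F).CliqueFree 3 ↔ ∀ κ e, (F κ).1 e = true → (F κ).2 e = false) ∧
      Padded (places ra d) L) : Inst ra n m a b c := by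
  have hKn : Nonempty K := by
    rw [← Fintype.card_pos_iff, hK]
    positivity
  have hEn : Nonempty E := by
    rw [← Fintype.card_pos_iff]
    by_contra hcon
    have h1 : Fintype.card E = 0 := by omega
    rw [h1] at hE
    have h2 : (0 : ℝ) < 2 ^ a * 2 ^ b * 2 ^ c := by positivity
    simp only [Nat.cast_zero, zero_mul] at hE
    linarith
  obtain ⟨d, L, Gr, h1, h2, h3, h4, h5, h6, h7⟩ := hall n le_rfl
  have h8 := even_sum (h4 fun _ => (fun _ => true, fun _ => true))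
  have h9 := bits_le L Gr h4 h5 h6
  rw [h3] at h8 h9
  refine ⟨K, E, ‹_›, ‹_›, ‹_›, ‹_›, D0 / 2, by omega, by omega, hK, hE, ?_⟩
  intro v hv
  obtain ⟨d, L, Gr, h1, h2, h3, h4, h5, h6, h7⟩ := hall v hv
  refine ⟨d, L, by omega, both_kinds Gr h4 h6, by omega, ?_, ?_⟩
  · rw [h1]
    exact hlen
  · intro f hf k T Q Ω _ _ μ _ M hd hT
    exact good_of ra L Gr h4 h5 h6 h7 f hf k T Q Ω μ M hd hT

/-- the hard graphs for given parameters, with random access to the lists -/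
theorem inst_existsT (hB : S_BETA) (hA : S_ALPHA) (hD : S_GADP) (n m a b c : ℕ)
    (hc : c ≤ 2 * a + b) (hn : 96 * 2 ^ (2 * a + b) ≤ n) (hm : 72 * 2 ^ (2 * a + b) * 2 ^ c ≤ m)
    (hm2 : 672 * 2 ^ (3 * a + 2 * b) ≤ m) : Inst true n m a b c := by
  obtain ⟨K, E, i1, i2, i3, i4, Fr, g1, g2, g3, g4, g5, g6, g7⟩ :=
    frame_exists hB hA a b c hc
  obtain ⟨D0, hD0, hall⟩ := hD K E Fr (Fr.len + 1) (by omega)
  have e1 : 2 ^ a * 2 ^ b * 2 ^ (2 * a + b) = 2 ^ (3 * a + 2 * b) := by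
    rw [← pow_add, ← pow_add]
    congr 1
    omega
  have hP1 : Fr.len + 1 ≤ 2 * (2 ^ a * 2 ^ b) := by
    have : 0 < 2 ^ a * 2 ^ b := by positivity
    omega
  have hP2 : 2 ^ a * 2 ^ b ≤ 2 ^ (2 * a + b) := by
    rw [← pow_add]
    exact Nat.pow_le_pow_right (by norm_num) (by omega)
  have hpad : 12 * (Fr.len + 1) * Fr.Γ ≤ m := by
    calc 12 * (Fr.len + 1) * Fr.Γ ≤ 12 * (2 * (2 ^ a * 2 ^ b)) * (28 * 2 ^ (2 * a + b)) := by gcongr
      _ = 672 * (2 ^ a * 2 ^ b * 2 ^ (2 * a + b)) := by ring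
      _ ≤ m := by
        rw [e1]
        exact hm2
  have hD0m : D0 ≤ 2 * m := by
    have h1 := g2.trans hm
    omega
  refine inst_of hD0m g4 g5 g6 g7 fun v hv => ?_
  obtain ⟨d, L, Gr, h1, h2, h3, h4, h5, h6, h7⟩ := hall v (by omega)
  refine ⟨d, L, Gr, h1, h2, h3, h4, h5, h6, ?_⟩
  rw [places_true]
  exact h7

/-- the hard graphs for given parameters, without random access to the lists -/
theorem inst_existsF (hB : S_BETA) (hA : S_ALPHA) (hD : S_GAD2) (n m a b c : ℕ)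
    (hc : c ≤ 2 * a + b) (hn : 84 * 2 ^ (2 * a + b) ≤ n)
    (hm : 36 * 2 ^ (2 * a + b) * 2 ^ c ≤ m) : Inst false n m a b c := by
  obtain ⟨K, E, i1, i2, i3, i4, Fr, g1, g2, g3, g4, g5, g6, g7⟩ :=
    frame_exists hB hA a b c hc
  obtain ⟨D0, hD0, hall⟩ := hD K E Fr
  have hD0m : D0 ≤ 2 * m := by
    refine hD0.trans (g2.trans ?_)
    calc 72 * 2 ^ (2 * a + b) * 2 ^ c = 2 * (36 * 2 ^ (2 * a + b) * 2 ^ c) := by ring
      _ ≤ 2 * m := Nat.mul_le_mul_left _ hm
  refine inst_of hD0m g4 g5 g6 g7 fun v hv => ?_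
  obtain ⟨d, L, Gr, h1, h2, h3, h4, h5, h6⟩ := hall v (by omega)
  refine ⟨d, L, Gr, h1, h2, h3, h4, h5, h6, ?_⟩
  rw [places_false]
  exact fun a ha => absurd ha (Set.notMem_empty a)

lemma card_Full {Lt k : ℕ} {W K E C Q : Type} [Fintype Q] (L : Lay Lt W K E C) :
    Fintype.card (Full L k Q) = Fintype.card Q * Lt ^ k * 2 ^ (3 * (L.b0 * k)) := by
  have h1 : Fintype.card (Full L k Q) = (Fintype.card Q * Fintype.card (Fin k → Fin Lt)) *
      Fintype.card (Fin k → Fin (3 * L.b0) → Bool) := by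
    rw [← Fintype.card_prod, ← Fintype.card_prod]
  rw [h1]
  simp only [Fintype.card_fun, Fintype.card_bool, Fintype.card_fin]
  rw [← pow_mul]
  congr 2
  ring

lemma card_Small {Lt : ℕ} {W K E C : Type} (L : Lay Lt W K E C) :
    Fintype.card (Small L) = Lt * 2 ^ (3 * L.b0) := by
  have h1 : Fintype.card (Small L) = Fintype.card (Fin Lt) *
      Fintype.card (Fin (3 * L.b0) → Bool) := by
    rw [← Fintype.card_prod]
  rw [h1]
  simp only [Fintype.card_fun, Fintype.card_bool, Fintype.card_fin]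

lemma card_TT {Lt k : ℕ} {W K E C Q : Type} [Fintype Q] (L : Lay Lt W K E C) (R1 R2 H : ℕ) :
    Fintype.card (TT L k Q R1 R2 H) ≤
      ((H + 1) * Fintype.card (Full L k Q) + 1) ^ (R1 + 1) *
        ((((H + 1) * k) * Fintype.card (Small L) + 1) ^ (R2 + k) * 4) := by
  classical
  have h1 : Fintype.card (TT L k Q R1 R2 H) =
      Fintype.card {P : Fin (H + 1) → Option (Full L k Q) //
        (Finset.univ.filter fun t => P t ≠ none).card ≤ R1 + 1} *
      (Fintype.card {P : Fin (H + 1) × Fin k → Option (Small L) //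
        (Finset.univ.filter fun p => P p ≠ none).card ≤ R2 + k} *
        Fintype.card (Option (Option Bool))) := by
    rw [← Fintype.card_prod, ← Fintype.card_prod]
  rw [h1]
  refine Nat.mul_le_mul ?_ (Nat.mul_le_mul ?_ ?_)
  · refine (card_few (R1 + 1)).trans ?_
    rw [Fintype.card_fin]
  · refine (card_few (R2 + k)).trans ?_
    rw [Fintype.card_prod, Fintype.card_fin, Fintype.card_fin]
  · simp

end Pool.Agent.HLP
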