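import Mathlib
import Pool.Agent.HLP.Final
import Pool.Agent.HLP.Num

/-!
# The trade-off for small memory
-/

set_option linter.unusedSectionVars false

open MeasureTheory

namespace Pool.Agent.HLP

open Pool.Agent.HDL (Machine Conf Lay Dat SeekCost EE one_le_EE EE_cube two_pow_le_exp f0)
open Pool.Agent.HLL (sq_le_aux)

/-- the number of transcripts -/
lemma card_TT_exp {s Lt k : ℕ} {W K E C Q : Type} [Fintype Q] (L : Lay Lt W K E C)
    (R1 R2 H S : ℕ) (hs : 3 ≤ s) (hk : 1 ≤ k) (hks : k ≤ s) (hQ : Fintype.card Q ≤ 2 ^ S)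
    (hH : H + 1 ≤ s ^ 3) (hLt : Lt ≤ s ^ 3) (hb : (L.b0 : ℝ) * k ≤ 3 * (S + k * Real.log s)) :
    (Fintype.card (TT L k Q R1 R2 H) : ℝ) ≤
      4 * Real.exp (16 * ((S : ℝ) + k * Real.log s) * (R1 + 1) +
        (8 * Real.log s + 3 * L.b0) * (R2 + k)) := by
  have hs0 : (0 : ℝ) < s := by
    have : 0 < s := by omega
    exact_mod_cast this
  set l := Real.log s with hl
  have hsl : (s : ℝ) = Real.exp l := (Real.exp_log hs0).symm
  have hl1 : 1 ≤ l := by
    rw [hl, Real.le_log_iff_exp_le hs0]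
    have h1 := Real.exp_one_lt_d9
    have h2 : (3 : ℝ) ≤ s := by exact_mod_cast hs
    linarith
  have hs2 : ((s ^ 3 : ℕ) : ℝ) = Real.exp (3 * l) := by
    push_cast
    rw [hsl, ← Real.exp_nat_mul]
    norm_num
  have hk1 : (1 : ℝ) ≤ k := by exact_mod_cast hk
  have hS : (0 : ℝ) ≤ S := Nat.cast_nonneg _
  have hkl : l ≤ k * l := le_mul_of_one_le_left (by linarith) hk1
  have f1 : ((H + 1 : ℕ) : ℝ) ≤ Real.exp (3 * l) := by
    rw [← hs2]
    exact_mod_cast hH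
  have f2 : ((Fintype.card Q : ℕ) : ℝ) ≤ Real.exp S := by
    have h1 : ((Fintype.card Q : ℕ) : ℝ) ≤ (2 : ℝ) ^ S := by exact_mod_cast hQ
    exact h1.trans (two_pow_le_exp S)
  have f0 : ((Lt : ℕ) : ℝ) ≤ Real.exp (3 * l) := by
    rw [← hs2]
    exact_mod_cast hLt
  have f3 : ((Lt : ℕ) : ℝ) ^ k ≤ Real.exp (3 * k * l) := by
    refine (pow_le_pow_left₀ (Nat.cast_nonneg _) f0 k).trans (le_of_eq ?_)
    rw [← Real.exp_nat_mul]
    congr 1
    ring
  have f4 : (2 : ℝ) ^ (3 * (L.b0 * k)) ≤ Real.exp (9 * ((S : ℝ) + k * l)) := by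
    refine (two_pow_le_exp _).trans ?_
    apply Real.exp_le_exp.2
    push_cast
    linarith
  have f5 : ((k : ℕ) : ℝ) ≤ Real.exp l := by
    rw [← hsl]
    exact_mod_cast hks
  have f6 : (2 : ℝ) ^ (3 * L.b0) ≤ Real.exp (3 * L.b0) := by
    refine (two_pow_le_exp _).trans (le_of_eq ?_)
    congr 1
    push_cast
    ring
  have he2 : (2 : ℝ) ≤ Real.exp 1 := by
    have := Real.add_one_le_exp (1 : ℝ)
    linarith
  have plus : ∀ x : ℝ, 0 ≤ x → Real.exp x + 1 ≤ Real.exp (x + 1) := by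
    intro x hx
    have h1 : 1 ≤ Real.exp x := by
      rw [← Real.exp_zero]
      exact Real.exp_le_exp.2 hx
    rw [Real.exp_add]
    have h2 := mul_le_mul_of_nonneg_left he2 (Real.exp_pos x).le
    linarith
  -- full messages
  have g1 : (((H + 1) * Fintype.card (Full L k Q) + 1 : ℕ) : ℝ) ≤
      Real.exp (16 * ((S : ℝ) + k * l)) := by
    rw [card_Full]
    have h1 : (((H + 1) * (Fintype.card Q * Lt ^ k * 2 ^ (3 * (L.b0 * k))) + 1 : ℕ) : ℝ) =
        ((H + 1 : ℕ) : ℝ) * (((Fintype.card Q : ℕ) : ℝ) * ((Lt : ℕ) : ℝ) ^ k *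
          2 ^ (3 * (L.b0 * k))) + 1 := by
      push_cast
      ring
    rw [h1]
    have h2 : ((H + 1 : ℕ) : ℝ) * (((Fintype.card Q : ℕ) : ℝ) * ((Lt : ℕ) : ℝ) ^ k *
          2 ^ (3 * (L.b0 * k))) ≤ Real.exp (3 * l) * (Real.exp S * Real.exp (3 * k * l) *
          Real.exp (9 * ((S : ℝ) + k * l))) := by
      gcongr
    rw [← Real.exp_add, ← Real.exp_add, ← Real.exp_add] at h2
    refine (add_le_add_left h2 1).trans ((plus _ (by positivity)).trans ?_)
    apply Real.exp_le_exp.2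
    linarith
  -- small messages
  have g2 : ((((H + 1) * k) * Fintype.card (Small L) + 1 : ℕ) : ℝ) ≤
      Real.exp (8 * l + 3 * L.b0) := by
    rw [card_Small]
    have h1 : ((((H + 1) * k) * (Lt * 2 ^ (3 * L.b0)) + 1 : ℕ) : ℝ) =
        ((H + 1 : ℕ) : ℝ) * ((k : ℕ) : ℝ) * (((Lt : ℕ) : ℝ) * 2 ^ (3 * L.b0)) + 1 := by
      push_cast
      ring
    rw [h1]
    have h2 : ((H + 1 : ℕ) : ℝ) * ((k : ℕ) : ℝ) * (((Lt : ℕ) : ℝ) * 2 ^ (3 * L.b0)) ≤
        Real.exp (3 * l) * Real.exp l * (Real.exp (3 * l) * Real.exp (3 * L.b0)) := by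
      gcongr
    rw [← Real.exp_add, ← Real.exp_add, ← Real.exp_add] at h2
    refine (add_le_add_left h2 1).trans ((plus _ (by positivity)).trans ?_)
    apply Real.exp_le_exp.2
    linarith
  have h0 : (Fintype.card (TT L k Q R1 R2 H) : ℝ) ≤
      (((H + 1) * Fintype.card (Full L k Q) + 1 : ℕ) : ℝ) ^ (R1 + 1) *
        (((((H + 1) * k) * Fintype.card (Small L) + 1 : ℕ) : ℝ) ^ (R2 + k) * 4) := by
    have := card_TT (k := k) (Q := Q) L R1 R2 H
    exact_mod_cast this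
  refine h0.trans ?_
  have h1 := pow_le_pow_left₀ (Nat.cast_nonneg _) g1 (R1 + 1)
  have h2 := pow_le_pow_left₀ (Nat.cast_nonneg _) g2 (R2 + k)
  rw [← Real.exp_nat_mul] at h1 h2
  have h3 := mul_le_mul h1 (mul_le_mul_of_nonneg_right h2 (by norm_num : (0 : ℝ) ≤ 4))
    (by positivity) (Real.exp_pos _).le
  refine h3.trans (le_of_eq ?_)
  rw [Real.exp_add]
  push_cast
  ring_nf

/-- the trade-off for small memory -/
theorem core_bound {Lt : ℕ} {W' K E' C' : Type} [Fintype K] [DecidableEq K] [Fintype E']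
    [DecidableEq E'] (A : Set ℕ) (L : Lay Lt W' K E' C') (n m k S a b c : ℕ) (hn20 : 2 ^ 20 ≤ n)
    (hmn : m ≤ n ^ 2) (hk : 1 ≤ k) (hkn : k ≤ n) (hLt : Lt ≤ n ^ 3) (hb0 : L.b0 = 3 * 2 ^ b)
    (hcK : Fintype.card K = 2 ^ a)
    (hΛE : (2 : ℝ) ^ a * 2 ^ b ≤ L.len * EE (2 ^ c) ^ 2)
    (hNE : (2 : ℝ) ^ a * 2 ^ b * 2 ^ c ≤ Fintype.card E' * EE (2 ^ c) ^ 3)
    (h1' : (m : ℝ) ≤ 2 ^ 18 * (((2 : ℝ) ^ a) ^ 2 * 2 ^ b * 2 ^ c))
    (hhk' : (2 : ℝ) ^ b * k ≤ S + k * Real.log n)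
    (hgh : ((S : ℝ) + k * Real.log n) * 2 ^ 100 ≤ 28 * (2 ^ a * 2 ^ b))
    (f : ℕ → ℝ) (hf : SeekCost f) (D : ℕ) (hD1 : 1 ≤ D) (hD : (D : ℝ) ≤ 28 * (2 ^ a * 2 ^ b))
    (hkD' : (k : ℝ) * D ^ 2 ≤ n * (S + k * Real.log n)) (W : ℝ)
    (hEW : EE (2 ^ c) ^ 5 * W ≤ 2 ^ 87) (T : ℝ) (Q Ω : Type) [Fintype Q] [MeasurableSpace Ω]
    (μ : Measure Ω) [IsProbabilityMeasure μ] (hQ : Fintype.card Q ≤ 2 ^ S)
    (M : Machine Lt k W' Q Ω) (hgd : Good M μ A L T (T / f L.len)) :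
    1 / 2 ^ 210 * m * f D * W ≤ (S + k * Real.log n) * (T + k) := by
  have hnpos : (0 : ℝ) < n := by
    have : 0 < n := by omega
    exact_mod_cast this
  have hn20' : (2 : ℝ) ^ 20 ≤ n := by exact_mod_cast hn20
  have hm0 : (0 : ℝ) ≤ m := Nat.cast_nonneg m
  have hmn' : (m : ℝ) ≤ (n : ℝ) ^ 2 := by exact_mod_cast hmn
  set l := Real.log n with hl
  set σ : ℝ := (S : ℝ) + k * l with hσ
  have hk1 : (1 : ℝ) ≤ k := by exact_mod_cast hk
  have hk0 : (0 : ℝ) < k := by linarith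
  have hS0 : (0 : ℝ) ≤ S := Nat.cast_nonneg _
  have hl1 : 1 ≤ l := by
    rw [hl, Real.le_log_iff_exp_le hnpos]
    have h1 := Real.exp_one_lt_d9
    have h3 : (3 : ℝ) ≤ 2 ^ 20 := by norm_num
    linarith
  have hkl : (k : ℝ) ≤ k * l := le_mul_of_one_le_right hk0.le hl1
  have hkσ : (k : ℝ) ≤ σ := by linarith
  have hσ1 : 1 ≤ σ := by linarith
  have hσ0 : 0 < σ := by linarith
  have hEr := EE_cube (2 ^ c) Nat.one_le_two_pow
  set E := EE (2 ^ c) with hE
  have hE1 : 1 ≤ E := one_le_EE _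
  have hE0 : 0 < E := by linarith
  push_cast at hEr
  by_contra hcon
  push Not at hcon
  have hT0 : 0 ≤ T := by simpa using hgd.time (f0 _ _) 0
  have hfD1 : 1 ≤ f D := hf.one_le hD1
  have ha : σ * T * (2 ^ 60 * E ^ 5) ≤ m * f D := by
    have h1 : σ * T ≤ 1 / 2 ^ 210 * (m : ℝ) * f D * W := by
      have h0 : 0 ≤ σ * k := by positivity
      have h1 : σ * (T + k) = σ * T + σ * k := by ring
      linarith
    have h2 := mul_le_mul_of_nonneg_right h1 (by positivity : (0 : ℝ) ≤ 2 ^ 60 * E ^ 5)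
    have h3 : 1 / 2 ^ 210 * (m : ℝ) * f D * W * (2 ^ 60 * E ^ 5) =
        m * f D * (E ^ 5 * W / 2 ^ 150) := by
      ring
    have h4 : E ^ 5 * W / 2 ^ 150 ≤ 1 := by
      rw [div_le_iff₀ (by positivity)]
      refine hEW.trans ?_
      norm_num
    rw [h3] at h2
    exact h2.trans (mul_le_of_le_one_right (by positivity) h4)
  have hcK' : (Fintype.card K : ℝ) = (2 : ℝ) ^ a := by
    rw [hcK]
    push_cast
    ring
  have hcK0 : 0 < Fintype.card K := by
    rw [hcK]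
    positivity
  set g : ℝ := (2 : ℝ) ^ a with hg
  set h : ℝ := (2 : ℝ) ^ b with hh
  set r : ℝ := (2 : ℝ) ^ c with hr
  have hg1 : 1 ≤ g := one_le_pow₀ (by norm_num)
  have hh1 : 1 ≤ h := one_le_pow₀ (by norm_num)
  have hr1 : 1 ≤ r := one_le_pow₀ (by norm_num)
  have hg0 : 0 < g := by linarith
  have hh0 : 0 < h := by linarith
  have hr0 : 0 < r := by linarith
  set N : ℝ := (Fintype.card E' : ℝ) with hN
  have hN0 : 0 < N := by
    by_contra hcon
    push Not at hcon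
    have h1 : N * E ^ 3 ≤ 0 := mul_nonpos_of_nonpos_of_nonneg hcon (by positivity)
    have h2 : 0 < g * h * r := by positivity
    linarith
  have hcardE : 0 < Fintype.card E' := by
    rw [hN] at hN0
    exact_mod_cast hN0
  have hLlen : 1 ≤ L.len := L.hlen
  have hFL : 1 ≤ f L.len := hf.one_le hLlen
  have hFL0 : 0 < f L.len := by linarith
  -- the distance against the length of the intervals
  have hFD : f D ≤ 28 * E ^ 2 * f L.len := by
    apply hf.scale hD1 hLlen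
    · have : 1 ≤ E ^ 2 := one_le_pow₀ hE1
      linarith
    · have h2 : 28 * (g * h) ≤ 28 * ((L.len : ℝ) * E ^ 2) :=
        mul_le_mul_of_nonneg_left hΛE (by norm_num)
      linarith
  set H := ⌈100 * T⌉₊ + 1 with hH
  set V : ℝ := T / f L.len with hV
  have hV0 : 0 ≤ V := by positivity
  set R1 := ⌈1200 * (k + V) / g⌉₊ + 1 with hR1
  set R2 := ⌈600 * k * V / g⌉₊ + 1 with hR2
  have hR1V : 1200 * (k + V) / g ≤ R1 := by
    rw [hR1]
    push_cast
    have := Nat.le_ceil (1200 * (k + V) / g)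
    linarith
  have hR1V2 : (R1 : ℝ) ≤ 1200 * (k + V) / g + 2 := by
    rw [hR1]
    push_cast
    have := Nat.ceil_lt_add_one (by positivity : 0 ≤ 1200 * (k + V) / g)
    linarith
  have hR2V : 600 * k * V / g ≤ R2 := by
    rw [hR2]
    push_cast
    have := Nat.le_ceil (600 * k * V / g)
    linarith
  have hR2V2 : (R2 : ℝ) ≤ 600 * k * V / g + 2 := by
    rw [hR2]
    push_cast
    have := Nat.ceil_lt_add_one (by positivity : 0 ≤ 600 * k * V / g)
    linarith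
  have hR10 : (0 : ℝ) < R1 := by
    rw [hR1]
    positivity
  have hR20 : (0 : ℝ) < R2 := by
    rw [hR2]
    positivity
  have hmain := main_ineq M μ hgd (by omega) H R1 R2 (by omega) (by omega) (by omega) hcK0 hcardE
    (N / 400) (by positivity)
  rw [← hN, hcK'] at hmain
  -- cardinality of the transcripts
  have hT3 : T ≤ (n : ℝ) ^ 3 / 1024 := by
    have h0 : T * σ ≤ m * D := by
      have h1 : T * σ ≤ σ * T * (2 ^ 60 * E ^ 5) := by
        have h3 : (1 : ℝ) ≤ 2 ^ 60 * E ^ 5 :=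
          one_le_mul_of_one_le_of_one_le (by norm_num) (one_le_pow₀ hE1)
        have h4 : T * σ * 1 ≤ T * σ * (2 ^ 60 * E ^ 5) :=
          mul_le_mul_of_nonneg_left h3 (by positivity)
        refine le_trans (le_of_eq (mul_one _).symm) (h4.trans (le_of_eq ?_))
        ring
      have h2 : (m : ℝ) * f D ≤ m * D := mul_le_mul_of_nonneg_left (hf.le_self hD1) hm0
      linarith
    have h1 : T ^ 2 ≤ (m : ℝ) ^ 2 * n := by
      have h2 : (T * σ) ^ 2 ≤ (m * D) ^ 2 := pow_le_pow_left₀ (by positivity) h0 2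
      have h3 : (D : ℝ) ^ 2 ≤ n * σ := by
        have h4 : (D : ℝ) ^ 2 ≤ k * (D : ℝ) ^ 2 := le_mul_of_one_le_left (by positivity) hk1
        linarith
      have h4 : (m * (D : ℝ)) ^ 2 ≤ (m : ℝ) ^ 2 * (n * σ) := by
        rw [mul_pow]
        exact mul_le_mul_of_nonneg_left h3 (by positivity)
      have h5 : (T * σ) ^ 2 ≤ (m : ℝ) ^ 2 * (n * σ) := h2.trans h4
      have h6 : T ^ 2 * σ ≤ (T * σ) ^ 2 := by
        have h7 : (T * σ) ^ 2 = T ^ 2 * σ * σ := by ring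
        rw [h7]
        exact le_mul_of_one_le_right (by positivity) hσ1
      have h7 : T ^ 2 * σ ≤ ((m : ℝ) ^ 2 * n) * σ := by
        refine h6.trans (h5.trans (le_of_eq ?_))
        ring
      exact le_of_mul_le_mul_right h7 hσ0
    apply sq_le_aux (by positivity)
    refine h1.trans ?_
    have h2 : (m : ℝ) ^ 2 ≤ ((n : ℝ) ^ 2) ^ 2 := pow_le_pow_left₀ hm0 hmn' 2
    have h3 : (m : ℝ) ^ 2 * n ≤ ((n : ℝ) ^ 2) ^ 2 * n := mul_le_mul_of_nonneg_right h2 hnpos.le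
    have h4 : ((n : ℝ) ^ 3 / 1024) ^ 2 = (n : ℝ) ^ 5 * (n / 2 ^ 20) := by ring
    have h5 : ((n : ℝ) ^ 2) ^ 2 * n = (n : ℝ) ^ 5 * 1 := by ring
    have h6 : (1 : ℝ) ≤ n / 2 ^ 20 := by
      rw [le_div_iff₀ (by norm_num)]
      linarith
    rw [h4]
    rw [h5] at h3
    exact h3.trans (mul_le_mul_of_nonneg_left h6 (by positivity))
  have hn3 : n * 2 ^ 40 ≤ n ^ 3 := by
    calc n * 2 ^ 40 = n * (2 ^ 20 * 2 ^ 20) := by norm_num
      _ ≤ n * (n * n) := Nat.mul_le_mul_left _ (Nat.mul_le_mul hn20 hn20)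
      _ = n ^ 3 := by ring
  have hH4 : H + 1 ≤ n ^ 3 := by
    have h1 : (⌈100 * T⌉₊ : ℝ) ≤ 100 * T + 1 := (Nat.ceil_lt_add_one (by linarith)).le
    have h2 : ((n * 2 ^ 40 : ℕ) : ℝ) ≤ ((n ^ 3 : ℕ) : ℝ) := by exact_mod_cast hn3
    push_cast at h2
    have h3 : ((H + 1 : ℕ) : ℝ) ≤ ((n ^ 3 : ℕ) : ℝ) := by
      rw [hH]
      push_cast
      linarith
    exact_mod_cast h3
  have hbk : (L.b0 : ℝ) * k ≤ 3 * (S + k * l) := by
    rw [hb0]
    push_cast
    have h1 := mul_le_mul_of_nonneg_left hhk' (by norm_num : (0 : ℝ) ≤ 3)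
    refine le_trans (le_of_eq ?_) h1
    ring
  have hX := card_TT_exp (k := k) (Q := Q) L R1 R2 H S (by omega) hk hkn hQ hH4 hLt hbk
  rw [← hl, ← hσ] at hX
  rw [← hσ] at hbk
  have hTH : T / H ≤ 1 / 100 := by
    have h3 : 100 * T ≤ (⌈100 * T⌉₊ : ℝ) := Nat.le_ceil _
    rw [div_le_iff₀ (by rw [hH]; positivity), hH]
    push_cast
    linarith
  have hVR1 : 12 / (R1 * g) * (k + V) ≤ 1 / 100 := by
    have h1 : 12 / ((R1 : ℝ) * g) * (k + V) = (1200 * (k + V) / g) / R1 / 100 := by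
      field_simp
      ring
    have h2 : (1200 * (k + V) / g) / R1 ≤ 1 := by
      rw [div_le_one hR10]
      exact hR1V
    rw [h1]
    linarith
  have hVR2 : 6 * k / (R2 * g) * V ≤ 1 / 100 := by
    have h1 : 6 * k / ((R2 : ℝ) * g) * V = (600 * k * V / g) / R2 / 100 := by
      field_simp
      ring
    have h2 : (600 * k * V / g) / R2 ≤ 1 := by
      rw [div_le_one hR20]
      exact hR2V
    rw [h1]
    linarith
  have hr0 : 8 * (N / 400) / N = 1 / 50 := by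
    field_simp
    norm_num
  rw [hr0] at hmain
  set Y : ℝ := 16 * σ * (R1 + 1) + (8 * l + 3 * L.b0) * (R2 + k) with hY
  have hfin : Real.exp (-8) ≤ Real.exp (Y - N / 39200) := by
    have h1 : Real.exp (Y - N / 39200) = Real.exp Y * Real.exp (-(N / 400) / 98) := by
      rw [← Real.exp_add]
      congr 1
      ring
    have h2 : 8 * (Fintype.card (TT L k Q R1 R2 H) : ℝ) * Real.exp (-(N / 400) / 98) ≤
        8 * (4 * (Real.exp Y * Real.exp (-(N / 400) / 98))) := by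
      rw [mul_assoc]
      refine mul_le_mul_of_nonneg_left ?_ (by norm_num)
      rw [← mul_assoc]
      exact mul_le_mul_of_nonneg_right hX (Real.exp_pos _).le
    have h3 : Real.exp (-8) ≤ 1 / 2000 := by
      have h4 : (2000 : ℝ) ≤ Real.exp 8 := by
        have h5 := Real.exp_one_gt_d9
        have h6 : (2.7 : ℝ) ^ 8 ≤ Real.exp 1 ^ 8 := pow_le_pow_left₀ (by norm_num) (by linarith) 8
        rw [← Real.exp_nat_mul] at h6
        norm_num at h6
        linarith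
      rw [Real.exp_neg, ← one_div]
      exact one_div_le_one_div_of_le (by norm_num) h4
    rw [h1]
    linarith
  have hlog := Real.exp_le_exp.1 hfin
  -- the exponent
  have hY2 : Y ≤ 30000 * (σ * V / g) + 20000 * (k * σ / g) + 100 * σ := by
    have e1 : 16 * σ * ((R1 : ℝ) + 1) ≤ 16 * σ * (1200 * (k + V) / g + 3) :=
      mul_le_mul_of_nonneg_left (by linarith) (by positivity)
    have hβ : k * (8 * l + 3 * (L.b0 : ℝ)) ≤ 17 * σ := by linarith
    have hβ0 : 0 ≤ 8 * l + 3 * (L.b0 : ℝ) := by positivity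
    have hβ1 : 8 * l + 3 * (L.b0 : ℝ) ≤ 17 * σ :=
      (le_mul_of_one_le_left hβ0 hk1).trans hβ
    have e2 : (8 * l + 3 * (L.b0 : ℝ)) * (R2 + k) ≤
        (8 * l + 3 * (L.b0 : ℝ)) * (600 * k * V / g + 2 + k) :=
      mul_le_mul_of_nonneg_left (by linarith) hβ0
    have e3 : (8 * l + 3 * (L.b0 : ℝ)) * (600 * k * V / g + 2 + k) =
        k * (8 * l + 3 * (L.b0 : ℝ)) * (600 * V / g + 1) + 2 * (8 * l + 3 * (L.b0 : ℝ)) := by
      ring
    have e4 : k * (8 * l + 3 * (L.b0 : ℝ)) * (600 * V / g + 1) ≤ 17 * σ * (600 * V / g + 1) :=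
      mul_le_mul_of_nonneg_right hβ (by positivity)
    have e5 : 16 * σ * (1200 * (k + V) / g + 3) =
        19200 * (σ * V / g) + 19200 * (k * σ / g) + 48 * σ := by ring
    have e6 : 17 * σ * (600 * V / g + 1) = 10200 * (σ * V / g) + 17 * σ := by ring
    have e7 : 0 ≤ σ * V / g := by positivity
    have e8 : 0 ≤ k * σ / g := by positivity
    linarith
  exact numcore (m := (m : ℝ)) (k := (k : ℝ)) (σ := σ) (g := g) (h := h) (r := r)
    (C := T) (E := E) (FD := f D) (FL := f L.len) (N := N)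
    hk1 hσ1 hg1 hh1 hr1 hgh h1' hhk' hE1 hEr ha hFD (by linarith) hFL hNE (by
      have : σ * (T / f L.len) / g = σ * V / g := rfl
      rw [this]
      linarith)

end Pool.Agent.HLP
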