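import Mathlib
import Pool.Agent.HDL.Main
import Pool.Agent.HLL.Main
import Pool.Agent.HLP.Core

/-!
# The final theorem
-/

set_option linter.unusedSectionVars false

open MeasureTheory

namespace Pool.Agent.HLP

open Pool.Agent.HDL (Machine Conf Lay Dat SeekCost LMachine DetectsTriangles HasDegrees tape EE
  one_le_EE EE_cube S_BETA S_ALPHA S_GAD2 f0)
open Pool.Agent.HLL (S_GADP sq_le_aux cube_le_aux dist_bound)

/-- the number of edges -/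
lemma edges_bound {g h r E M m W e : ℝ} (hg : 0 ≤ g) (hE : 0 ≤ E) (hW : 0 ≤ W)
    (h1 : m ≤ 2 ^ 18 * (g ^ 2 * h * r)) (h2 : g * h * r ≤ M * E ^ 3) (h3 : g * M ≤ 2 * e)
    (he : 0 ≤ e) (hEW : E ^ 3 * W ≤ 2 ^ 87) : 1 / 2 ^ 210 * m * W ≤ e := by
  have e1 : g ^ 2 * h * r ≤ 2 * e * E ^ 3 := by
    have e2 : g * (g * h * r) ≤ g * (M * E ^ 3) := mul_le_mul_of_nonneg_left h2 hg
    have e3 : g * (M * E ^ 3) = g * M * E ^ 3 := by ring
    have e4 : g * M * E ^ 3 ≤ 2 * e * E ^ 3 := mul_le_mul_of_nonneg_right h3 (by positivity)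
    have e5 : g ^ 2 * h * r = g * (g * h * r) := by ring
    linarith
  have e2 : m * W ≤ (2 ^ 18 * (2 * e * E ^ 3)) * W :=
    mul_le_mul_of_nonneg_right (h1.trans (mul_le_mul_of_nonneg_left e1 (by norm_num))) hW
  have e3 : (2 ^ 18 * (2 * e * E ^ 3)) * W = 2 ^ 19 * e * (E ^ 3 * W) := by ring
  have e4 : 2 ^ 19 * e * (E ^ 3 * W) ≤ 2 ^ 19 * e * 2 ^ 87 :=
    mul_le_mul_of_nonneg_left hEW (by positivity)
  have e5 : 1 / 2 ^ 210 * m * W = 1 / 2 ^ 210 * (m * W) := by ring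
  have e6 : (1 : ℝ) / 2 ^ 210 * (m * W) ≤ 1 / 2 ^ 210 * (2 ^ 19 * e * 2 ^ 87) :=
    mul_le_mul_of_nonneg_left (by linarith) (by positivity)
  have e7 : (1 : ℝ) / 2 ^ 210 * (2 ^ 19 * e * 2 ^ 87) = e * (1 / 2 ^ 104) := by ring
  rw [e5]
  refine e6.trans ?_
  rw [e7]
  exact mul_le_of_le_one_right he (by norm_num)

/-- the trade-off for large memory: the machine has to read the tape -/
theorem read_case {Lt k : ℕ} {W' K E' C' : Type} [Fintype K] [DecidableEq K] [Fintype E']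
    [DecidableEq E'] (A : Set ℕ) (L : Lay Lt W' K E' C') (m a c : ℕ) (hk : 0 < k)
    (hcK : Fintype.card K = 2 ^ a)
    (hNE : (2 : ℝ) ^ a * 2 ^ 0 * 2 ^ c ≤ Fintype.card E' * EE (2 ^ c) ^ 3)
    (h1' : (m : ℝ) ≤ 2 ^ 18 * (((2 : ℝ) ^ a) ^ 2 * 2 ^ 0 * 2 ^ c)) (σ : ℝ) (hσ : 0 ≤ σ)
    (f : ℕ → ℝ) (hf : SeekCost f) (D : ℕ) (hD1 : 1 ≤ D) (hfD : (D : ℝ) ≤ 2 ^ 100 * σ) (W : ℝ)
    (hW : 0 ≤ W) (hEW : EE (2 ^ c) ^ 5 * W ≤ 2 ^ 87) (T V : ℝ) (Q Ω : Type) [Fintype Q]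
    [MeasurableSpace Ω] (μ : Measure Ω) [IsProbabilityMeasure μ] (M : Machine Lt k W' Q Ω)
    (hgd : Good M μ A L T V) : 1 / 2 ^ 210 * m * f D * W ≤ σ * (T + k) := by
  have hE1 := one_le_EE (2 ^ c)
  set E := EE (2 ^ c) with hE
  have hE0 : 0 < E := by linarith
  have hT0 : 0 ≤ T := by simpa using hgd.time (f0 _ _) 0
  have hk0 : (0 : ℝ) ≤ k := Nat.cast_nonneg k
  have h1 := read_bound M μ hgd hk (⌈12 * T⌉₊ + 1) (by omega)
  have h2 : T / ((⌈12 * T⌉₊ + 1 : ℕ) : ℝ) ≤ 1 / 12 := by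
    have h3 : 12 * T ≤ (⌈12 * T⌉₊ : ℝ) := Nat.le_ceil _
    rw [div_le_iff₀ (by positivity)]
    push_cast
    linarith
  have hcK' : (Fintype.card K : ℝ) = (2 : ℝ) ^ a := by
    rw [hcK]
    push_cast
    ring
  rw [pow_zero, mul_one] at hNE h1'
  set g : ℝ := (2 : ℝ) ^ a with hg
  set r : ℝ := (2 : ℝ) ^ c with hr
  have hg0 : 0 < g := by positivity
  have hr0 : 0 < r := by positivity
  have h3 : (m : ℝ) / (2 ^ 20 * E ^ 3) ≤ k + T := by
    have h4 : (1 / 4 : ℝ) * (g * (g * r / E ^ 3)) ≤ k + T := by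
      refine le_trans ?_ h1
      rw [hcK']
      have h5 : g * r / E ^ 3 ≤ Fintype.card E' := by
        rw [div_le_iff₀ (by positivity)]
        exact hNE
      exact mul_le_mul (by linarith) (mul_le_mul_of_nonneg_left h5 hg0.le) (by positivity)
        (by linarith)
    refine le_trans ?_ h4
    rw [div_le_iff₀ (by positivity)]
    have h6 : 1 / 4 * (g * (g * r / E ^ 3)) * (2 ^ 20 * E ^ 3) = 2 ^ 18 * (g ^ 2 * r) := by
      field_simp
      ring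
    rw [h6]
    exact h1'
  have h4 : (m : ℝ) ≤ (k + T) * (2 ^ 20 * E ^ 3) := by
    rw [div_le_iff₀ (by positivity)] at h3
    exact h3
  have hfD1 : 1 ≤ f D := hf.one_le hD1
  have hσP : f D ≤ 2 ^ 100 * σ := (hf.le_self hD1).trans hfD
  have h6 : (m : ℝ) * f D ≤ ((k + T) * (2 ^ 20 * E ^ 3)) * (2 ^ 100 * σ) :=
    mul_le_mul h4 hσP (by linarith) (by positivity)
  have h7 := mul_le_mul_of_nonneg_right h6 hW
  have h8 := mul_le_mul_of_nonneg_left h7 (by positivity : (0 : ℝ) ≤ 1 / 2 ^ 210)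
  have h9 : E ^ 3 * W ≤ 2 ^ 87 := by
    have h10 : E ^ 3 ≤ E ^ 5 := pow_le_pow_right₀ hE1 (by norm_num)
    exact (mul_le_mul_of_nonneg_right h10 hW).trans hEW
  have h10 : 1 / 2 ^ 210 * ((k + T) * (2 ^ 20 * E ^ 3) * (2 ^ 100 * σ) * W) =
      σ * (T + k) * (E ^ 3 * W / 2 ^ 90) := by
    ring
  have h11 : E ^ 3 * W / 2 ^ 90 ≤ 1 := by
    rw [div_le_iff₀ (by positivity)]
    refine h9.trans ?_
    norm_num
  have h12 : 1 / 2 ^ 210 * m * f D * W = 1 / 2 ^ 210 * (m * f D * W) := by ring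
  rw [h12]
  refine h8.trans ?_
  rw [h10]
  exact mul_le_of_le_one_right (by positivity) h11

/-- the statement for given parameters -/
def Bound (ra : Bool) (W : ℝ) (n m k S : ℕ) : Prop :=
  ∃ e : ℕ, e ≤ m ∧ 1 / 2 ^ 210 * m * W ≤ e ∧ ∀ v ≥ n, ∃ d : Fin v → ℕ, ∑ i, d i = 2 * e ∧
    (∃ G H : SimpleGraph (Fin v), HasDegrees G d ∧ HasDegrees H d ∧ ¬ G.CliqueFree 3 ∧
      H.CliqueFree 3) ∧
    ∀ f : ℕ → ℝ, SeekCost f → ∀ D : ℕ, 1 ≤ D → (k : ℝ) * D ^ 2 ≤ n * (S + k * Real.log n) →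
      (ra = true → (k : ℝ) * D ^ 3 ≤ m * (S + k * Real.log n)) →
      ∀ (T : ℝ) (Q Ω : Type) [Fintype Q] [MeasurableSpace Ω] (μ : Measure Ω)
        [IsProbabilityMeasure μ], Fintype.card Q ≤ 2 ^ S → ∀ M : LMachine d k Q Ω,
        DetectsTriangles M μ → ExpectedCostLE M μ ra f T →
        1 / 2 ^ 210 * m * f D * W ≤ (S + k * Real.log n) * (T + k)

/-- large memory -/
lemma bound_of_read {ra : Bool} {n m k S a c : ℕ} {W : ℝ} (hinst : Inst ra n m a 0 c) (hk : 0 < k)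
    (hn : 1 ≤ n)
    (h1' : (m : ℝ) ≤ 2 ^ 18 * (((2 : ℝ) ^ a) ^ 2 * 2 ^ 0 * 2 ^ c)) (hW : 0 ≤ W)
    (hEW : EE (2 ^ c) ^ 5 * W ≤ 2 ^ 87)
    (hD : ∀ D : ℕ, 1 ≤ D → (k : ℝ) * D ^ 2 ≤ n * (S + k * Real.log n) →
      (ra = true → (k : ℝ) * D ^ 3 ≤ m * (S + k * Real.log n)) →
      (D : ℝ) ≤ 2 ^ 100 * (S + k * Real.log n)) : Bound ra W n m k S := by
  obtain ⟨K, E', i1, i2, i3, i4, e, he, hcard, hcK, hNE, hall⟩ := hinst
  have hσ : (0 : ℝ) ≤ S + k * Real.log n := by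
    have : 0 ≤ Real.log n := Real.log_natCast_nonneg n
    positivity
  have hE1 := one_le_EE (2 ^ c)
  refine ⟨e, he, ?_, fun v hv => ?_⟩
  · have hcK' : (Fintype.card K : ℝ) = (2 : ℝ) ^ a := by
      rw [hcK]
      push_cast
      ring
    refine edges_bound (g := (2 : ℝ) ^ a) (h := 2 ^ 0) (r := 2 ^ c) (E := EE (2 ^ c))
      (M := Fintype.card E') (by positivity) (by linarith) hW h1' hNE ?_ (Nat.cast_nonneg _) ?_
    · rw [← hcK']
      exact_mod_cast hcard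
    · have h10 : EE (2 ^ c) ^ 3 ≤ EE (2 ^ c) ^ 5 := pow_le_pow_right₀ hE1 (by norm_num)
      exact (mul_le_mul_of_nonneg_right h10 hW).trans hEW
  · obtain ⟨d, L, hd, hGH, hb0, hlen, hgood⟩ := hall v hv
    refine ⟨d, hd, hGH, ?_⟩
    intro f hf D hD1 hkD hkD' T Q Ω _ _ μ _ hQ M hdt hT
    exact read_case (places ra d) L m a c hk hcK hNE h1' _ hσ f hf D hD1 (hD D hD1 hkD hkD') W hW
      hEW T _ Q Ω μ M (hgood f hf k T Q Ω μ M hdt hT)

/-- small memory -/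
lemma bound_of_core {ra : Bool} {n m k S a b c : ℕ} {W : ℝ} (hinst : Inst ra n m a b c)
    (hn20 : 2 ^ 20 ≤ n) (hmn : m ≤ n ^ 2) (hk : 1 ≤ k) (hkn : k ≤ n)
    (h1' : (m : ℝ) ≤ 2 ^ 18 * (((2 : ℝ) ^ a) ^ 2 * 2 ^ b * 2 ^ c))
    (hhk' : (2 : ℝ) ^ b * k ≤ S + k * Real.log n)
    (hgh : ((S : ℝ) + k * Real.log n) * 2 ^ 100 ≤ 28 * (2 ^ a * 2 ^ b)) (hW : 0 ≤ W)
    (hEW : EE (2 ^ c) ^ 5 * W ≤ 2 ^ 87)
    (hD : ∀ D : ℕ, 1 ≤ D → (k : ℝ) * D ^ 2 ≤ n * (S + k * Real.log n) →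
      (ra = true → (k : ℝ) * D ^ 3 ≤ m * (S + k * Real.log n)) →
      (D : ℝ) ≤ 28 * (2 ^ a * 2 ^ b)) : Bound ra W n m k S := by
  obtain ⟨K, E', i1, i2, i3, i4, e, he, hcard, hcK, hNE, hall⟩ := hinst
  have hE1 := one_le_EE (2 ^ c)
  refine ⟨e, he, ?_, fun v hv => ?_⟩
  · have hcK' : (Fintype.card K : ℝ) = (2 : ℝ) ^ a := by
      rw [hcK]
      push_cast
      ring
    refine edges_bound (g := (2 : ℝ) ^ a) (h := 2 ^ b) (r := 2 ^ c) (E := EE (2 ^ c))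
      (M := Fintype.card E') (by positivity) (by linarith) hW h1' hNE ?_ (Nat.cast_nonneg _) ?_
    · rw [← hcK']
      exact_mod_cast hcard
    · have h10 : EE (2 ^ c) ^ 3 ≤ EE (2 ^ c) ^ 5 := pow_le_pow_right₀ hE1 (by norm_num)
      exact (mul_le_mul_of_nonneg_right h10 hW).trans hEW
  · obtain ⟨d, L, hd, hGH, hb0, hlen, hgood⟩ := hall v hv
    refine ⟨d, hd, hGH, ?_⟩
    intro f hf D hD1 hkD hkD' T Q Ω _ _ μ _ hQ M hdt hT
    have hLt : ∑ i, d i ≤ n ^ 3 := by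
      have h1 : 2 * m ≤ n ^ 3 := by
        calc 2 * m ≤ n * n ^ 2 := Nat.mul_le_mul (by omega) hmn
          _ = n ^ 3 := by ring
      omega
    exact core_bound (places ra d) L n m k S a b c hn20 hmn hk hkn hLt hb0 hcK hlen hNE h1' hhk' hgh
      f hf D hD1 (hD D hD1 hkD hkD') hkD W hEW T Q Ω μ hQ M (hgood f hf k T Q Ω μ M hdt hT)

/-- the number of blocks -/
lemma choose_b {k : ℕ} {σ : ℝ} (hk : 1 ≤ k) (hkσ : (k : ℝ) ≤ σ) :
    ∃ b : ℕ, (2 : ℝ) ^ b * k ≤ σ ∧ σ ≤ 2 * k * 2 ^ b := by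
  have hk0 : (0 : ℝ) < k := by
    have : (1 : ℝ) ≤ k := by exact_mod_cast hk
    linarith
  have hσ0 : 0 ≤ σ := by linarith
  set x := ⌊σ / k⌋₊ with hx
  have hx1 : 1 ≤ x := by
    apply Nat.le_floor
    rw [Nat.cast_one, one_le_div hk0]
    exact hkσ
  have hb1 : 2 ^ Nat.log 2 x ≤ x := Nat.pow_log_le_self 2 (by omega)
  have hb2 : x < 2 ^ (Nat.log 2 x + 1) := Nat.lt_pow_succ_log_self (by norm_num) x
  refine ⟨Nat.log 2 x, ?_, ?_⟩
  · have h1 : (x : ℝ) ≤ σ / k := Nat.floor_le (by positivity)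
    have h2 : ((2 ^ Nat.log 2 x : ℕ) : ℝ) ≤ x := by exact_mod_cast hb1
    push_cast at h2
    rw [le_div_iff₀ hk0] at h1
    exact (mul_le_mul_of_nonneg_right h2 hk0.le).trans h1
  · have h1 : σ / k < x + 1 := Nat.lt_floor_add_one _
    have h2 : ((x + 1 : ℕ) : ℝ) ≤ ((2 ^ (Nat.log 2 x + 1) : ℕ) : ℝ) := by exact_mod_cast hb2
    push_cast at h2
    rw [div_lt_iff₀ hk0] at h1
    have h3 := mul_le_mul_of_nonneg_right h2 hk0.le
    have h4 : (2 : ℝ) ^ (Nat.log 2 x + 1) * k = 2 * k * 2 ^ Nat.log 2 x := by ring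
    rw [h4] at h3
    linarith

/-- the theorem for machines with random access to the lists -/
theorem main_ofT (hB : S_BETA) (hA : S_ALPHA) (hD : S_GADP) (n : ℕ) (hn : 2 ^ 20 ≤ n) (m : ℕ)
    (hnm : n ≤ m) (hmn : m ≤ n ^ 2) (k S : ℕ) (hk : 1 ≤ k) :
    Bound true (Real.exp (-20 * √(Real.log m))) n m k S := by
  have hn20 : 2 ^ 20 ≤ n := hn
  have hnpos : (0 : ℝ) < n := by
    have : 0 < n := by omega
    exact_mod_cast this
  have hn20' : (2 : ℝ) ^ 20 ≤ n := by exact_mod_cast hn20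
  have hm0 : (0 : ℝ) ≤ m := Nat.cast_nonneg m
  have hk1 : (1 : ℝ) ≤ k := by exact_mod_cast hk
  have hk0 : (0 : ℝ) < k := by linarith
  have hS0 : (0 : ℝ) ≤ S := Nat.cast_nonneg _
  have hl1 : 1 ≤ Real.log n := by
    rw [Real.le_log_iff_exp_le hnpos]
    have h1 := Real.exp_one_lt_d9
    have h3 : (3 : ℝ) ≤ 2 ^ 20 := by norm_num
    linarith
  have hkl : (k : ℝ) ≤ k * Real.log n := le_mul_of_one_le_right hk0.le hl1
  have hσdef : ∃ σ : ℝ, σ = (S : ℝ) + k * Real.log n := ⟨_, rfl⟩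
  obtain ⟨σ, hσ⟩ := hσdef
  have hkσ : (k : ℝ) ≤ σ := by linarith
  have hσ1 : 1 ≤ σ := by linarith
  have hσ0 : 0 < σ := by linarith
  have hWpos := (Real.exp_pos (-20 * √(Real.log m))).le
  by_cases hcase : (n : ℝ) ≤ k * σ * 2 ^ 200 ∨ (m : ℝ) ≤ k * σ ^ 2 * (2 ^ 100) ^ 3
  · obtain ⟨a, c, hc1, hc2, hc3, hc3', hc4, hc5, hc6⟩ := HLL.choose_params n m 0
      (by omega) (by omega) hnm hmn
    refine bound_of_read (inst_existsT hB hA hD n m a 0 c hc1 hc2 hc3 hc3') hk (by omega) hc5 hWpos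
      ?_ ?_
    · exact (HLL.EE_five (2 ^ c) m Nat.one_le_two_pow hc6).trans (by norm_num)
    · intro D hD1 hkD hkD'
      rw [← hσ] at hkD hkD' ⊢
      have hkD'' := hkD' rfl
      rcases hcase with hcase | hcase
      · apply sq_le_aux (by positivity)
        have h8 : (n : ℝ) * σ ≤ k * σ * 2 ^ 200 * σ := mul_le_mul_of_nonneg_right hcase hσ0.le
        have h9 : (k : ℝ) * σ * 2 ^ 200 * σ = k * (2 ^ 100 * σ) ^ 2 := by ring
        rw [h9] at h8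
        exact le_of_mul_le_mul_left (hkD.trans h8) hk0
      · apply cube_le_aux (by positivity)
        have h8 : (m : ℝ) * σ ≤ k * σ ^ 2 * (2 ^ 100) ^ 3 * σ :=
          mul_le_mul_of_nonneg_right hcase hσ0.le
        have h9 : (k : ℝ) * σ ^ 2 * (2 ^ 100) ^ 3 * σ = k * (2 ^ 100 * σ) ^ 3 := by ring
        rw [h9] at h8
        exact le_of_mul_le_mul_left (hkD''.trans h8) hk0
  · push Not at hcase
    obtain ⟨hcase, hcase2⟩ := hcase
    obtain ⟨b, hhk', h2h⟩ := choose_b hk hkσ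
    have hh1 : (1 : ℝ) ≤ 2 ^ b := one_le_pow₀ (by norm_num)
    have hσkσ : σ ≤ k * σ := le_mul_of_one_le_left hσ0.le hk1
    have hbσ : (2 : ℝ) ^ b ≤ σ := by
      have : (2 : ℝ) ^ b ≤ 2 ^ b * k := le_mul_of_one_le_right (by linarith) hk1
      linarith
    have h64 : 96 * 2 ^ b ≤ n := by
      have h2 : (2 : ℝ) ^ b * 96 ≤ k * σ * 2 ^ 200 :=
        mul_le_mul (hbσ.trans hσkσ) (by norm_num) (by norm_num) (by positivity)
      have h3 : (96 : ℝ) * 2 ^ b ≤ n := by linarith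
      exact_mod_cast h3
    have h65 : 672 * 2 ^ (2 * b) ≤ m := by
      have h1 : ((2 : ℝ) ^ b) ^ 2 ≤ σ ^ 2 := pow_le_pow_left₀ (by positivity) hbσ 2
      have h2 : σ ^ 2 ≤ k * σ ^ 2 := le_mul_of_one_le_left (by positivity) hk1
      have h3 : ((2 : ℝ) ^ b) ^ 2 * 672 ≤ k * σ ^ 2 * (2 ^ 100) ^ 3 :=
        mul_le_mul (h1.trans h2) (by norm_num) (by norm_num) (by positivity)
      have h4 : (2 : ℝ) ^ (2 * b) = ((2 : ℝ) ^ b) ^ 2 := by
        rw [← pow_mul]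
        congr 1
        omega
      have h5 : (672 : ℝ) * 2 ^ (2 * b) ≤ m := by
        rw [h4]
        linarith
      exact_mod_cast h5
    have hkn : k ≤ n := by
      have h1 : (k : ℝ) * 1 ≤ k * (σ * 2 ^ 200) := by
        apply mul_le_mul_of_nonneg_left _ hk0.le
        exact one_le_mul_of_one_le_of_one_le hσ1 (by norm_num)
      have h2 : (k : ℝ) ≤ n := by
        have h3 : (k : ℝ) * (σ * 2 ^ 200) = k * σ * 2 ^ 200 := by ring
        linarith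
      exact_mod_cast h2
    obtain ⟨a, c, hc1, hc2, hc3, hc3', hc4, hc5, hc6⟩ := HLL.choose_params n m b h64 h65 hnm hmn
    refine bound_of_core (inst_existsT hB hA hD n m a b c hc1 hc2 hc3 hc3') hn20 hmn hk hkn hc5 ?_ ?_
      hWpos ?_ ?_
    · rw [← hσ]
      exact hhk'
    · rw [← hσ]
      apply dist_bound (by positivity) hk0 hσ0.le (by positivity) (by positivity) h2h hc4
      · have h1 : (k : ℝ) * (σ * 2 ^ 100) ^ 2 = (k * σ * 2 ^ 200) * σ := by ring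
        rw [h1]
        exact mul_le_mul_of_nonneg_right hcase.le hσ0.le
      · have h1 : (k : ℝ) * (σ * 2 ^ 100) ^ 3 = (k * σ ^ 2 * (2 ^ 100) ^ 3) * σ := by ring
        rw [h1]
        exact mul_le_mul_of_nonneg_right hcase2.le hσ0.le
    · exact (HLL.EE_five (2 ^ c) m Nat.one_le_two_pow hc6).trans (by norm_num)
    · intro D hD1 hkD hkD'
      rw [← hσ] at hkD hkD'
      exact dist_bound (Nat.cast_nonneg _) hk0 hσ0.le (by positivity) (by positivity) h2h hc4 hkD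
        (hkD' rfl)

/-- the theorem for machines without random access to the lists -/
theorem main_ofF (hB : S_BETA) (hA : S_ALPHA) (hD : S_GAD2) (n : ℕ) (hn : 2 ^ 20 ≤ n) (m : ℕ)
    (hnm : n ≤ m) (hmn : m ≤ n ^ 2) (k S : ℕ) (hk : 1 ≤ k) :
    Bound false (Real.exp (-20 * √(Real.log ((m : ℝ) / n)))) n m k S := by
  have hn20 : 2 ^ 20 ≤ n := hn
  have hnpos : (0 : ℝ) < n := by
    have : 0 < n := by omega
    exact_mod_cast this
  have hn20' : (2 : ℝ) ^ 20 ≤ n := by exact_mod_cast hn20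
  have hm0 : (0 : ℝ) ≤ m := Nat.cast_nonneg m
  have hk1 : (1 : ℝ) ≤ k := by exact_mod_cast hk
  have hk0 : (0 : ℝ) < k := by linarith
  have hS0 : (0 : ℝ) ≤ S := Nat.cast_nonneg _
  have hl1 : 1 ≤ Real.log n := by
    rw [Real.le_log_iff_exp_le hnpos]
    have h1 := Real.exp_one_lt_d9
    have h3 : (3 : ℝ) ≤ 2 ^ 20 := by norm_num
    linarith
  have hkl : (k : ℝ) ≤ k * Real.log n := le_mul_of_one_le_right hk0.le hl1
  have hσdef : ∃ σ : ℝ, σ = (S : ℝ) + k * Real.log n := ⟨_, rfl⟩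
  obtain ⟨σ, hσ⟩ := hσdef
  have hkσ : (k : ℝ) ≤ σ := by linarith
  have hσ1 : 1 ≤ σ := by linarith
  have hσ0 : 0 < σ := by linarith
  have hWpos := (Real.exp_pos (-20 * √(Real.log ((m : ℝ) / n)))).le
  have hprod : ∀ (a b c : ℕ), (n : ℝ) ≤ 336 * (((2 : ℝ) ^ a) ^ 2 * 2 ^ b) →
      (m : ℝ) ≤ 336 * (n * 2 ^ c) → (m : ℝ) ≤ 2 ^ 18 * (((2 : ℝ) ^ a) ^ 2 * 2 ^ b * 2 ^ c) := by
    intro a b c h1 h2
    have h3 : 336 * ((n : ℝ) * 2 ^ c) ≤ 336 * ((336 * (((2 : ℝ) ^ a) ^ 2 * 2 ^ b)) * 2 ^ c) :=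
      mul_le_mul_of_nonneg_left (mul_le_mul_of_nonneg_right h1 (by positivity)) (by norm_num)
    have h4 : 336 * ((336 * (((2 : ℝ) ^ a) ^ 2 * 2 ^ b)) * 2 ^ c) =
        112896 * (((2 : ℝ) ^ a) ^ 2 * 2 ^ b * 2 ^ c) := by ring
    have h5 : 112896 * (((2 : ℝ) ^ a) ^ 2 * 2 ^ b * 2 ^ c) ≤
        2 ^ 18 * (((2 : ℝ) ^ a) ^ 2 * 2 ^ b * 2 ^ c) :=
      mul_le_mul_of_nonneg_right (by norm_num) (by positivity)
    linarith
  by_cases hcase : (n : ℝ) ≤ k * σ * 2 ^ 200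
  · obtain ⟨a, c, hc1, hc2, hc3, hc4, hc5, hc6⟩ := HDL.choose_params n m 0 (by omega) hnm hmn
    refine bound_of_read (inst_existsF hB hA hD n m a 0 c hc1 hc2 hc3) hk (by omega)
      (hprod a 0 c hc4 hc5) hWpos ?_ ?_
    · exact HDL.EE_five (2 ^ c) n m Nat.one_le_two_pow (by omega) hnm hc6
    · intro D hD1 hkD hkD'
      rw [← hσ] at hkD ⊢
      apply sq_le_aux (by positivity)
      have h8 : (n : ℝ) * σ ≤ k * σ * 2 ^ 200 * σ := mul_le_mul_of_nonneg_right hcase hσ0.le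
      have h9 : (k : ℝ) * σ * 2 ^ 200 * σ = k * (2 ^ 100 * σ) ^ 2 := by ring
      rw [h9] at h8
      exact le_of_mul_le_mul_left (hkD.trans h8) hk0
  · push Not at hcase
    obtain ⟨b, hhk', h2h⟩ := choose_b hk hkσ
    have hh1 : (1 : ℝ) ≤ 2 ^ b := one_le_pow₀ (by norm_num)
    have hσkσ : σ ≤ k * σ := le_mul_of_one_le_left hσ0.le hk1
    have hbσ : (2 : ℝ) ^ b ≤ σ := by
      have : (2 : ℝ) ^ b ≤ 2 ^ b * k := le_mul_of_one_le_right (by linarith) hk1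
      linarith
    have h64 : 84 * 2 ^ b ≤ n := by
      have h2 : (2 : ℝ) ^ b * 84 ≤ k * σ * 2 ^ 200 :=
        mul_le_mul (hbσ.trans hσkσ) (by norm_num) (by norm_num) (by positivity)
      have h3 : (84 : ℝ) * 2 ^ b ≤ n := by linarith
      exact_mod_cast h3
    have hkn : k ≤ n := by
      have h1 : (k : ℝ) * 1 ≤ k * (σ * 2 ^ 200) := by
        apply mul_le_mul_of_nonneg_left _ hk0.le
        exact one_le_mul_of_one_le_of_one_le hσ1 (by norm_num)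
      have h2 : (k : ℝ) ≤ n := by
        have h3 : (k : ℝ) * (σ * 2 ^ 200) = k * σ * 2 ^ 200 := by ring
        linarith
      exact_mod_cast h2
    obtain ⟨a, c, hc1, hc2, hc3, hc4, hc5, hc6⟩ := HDL.choose_params n m b h64 hnm hmn
    have key : ∀ x : ℝ, 0 ≤ x → k * x ^ 2 ≤ n * σ → x ≤ 28 * (2 ^ a * 2 ^ b) := by
      intro x hx hkx
      apply sq_le_aux (by positivity)
      have e2 : (n : ℝ) * σ ≤ (336 * (((2 : ℝ) ^ a) ^ 2 * 2 ^ b)) * (2 * k * 2 ^ b) :=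
        mul_le_mul hc4 h2h hσ0.le (by positivity)
      have e3 : (336 * (((2 : ℝ) ^ a) ^ 2 * 2 ^ b)) * (2 * k * 2 ^ b) =
          k * (672 * ((2 : ℝ) ^ a * 2 ^ b) ^ 2) := by ring
      rw [e3] at e2
      have e4 : x ^ 2 ≤ 672 * ((2 : ℝ) ^ a * 2 ^ b) ^ 2 := le_of_mul_le_mul_left (hkx.trans e2) hk0
      have e5 : (28 * ((2 : ℝ) ^ a * 2 ^ b)) ^ 2 = 784 * ((2 : ℝ) ^ a * 2 ^ b) ^ 2 := by ring
      have e6 : 0 ≤ ((2 : ℝ) ^ a * 2 ^ b) ^ 2 := by positivity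
      linarith
    refine bound_of_core (inst_existsF hB hA hD n m a b c hc1 hc2 hc3) hn20 hmn hk hkn
      (hprod a b c hc4 hc5) ?_ ?_ hWpos ?_ ?_
    · rw [← hσ]
      exact hhk'
    · rw [← hσ]
      apply key _ (by positivity)
      have h1 : (k : ℝ) * (σ * 2 ^ 100) ^ 2 = (k * σ * 2 ^ 200) * σ := by ring
      rw [h1]
      exact mul_le_mul_of_nonneg_right hcase.le hσ0.le
    · exact HDL.EE_five (2 ^ c) n m Nat.one_le_two_pow (by omega) hnm hc6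
    · intro D hD1 hkD hkD'
      rw [← hσ] at hkD
      exact key _ (Nat.cast_nonneg _) hkD

end Pool.Agent.HLP
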